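import Pool.Agent.Lib.MP_5e2fbc_nt.B10.Defs

/-!
The sum of `p log p` over the primes of an arithmetic progression.
-/

set_option autoImplicit false

namespace Pool.Agent.B10

open Finset Filter Topology Pool.Agent.Shared.PNTAP Asymptotics

noncomputable section

/-- the sum of `p log p` over the primes `p ≤ x` in the class `a` -/
def theta2 {q : ℕ} (a : ZMod q) (x : ℝ) : ℝ :=
  ∑ p ∈ (Icc 1 ⌊x⌋₊).filter (fun p : ℕ => p.Prime ∧ (p : ZMod q) = a), p * Real.log p

lemma theta2_nat {q : ℕ} (a : ZMod q) (M : ℕ) :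
    theta2 a M = M * thetaAP a M - ∑ k ∈ range M, thetaAP a k := by
  simp only [theta2, thetaAP, Nat.floor_natCast, sum_filter]
  induction M with
  | zero => simp
  | succ M ih =>
    rw [sum_Icc_succ_top (by omega), sum_Icc_succ_top (by omega), sum_range_succ, ih]
    push_cast
    split_ifs <;> ring

theorem theta2_ap {q : ℕ} [NeZero q] {a : ZMod q} (ha : IsUnit a) :
    Tendsto (fun x : ℝ => theta2 a x / x ^ 2) atTop (𝓝 ((q.totient : ℝ)⁻¹ / 2)) := by
  set c : ℝ := (q.totient : ℝ)⁻¹
  have h0 := (theta_ap ha).comp tendsto_natCast_atTop_atTop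
  have hs : ∀ M : ℕ, ∑ k ∈ range M, (k:ℝ) = M * (M - 1) / 2 := fun M => by
    induction M with
    | zero => simp
    | succ M ih => rw [sum_range_succ, ih]; push_cast; ring
  have hq : Tendsto (fun M : ℕ => (∑ k ∈ range M, (k:ℝ)) / (M:ℝ) ^ 2) atTop (𝓝 (1 / 2)) := by
    have := (tendsto_inv_atTop_nhds_zero_nat (𝕜 := ℝ)).const_sub 1 |>.div_const 2
    rw [sub_zero] at this
    refine this.congr' ?_
    filter_upwards [eventually_gt_atTop 0] with M hM
    rw [hs]; field_simp
  have h1 : (fun k : ℕ => thetaAP a k - c * k) =o[atTop] fun k : ℕ => (k:ℝ) := by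
    refine isLittleO_of_tendsto' ?_ ?_
    · filter_upwards [eventually_gt_atTop 0] with M hM h
      exact absurd h (by positivity)
    · have := h0.sub_const c
      rw [sub_self] at this
      refine this.congr' ?_
      filter_upwards [eventually_gt_atTop 0] with M hM
      simp only [Function.comp]; field_simp
  have h2 := h1.sum_range (fun k => Nat.cast_nonneg k) (by
    refine tendsto_atTop_mono' _ ?_ tendsto_natCast_atTop_atTop
    filter_upwards [eventually_ge_atTop 3] with M hM
    have : (3:ℝ) ≤ M := by exact_mod_cast hM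
    rw [hs]; nlinarith)
  have h3 := (h2.trans_isBigO (isBigO_of_div_tendsto_nhds (g := fun M : ℕ => (M:ℝ) ^ 2) (by
    filter_upwards [eventually_gt_atTop 0] with M hM h
    exact absurd h (by positivity)) _ hq)).tendsto_div_nhds_zero
  have h4 : Tendsto (fun M : ℕ => theta2 a M / (M:ℝ) ^ 2) atTop (𝓝 (c / 2)) := by
    have := (h0.sub h3).sub (hq.const_mul c)
    rw [show c - 0 - c * (1 / 2) = c / 2 by ring] at this
    refine this.congr' ?_
    filter_upwards [eventually_gt_atTop 0] with M hM
    simp only [Function.comp, theta2_nat, sum_sub_distrib, ← mul_sum]; field_simp; ring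
  have h5 := (h4.comp tendsto_nat_floor_atTop).mul (tendsto_nat_floor_div_atTop (R := ℝ).pow 2)
  rw [one_pow, mul_one] at h5
  refine h5.congr' ?_
  filter_upwards [eventually_ge_atTop 1] with x hx
  have : (0:ℝ) < ⌊x⌋₊ := by exact_mod_cast Nat.floor_pos.2 hx
  simp only [Function.comp, theta2, Nat.floor_natCast]; field_simp

/-- scaled forms along the natural numbers -/
theorem theta2_mul {q : ℕ} [NeZero q] {a : ZMod q} (ha : IsUnit a) {c : ℝ} (hc : 0 < c) :
    Tendsto (fun n : ℕ => theta2 a (c * n) / (n:ℝ) ^ 2) atTop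
      (𝓝 (c ^ 2 * ((q.totient : ℝ)⁻¹ / 2))) := by
  refine (((theta2_ap ha).comp
    (tendsto_natCast_atTop_atTop.const_mul_atTop hc)).const_mul (c ^ 2)).congr' ?_
  filter_upwards [eventually_gt_atTop 0] with x hx
  simp only [Function.comp]
  field_simp

theorem theta_mul {q : ℕ} [NeZero q] {a : ZMod q} (ha : IsUnit a) {c : ℝ} (hc : 0 < c) :
    Tendsto (fun n : ℕ => thetaAP a (c * n) / (n:ℝ)) atTop (𝓝 (c * (q.totient : ℝ)⁻¹)) :=
  (theta_ap_mul ha hc).comp tendsto_natCast_atTop_atTop

end

end Pool.Agent.B10
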