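import Pool.Agent.Lib.MP_5e2fbc_nt.B10.CellSound
import Pool.Agent.Lib.MP_5e2fbc_nt.B10.CellRun
import Pool.Agent.Lib.MP_5e2fbc_nt.B10.Theta2

/-!
Base ten: the total cost of the primes between `2 n` and `340 n`.
-/

set_option autoImplicit false

namespace Pool.Agent.B10

open Finset Filter Topology Pool.Agent.Shared.PNTAP

lemma cellF_nonneg (v a b si μ : ℤ) (lo hi : ℤ × ℤ) : 0 ≤ cellF v a b si μ lo hi := by
  simp only [cellF, cellV, Bool.cond_eq_ite]
  split_ifs <;> first | exact le_rfl | (rw [sq4]; positivity)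

lemma piece (p : ℕ) {x y F : ℤ} (hxy : x ≤ y) (hF : 0 ≤ F) (f : ℕ → ℝ)
    (hf : ∀ r : ℕ, x ≤ 10 * r → 10 * (r : ℤ) < y → f r ≤ F) :
    ∑ r ∈ (range p).filter (fun r : ℕ => x ≤ 10 * (r : ℤ) ∧ 10 * (r : ℤ) < y), f r ≤
      F * ((y - x) / 10 + 1) := by
  refine (sum_le_card_nsmul _ _ (F : ℝ) fun r hr =>
    hf r (mem_filter.1 hr).2.1 (mem_filter.1 hr).2.2).trans ?_
  have h := card_le_card_of_injOn 
    (s := (range p).filter (fun r : ℕ => x ≤ 10 * (r : ℤ) ∧ 10 * (r : ℤ) < y))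
    (t := Ico (-(-x / 10)) (-(-y / 10))) (fun r => (r : ℤ))
    (fun r hr => by
      have := (mem_filter.1 (mem_coe.1 hr)).2
      exact mem_coe.2 (mem_Ico.2 (by beta_reduce; omega))) (Nat.cast_injective.injOn)
  rw [Int.card_Ico] at h
  generalize #((range p).filter (fun r : ℕ => x ≤ 10 * (r : ℤ) ∧ 10 * (r : ℤ) < y)) = k at h ⊢
  have h1 : (10 * k : ℤ) ≤ y - x + 10 := by omega
  have h2 : (10 * k : ℝ) ≤ y - x + 10 := by exact_mod_cast h1
  have h3 : (0 : ℝ) ≤ F := by exact_mod_cast hF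
  rw [nsmul_eq_mul]; nlinarith

lemma fold_spec {v a b si μ : ℤ} {n p : ℕ} (hv : 0 < v) (ha : a * n ≤ v * p) (hb : v * p ≤ b * n)
    (f : ℕ → ℝ)
    (hf : ∀ (lo hi : ℤ × ℤ) (r : ℕ), 10 * lo.1 * n - p * lo.2 ≤ 10 * r →
      10 * (r : ℤ) < 10 * hi.1 * n - p * hi.2 → f r ≤ cellF v a b si μ lo hi) :
    ∀ (ls : List (ℤ × ℤ)) (cur : ℤ × ℤ), 10 * cur.1 * n - p * cur.2 ≤ 10 * p →
      ∑ r ∈ (range p).filter (fun r : ℕ => 10 * cur.1 * n - p * cur.2 ≤ 10 * (r : ℤ)), f r ≤
        (foldC v a b si μ cur ls).1 * n + (foldC v a b si μ cur ls).2.1 * p / 10 +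
          (foldC v a b si μ cur ls).2.2 := by
  intro ls
  induction ls with
  | nil =>
    intro cur h
    have := piece p h (cellF_nonneg v a b si μ cur (0, -10)) f fun r h1 h2 =>
      hf cur (0, -10) r h1 (by simp only; linarith)
    rw [filter_congr (q := fun r : ℕ => 10 * cur.1 * n - p * cur.2 ≤ 10 * (r : ℤ))
      fun r hr => by have := mem_range.1 hr; omega] at this
    refine this.trans_eq ?_
    simp only [foldC, addC]; push_cast; ring
  | cons l ls ih =>
    intro cur h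
    rw [foldC, Bool.cond_eq_ite]
    split_ifs with hc
    · rw [Bool.and_eq_true] at hc
      have h1 := leL_spec hv (Int.natCast_nonneg n) ha hb hc.1
      have h2 := ih l (by have := leL_spec hv (Int.natCast_nonneg n) ha hb hc.2; linarith)
      have h3 := piece p h1 (cellF_nonneg v a b si μ cur l) f (hf cur l)
      rw [← sum_filter_add_sum_filter_not _ (fun r : ℕ => 10 * (r : ℤ) < 10 * l.1 * n - p * l.2),
        filter_filter, filter_filter,
        filter_congr (p := fun r : ℕ => 10 * cur.1 * n - p * cur.2 ≤ 10 * (r : ℤ) ∧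
          ¬ 10 * (r : ℤ) < 10 * l.1 * n - p * l.2)
          (q := fun r : ℕ => 10 * l.1 * n - p * l.2 ≤ 10 * (r : ℤ)) fun r _ => by omega]
      refine (add_le_add h3 h2).trans_eq ?_
      simp only [addC]; push_cast; ring
    · exact ih cur h

lemma cst_le {v a b si μ : ℤ} {n p : ℕ} (hv : 0 < v) (h0 : 0 < a) (hab : a ≤ b)
    (ha : a * n ≤ v * p) (hb : v * p ≤ b * n) (hs : (p * si) % 10 = 1) (hsi : 0 ≤ si ∧ si < 10)
    (d : ℕ) (ls : List (ℤ × ℤ)) :
    cst n d p (μ : ℝ) ≤ μ * d + ((foldC v a b si μ (0, 0) ls).1 * n +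
      (foldC v a b si μ (0, 0) ls).2.1 * p / 10 + (foldC v a b si μ (0, 0) ls).2.2) := by
  classical
  have := fold_spec (si := si) (μ := μ) hv ha hb (fun r => if Good n p r then 0 else
    ∑ i ∈ range d, max 0 (gg n p r - (μ : ℝ) - 2 * i))
    (fun lo hi r h1 h2 => cell_spec hs hsi
      (geI_spec hv (Int.natCast_nonneg n) h0 hab ha hb h1)
      (ltI_spec hv (Int.natCast_nonneg n) h0 hab ha hb h2) μ d) ls (0, 0) (by simp)
  rw [filter_true_of_mem fun r _ => by simp] at this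
  exact add_le_add_right this _

lemma cst_mono (n p : ℕ) {d e : ℕ} (h : d ≤ e) {μ : ℝ} (hμ : 0 ≤ μ) :
    cst n d p μ ≤ cst n e p μ := by
  refine add_le_add (by gcongr) (sum_le_sum fun r _ => ?_)
  split_ifs
  · exact le_rfl
  · exact sum_le_sum_of_subset_of_nonneg (range_subset_range.2 h) fun _ _ _ => le_max_left _ _

lemma sum_Ioc_sub (h : ℕ → ℝ) (P : ℕ → Prop) [DecidablePred P] {x y : ℕ} (hxy : x ≤ y) :
    ∑ p ∈ Ioc x y with P p, h p = ∑ p ∈ Icc 1 y with P p, h p - ∑ p ∈ Icc 1 x with P p, h p := by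
  simp only [sum_filter]
  exact eq_sub_of_add_eq' (sum_Ioc_consecutive _ x.zero_le hxy)

lemma chain (C : ℕ) (g : ℕ → ℕ → ℝ)
    (hg : ∀ n p, ∀ μ : ℕ, μ < 16 → g n p ≤ cst n (10 * n + C) p μ) (s : ZMod 10) (hs : IsUnit s)
    (si : ℕ) (hsi : si < 10) (hss : ∀ p : ℕ, (p : ZMod 10) = s → ((p : ℤ) * si) % 10 = 1) :
    ∀ (ks : List ℕ) (a : ℕ), 0 < a → ∀ ε : ℝ, 0 < ε → ∀ᶠ n : ℕ in atTop,
      ∑ p ∈ (Ioc ⌊(a : ℝ) / 1000 * n⌋₊ ⌊(endI a ks : ℝ) / 1000 * n⌋₊).filter
        (fun p : ℕ => p.Prime ∧ (p : ZMod 10) = s), g n p * Real.log p ≤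
          (runI 1000 si a ks / (80 * 1000 ^ 2) + ε) * n ^ 2 := by
  intro ks
  induction ks with
  | nil => exact fun a _ ε hε => .of_forall fun n => by simp [endI, runI]; positivity
  | cons k ks ih =>
    intro a ha ε hε
    have hend : ∀ (l : List ℕ) (x : ℕ), x ≤ endI x l := fun l => by
      induction l with
      | nil => exact fun _ => le_rfl
      | cons k l h => exact fun x => (Nat.le_add_right _ _).trans (h _)
    rw [endI, runI]
    set b := a + k / 16 with hb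
    have hab : a ≤ b := Nat.le_add_right _ _
    set μ := k % 16
    have hμ : μ < 16 := Nat.mod_lt _ (by norm_num)
    set x := foldC (1000 : ℕ) a b si μ (0, 0) (linesL (1000 : ℕ) (a + b) si) with hx
    have pa : (0 : ℝ) < a / 1000 := by positivity
    have pb : (0 : ℝ) < b / 1000 := by have : 0 < b := by omega
                                       positivity
    have lim := ((((tendsto_const_div_atTop_nhds_zero_nat ((μ * C + x.2.2 : ℝ))).const_add
      (x.1 + 10 * μ : ℝ)).mul ((theta_mul hs pb).sub (theta_mul hs pa))).add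
      (((theta2_mul hs pb).sub (theta2_mul hs pa)).const_mul (x.2.1 / 10 : ℝ))).eventually
      (gt_mem_nhds (lt_add_of_pos_right _ (half_pos hε)))
    filter_upwards [lim, ih b (by omega) _ (half_pos hε), eventually_gt_atTop 0] with n h1 h2 hn
    have hn' : (0 : ℝ) < n := by exact_mod_cast hn
    have f1 : ⌊(a : ℝ) / 1000 * n⌋₊ ≤ ⌊(b : ℝ) / 1000 * n⌋₊ := Nat.floor_le_floor (by gcongr)
    have f2 : ⌊(b : ℝ) / 1000 * n⌋₊ ≤ ⌊(endI b ks : ℝ) / 1000 * n⌋₊ :=
      Nat.floor_le_floor (by gcongr; exact hend _ _)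
    have h3 : ∑ p ∈ (Ioc ⌊(a : ℝ) / 1000 * n⌋₊ ⌊(b : ℝ) / 1000 * n⌋₊).filter
        (fun p : ℕ => p.Prime ∧ (p : ZMod 10) = s), g n p * Real.log p ≤
        ((x.1 + 10 * μ) * n + (μ * C + x.2.2)) *
          (thetaAP s (b / 1000 * n) - thetaAP s (a / 1000 * n)) +
          x.2.1 / 10 * (theta2 s (b / 1000 * n) - theta2 s (a / 1000 * n)) := by
      rw [thetaAP, thetaAP, theta2, theta2, ← sum_Ioc_sub _ _ f1, ← sum_Ioc_sub _ _ f1, mul_sum,
        mul_sum, ← sum_add_distrib]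
      refine sum_le_sum fun p hp => ?_
      obtain ⟨hp, -, hp2⟩ := mem_filter.1 hp
      have q1 := (Nat.floor_lt (by positivity)).1 (mem_Ioc.1 hp).1
      have q2 := (Nat.le_floor_iff (by positivity)).1 (mem_Ioc.1 hp).2
      have q3 := cst_le (v := (1000 : ℕ)) (a := a) (b := b) (si := si) (μ := μ) (n := n) (p := p)
        (by norm_num) (by exact_mod_cast ha) (by exact_mod_cast hab)
        (by exact_mod_cast (by push_cast; linarith : ((a * n : ℕ) : ℝ) ≤ (1000 * p : ℕ)))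
        (by exact_mod_cast (by push_cast; linarith : ((1000 * p : ℕ) : ℝ) ≤ (b * n : ℕ)))
        (hss p hp2) (by omega) (10 * n + C) (linesL (1000 : ℕ) (a + b) si)
      rw [← hx] at q3
      have q4 := mul_le_mul_of_nonneg_right ((hg n p μ hμ).trans (by exact_mod_cast q3))
        (Real.log_natCast_nonneg p)
      refine q4.trans_eq ?_
      push_cast; ring
    have h4 : (Nat.totient 10 : ℝ) = 4 := by
      rw [show Nat.totient 10 = 4 by decide]; norm_num
    rw [h4] at h1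
    have h5 := mul_le_mul_of_nonneg_right h1.le (sq_nonneg (n : ℝ))
    simp only [sum_filter] at h2 h3 ⊢
    rw [← sum_Ioc_consecutive _ f1 f2]
    refine (add_le_add (h3.trans ((le_of_eq ?_).trans h5)) h2).trans_eq ?_
    · field_simp
    · simp only [valI]; push_cast; ring

/-- the total cost of the primes between `2 n` and `340 n` -/
theorem cell_bound (C : ℕ) : ∀ᶠ n : ℕ in atTop, ∃ μ : ℕ → ℝ, (∀ p, 0 ≤ μ p) ∧
    ∀ d ≤ 10 * n + C, ∑ p ∈ Ioc (2 * n) (340 * n) with p.Prime,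
      cst n d p (μ p) * Real.log p ≤ 790 * (n : ℝ) ^ 2 := by
  have hex := fun n p => exists_min_image (range 16) (fun μ : ℕ => cst n (10 * n + C) p μ)
    ⟨0, by simp⟩
  choose m _ hm using hex
  have H := fun s hs si hsi hss ks => chain C (fun n p => cst n (10 * n + C) p (m n p))
    (fun n p μ hμ => hm n p μ (mem_range.2 hμ)) s hs si hsi hss ks 2000 (by norm_num) (1 / 4)
    (by norm_num)
  have hc : ∀ (s si p : ℕ), s < 10 → s * si % 10 = 1 → (p : ZMod 10) = (s : ℕ) →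
      ((p : ℤ) * si) % 10 = 1 := fun s si p h1 h2 h3 => by
    have := (ZMod.natCast_eq_natCast_iff' p s 10).1 h3
    rw [Nat.mod_eq_of_lt h1] at this
    exact_mod_cast (by rw [Nat.mul_mod, this, Nat.mul_mod_mod, h2] : p * si % 10 = 1)
  have h1 := H ((1 : ℕ) : ZMod 10) (by decide) 1 (by norm_num)
    (fun p => hc 1 1 p (by norm_num) rfl) ch1
  have h3 := H ((3 : ℕ) : ZMod 10) (by decide) 7 (by norm_num)
    (fun p => hc 3 7 p (by norm_num) rfl) ch3
  have h7 := H ((7 : ℕ) : ZMod 10) (by decide) 3 (by norm_num)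
    (fun p => hc 7 3 p (by norm_num) rfl) ch7
  have h9 := H ((9 : ℕ) : ZMod 10) (by decide) 9 (by norm_num)
    (fun p => hc 9 9 p (by norm_num) rfl) ch9
  rw [run1, end1] at h1
  rw [run3, end3] at h3
  rw [run7, end7] at h7
  rw [run9, end9] at h9
  filter_upwards [h1, h3, h7, h9, eventually_ge_atTop 3] with n h1 h3 h7 h9 hn
  refine ⟨fun p => m n p, fun p => Nat.cast_nonneg _, fun d hd => ?_⟩
  have e1 : ⌊((2000 : ℕ) : ℝ) / 1000 * n⌋₊ = 2 * n := by
    rw [← Nat.floor_natCast (R := ℝ) (2 * n)]; congr 1; push_cast; ring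
  have e2 : ⌊((340000 : ℕ) : ℝ) / 1000 * n⌋₊ = 340 * n := by
    rw [← Nat.floor_natCast (R := ℝ) (340 * n)]; congr 1; push_cast; ring
  rw [e1, e2] at h1 h3 h7 h9
  refine le_trans (le_trans ?_ (add_le_add (add_le_add h1 h3) (add_le_add h7 h9))) ?_
  · simp only [sum_filter, ← sum_add_distrib, ZMod.natCast_eq_natCast_iff']
    refine sum_le_sum fun p hp => ?_
    by_cases hq : p.Prime
    · have hl := mul_le_mul_of_nonneg_right (cst_mono n p hd (Nat.cast_nonneg (m n p)))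
        (Real.log_natCast_nonneg p)
      have h6 := (mem_Ioc.1 hp).1
      have h2 := hq.eq_one_or_self_of_dvd 2
      have h5 := hq.eq_one_or_self_of_dvd 5
      have : p % 10 = 1 ∨ p % 10 = 3 ∨ p % 10 = 7 ∨ p % 10 = 9 := by omega
      rcases this with h | h | h | h <;> simpa [hq, h] using hl
    · simp [hq]
  · push_cast; nlinarith [sq_nonneg (n : ℝ)]

end Pool.Agent.B10
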