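import Mathlib

/-!
Base ten: the checker that bounds the local cost on a range of primes.
A line `(c, T)` stands for the level `10 c n - p T` of `10 r`; primes satisfy `a n ≤ v p ≤ b n`.
-/

set_option autoImplicit false

namespace Pool.Agent.B10

/-- above this index a member of the disc is at least `10 c n` -/
def geI (v a b : ℤ) (lo : ℤ × ℤ) (c : ℤ) : ℤ :=
  lo.2 - min (10 * (lo.1 - c) * v / a) (10 * (lo.1 - c) * v / b)

/-- below this index a member of the disc is less than `10 c n` -/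
def ltI (v a b : ℤ) (hi : ℤ × ℤ) (c : ℤ) : ℤ :=
  hi.2 + min (10 * (c - hi.1) * v / a) (10 * (c - hi.1) * v / b)

/-- bound for the sum of the positive parts of `x - 2 i` -/
def sq4 (x : ℤ) : ℤ := (max x 0 + 1) * (max x 0 + 1) / 4

/-- test for one class of poles -/
def poleOK (g0 l0 T0 T1 τ zl zh : ℤ) : Bool :=
  decide (τ + 10 * ((T1 - τ) / 10) < T0) &&
    (decide (τ + 10 * ((T1 - τ) / 10) ≤ l0) ||
      (decide ((T1 - τ) / 10 ≤ zh) && decide (τ + 10 * zl ≤ l0))) &&
    (decide (g0 ≤ τ + 10 * ((T1 - τ) / 10 + 1)) ||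
      (decide (zl ≤ (T1 - τ) / 10) && decide (g0 ≤ τ + 10 * (zh + 1))))

/-- cost of a cell from the index ranges `(l, h]` of the five progressions -/
def cellV (μ g0 l0 τ2 τ5 τ1 τ9 τ7 xl xh yl yh al ah bl bh cl ch : ℤ) : ℤ :=
  bif decide (max (xh - xl) 0 + max (yh - yl) 0 - (max (ah - al) 0 + max (bh - bl) 0 + max (ch - cl) 0)
      - μ ≤ 0) then 0
  else
    bif (decide (max (xh - xl) 0 + max (yh - yl) 0 ≤ 2) &&
      poleOK g0 l0 (min (bif decide (xl < xh) then τ2 + 10 * (xl + 1) else 1000)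
          (bif decide (yl < yh) then τ5 + 10 * (yl + 1) else 1000))
        (max (bif decide (xl < xh) then τ2 + 10 * xh else -1000)
          (bif decide (yl < yh) then τ5 + 10 * yh else -1000)) τ1 al ah &&
      poleOK g0 l0 (min (bif decide (xl < xh) then τ2 + 10 * (xl + 1) else 1000)
          (bif decide (yl < yh) then τ5 + 10 * (yl + 1) else 1000))
        (max (bif decide (xl < xh) then τ2 + 10 * xh else -1000)
          (bif decide (yl < yh) then τ5 + 10 * yh else -1000)) τ9 bl bh &&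
      poleOK g0 l0 (min (bif decide (xl < xh) then τ2 + 10 * (xl + 1) else 1000)
          (bif decide (yl < yh) then τ5 + 10 * (yl + 1) else 1000))
        (max (bif decide (xl < xh) then τ2 + 10 * xh else -1000)
          (bif decide (yl < yh) then τ5 + 10 * yh else -1000)) τ7 cl ch) then 0
    else sq4 (max (xh - xl) 0 + max (yh - yl) 0 -
      (max (ah - al) 0 + max (bh - bl) 0 + max (ch - cl) 0) - μ)

/-- cost of the cell between two lines -/
def cellF (v a b si μ : ℤ) (lo hi : ℤ × ℤ) : ℤ :=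
  cellV μ (geI v a b lo 0) (ltI v a b hi 0) (2 * si % 10) 5 si (9 * si % 10) (7 * si % 10)
    ((ltI v a b hi (-8) - 2 * si % 10) / 10) ((geI v a b lo 8 - 1 - 2 * si % 10) / 10)
    ((ltI v a b hi (-17) - 5) / 10) ((geI v a b lo 17 - 1 - 5) / 10)
    ((geI v a b lo (-2) - 1 - si) / 10) ((ltI v a b hi 2 - si) / 10)
    ((geI v a b lo (-5) - 1 - 9 * si % 10) / 10) ((ltI v a b hi 5 - 9 * si % 10) / 10)
    ((geI v a b lo (-5) - 1 - 7 * si % 10) / 10) ((ltI v a b hi 5 - 7 * si % 10) / 10)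

/-- order of two lines on the whole range of primes -/
def leL (v a b : ℤ) (l m : ℤ × ℤ) : Bool :=
  decide (10 * (l.1 - m.1) * v ≤ a * (l.2 - m.2)) && decide (10 * (l.1 - m.1) * v ≤ b * (l.2 - m.2))

/-- add the contribution of a cell -/
def addC (F : ℤ) (lo hi : ℤ × ℤ) (x : ℤ × ℤ × ℤ) : ℤ × ℤ × ℤ :=
  (F * (hi.1 - lo.1) + x.1, F * (lo.2 - hi.2) + x.2.1, F + x.2.2)

/-- coefficients of `n`, of `p / 10` and of `1` in the bound for the sum over all cells -/
def foldC (v a b si μ : ℤ) : ℤ × ℤ → List (ℤ × ℤ) → ℤ × ℤ × ℤ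
  | cur, [] => addC (cellF v a b si μ cur (0, -10)) cur (0, -10) (0, 0, 0)
  | cur, l :: ls =>
    bif leL v a b cur l && leL v a b l (0, -10) then
      addC (cellF v a b si μ cur l) cur l (foldC v a b si μ l ls)
    else foldC v a b si μ cur ls

/-- insertion by the level in the middle of the range -/
def insL (v m : ℤ) (l : ℤ × ℤ) : List (ℤ × ℤ) → List (ℤ × ℤ)
  | [] => [l]
  | k :: ks => bif decide (20 * (l.1 - k.1) * v ≤ m * (l.2 - k.2)) then l :: k :: ks
    else k :: insL v m l ks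

/-- the line of level `c` and class `τ` that crosses the range of `r` -/
def mkL (v m c τ : ℤ) : ℤ × ℤ := (c, 20 * c * v / m - (20 * c * v / m - τ) % 10)

/-- the sorted lines -/
def linesL (v m si : ℤ) : List (ℤ × ℤ) :=
  ([(8, 2 * si % 10), (-8, 2 * si % 10), (17, 5), (-17, 5), (2, si), (-2, si), (5, 9 * si % 10),
    (-5, 9 * si % 10), (5, 7 * si % 10), (-5, 7 * si % 10), (0, si), (0, 9 * si % 10),
    (0, 7 * si % 10)] : List (ℤ × ℤ)).foldr (fun x acc => insL v m (mkL v m x.1 x.2) acc) []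

/-- value of a range of primes in units of `n ^ 2 / (80 v ^ 2)` -/
def valI (v a b μ : ℤ) (x : ℤ × ℤ × ℤ) : ℤ :=
  20 * v * (x.1 + 10 * μ) * (b - a) + x.2.1 * (b * b - a * a)

/-- total value of a chain of ranges; an entry `k` stands for the step `k / 16`, `μ = k % 16` -/
def runI (v si : ℕ) : ℕ → List ℕ → ℤ
  | _, [] => 0
  | a, k :: ks =>
    valI v a (a + k / 16 : ℕ) (k % 16 : ℕ)
      (foldC v a (a + k / 16 : ℕ) si (k % 16 : ℕ) (0, 0) (linesL v (a + (a + k / 16 : ℕ)) si)) +
      runI v si (a + k / 16) ks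

/-- end of a chain -/
def endI : ℕ → List ℕ → ℕ
  | a, [] => a
  | a, k :: ks => endI (a + k / 16) ks

end Pool.Agent.B10
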