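import Pool.Agent.Lib.MP_5e2fbc_nt.B10.Defs
import Pool.Agent.Lib.MP_5e2fbc_nt.B10.CellDef

/-!
Base ten: soundness of the checker on one range of primes.
-/

set_option autoImplicit false

namespace Pool.Agent.B10

open Finset

lemma lin_nonneg {v a b n p x y : ℤ} (hv : 0 < v) (hn : 0 ≤ n) (ha : a * n ≤ v * p)
    (hb : v * p ≤ b * n) (h1 : 0 ≤ x * v + a * y) (h2 : 0 ≤ x * v + b * y) : 0 ≤ x * n + p * y := by
  refine nonneg_of_mul_nonneg_right (a := v) ?_ hv
  rcases le_total 0 y with hy | hy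
  · nlinarith [mul_nonneg hn h1, mul_le_mul_of_nonneg_right ha hy]
  · nlinarith [mul_nonneg hn h2, mul_le_mul_of_nonpos_right hb hy]

lemma div_aux {x a y : ℤ} (ha : 0 < a) (h : -(x / a) ≤ y) : 0 ≤ x + a * y := by
  have := Int.mul_ediv_self_le (x := x) ha.ne'
  nlinarith

section

variable {v a b n p r : ℤ}

lemma geI_spec (hv : 0 < v) (hn : 0 ≤ n) (h0 : 0 < a) (hab : a ≤ b) (ha : a * n ≤ v * p)
    (hb : v * p ≤ b * n) {lo : ℤ × ℤ} (hr : 10 * lo.1 * n - p * lo.2 ≤ 10 * r) (c T : ℤ)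
    (h : geI v a b lo c ≤ T) : 10 * c * n ≤ 10 * r + p * T := by
  rw [geI] at h
  have := lin_nonneg (x := 10 * (lo.1 - c)) (y := T - lo.2) hv hn ha hb
    (div_aux h0 (by omega)) (div_aux (h0.trans_le hab) (by omega))
  linarith

lemma ltI_spec (hv : 0 < v) (hn : 0 ≤ n) (h0 : 0 < a) (hab : a ≤ b) (ha : a * n ≤ v * p)
    (hb : v * p ≤ b * n) {hi : ℤ × ℤ} (hr : 10 * r < 10 * hi.1 * n - p * hi.2) (c T : ℤ)
    (h : T ≤ ltI v a b hi c) : 10 * r + p * T < 10 * c * n := by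
  rw [ltI] at h
  have := lin_nonneg (x := 10 * (c - hi.1)) (y := hi.2 - T) hv hn ha hb
    (div_aux h0 (by omega)) (div_aux (h0.trans_le hab) (by omega))
  linarith

lemma leL_spec (hv : 0 < v) (hn : 0 ≤ n) (ha : a * n ≤ v * p) (hb : v * p ≤ b * n)
    {l m : ℤ × ℤ} (h : leL v a b l m = true) :
    10 * l.1 * n - p * l.2 ≤ 10 * m.1 * n - p * m.2 := by
  simp only [leL, Bool.and_eq_true, decide_eq_true_eq] at h
  have := lin_nonneg (x := 10 * (m.1 - l.1)) (y := l.2 - m.2) hv hn ha hb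
    (by linarith [h.1]) (by linarith [h.2])
  linarith

end

lemma sum_le_sq4 (d : ℕ) : ∀ x : ℤ, ∑ i ∈ range d, max 0 ((x : ℝ) - 2 * i) ≤ (sq4 x : ℝ) := by
  induction d with
  | zero => intro x; simpa using (by rw [sq4]; positivity : 0 ≤ sq4 x)
  | succ d ih =>
    intro x
    have h := ih (x - 2)
    rw [sum_range_succ']
    simp only [Nat.cast_add, Nat.cast_one, Nat.cast_zero, mul_zero, sub_zero,
      show ∀ i : ℕ, (x : ℝ) - 2 * (i + 1) = ((x - 2 : ℤ) : ℝ) - 2 * i from fun i => by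
        push_cast; ring]
    refine (add_le_add_left h _).trans ?_
    have : sq4 (x - 2) + max 0 x ≤ sq4 x := by
      simp only [sq4]
      rcases le_total 2 x with h1 | h1
      · rw [max_eq_left (by omega : 0 ≤ x - 2), max_eq_left (by omega : 0 ≤ x),
          max_eq_right (by omega : 0 ≤ x),
          show (x + 1) * (x + 1) = (x - 2 + 1) * (x - 2 + 1) + 4 * x by ring]
        omega
      · rw [max_eq_right (by omega : x - 2 ≤ 0)]
        rcases le_total 1 x with h2 | h2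
        · interval_cases x <;> norm_num
        · rcases le_total 0 x with h3 | h3
          · interval_cases x <;> norm_num
          · rw [max_eq_right h3, max_eq_left h3]; norm_num
    exact_mod_cast this

lemma cls {p : ℕ} {si : ℤ} (hs : (p * si) % 10 = 1) (T e : ℤ) (he : 0 ≤ e ∧ e < 10) :
    (p * T) % 10 = e ↔ T % 10 = (e * si) % 10 := by
  constructor
  · intro h
    rw [← h, Int.mul_emod, Int.emod_emod, ← Int.mul_emod, mul_right_comm, Int.mul_emod, hs]
    simp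
  · intro h
    rw [Int.mul_emod, h, ← Int.mul_emod, mul_left_comm, Int.mul_emod, hs]
    omega

lemma disc_idx {p : ℕ} {si r e t : ℤ} (hs : (p * si) % 10 = 1) (he : 0 ≤ e ∧ e < 10)
    (ht : t % 10 = e) (hd : (p : ℤ) ∣ t - 10 * r) :
    ∃ j : ℤ, t = 10 * r + p * (e * si % 10 + 10 * j) := by
  obtain ⟨T, hT⟩ := hd
  have := (cls hs T e he).1 (by omega)
  exact ⟨T / 10, by rw [← this, Int.emod_add_mul_ediv]; omega⟩

section

variable {n p : ℕ} {si r : ℤ} {G L : ℤ → ℤ}

lemma idx_range (hG : ∀ c T, G c ≤ T → 10 * c * n ≤ 10 * r + p * T)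
    (hL : ∀ c T, T ≤ L c → 10 * r + p * T < 10 * c * n) {c τ j : ℤ}
    (h1 : -(10 * c * n) ≤ 10 * r + p * (τ + 10 * j)) (h2 : 10 * r + p * (τ + 10 * j) < 10 * c * n) :
    (L (-c) - τ) / 10 < j ∧ j ≤ (G c - 1 - τ) / 10 := by
  constructor
  · by_contra h
    have := hL (-c) (τ + 10 * j) (by omega)
    linarith
  · by_contra h
    have := hG c (τ + 10 * j) (by omega)
    linarith

lemma card_disc_le (hs : (p * si) % 10 = 1) (hG : ∀ c T, G c ≤ T → 10 * c * n ≤ 10 * r + p * T)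
    (hL : ∀ c T, T ≤ L c → 10 * r + p * T < 10 * c * n) {e : ℤ} (he : 0 ≤ e ∧ e < 10) (c : ℕ) :
    (#(disc (ap e (c * n)) p r) : ℤ) ≤
      max ((G c - 1 - e * si % 10) / 10 - (L (-c) - e * si % 10) / 10) 0 := by
  have : disc (ap e (c * n)) p r ⊆ (Ioc ((L (-c) - e * si % 10) / 10)
      ((G c - 1 - e * si % 10) / 10)).image fun j => 10 * r + p * (e * si % 10 + 10 * j) := by
    intro t ht
    rw [mem_disc, mem_ap] at ht
    obtain ⟨j, rfl⟩ := disc_idx hs he ht.1.2.2 ht.2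
    refine mem_image.2 ⟨j, mem_Ioc.2 (idx_range hG hL ?_ ?_), rfl⟩
    · have := ht.1.1; push_cast at this; linarith
    · have := ht.1.2.1; push_cast at this; linarith
  have h := (card_le_card this).trans card_image_le
  rw [Int.card_Ioc] at h
  omega

lemma mem_ap_idx (hs : (p * si) % 10 = 1) (hG : ∀ c T, G c ≤ T → 10 * c * n ≤ 10 * r + p * T)
    (hL : ∀ c T, T ≤ L c → 10 * r + p * T < 10 * c * n) {e : ℤ} (he : 0 ≤ e ∧ e < 10) (c : ℕ)
    {j : ℤ} (h1 : (G (-c) - 1 - e * si % 10) / 10 < j) (h2 : j ≤ (L c - e * si % 10) / 10) :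
    10 * r + p * (e * si % 10 + 10 * j) ∈ ap e (c * n) := by
  have h3 := hG (-c) (e * si % 10 + 10 * j) (by omega)
  have h4 := hL c (e * si % 10 + 10 * j) (by omega)
  have h5 := (cls hs (e * si % 10 + 10 * j) e he).2 (by omega)
  refine mem_ap.2 ⟨?_, ?_, by omega⟩ <;> push_cast <;> linarith

lemma le_card_disc (hs : (p * si) % 10 = 1) (hG : ∀ c T, G c ≤ T → 10 * c * n ≤ 10 * r + p * T)
    (hL : ∀ c T, T ≤ L c → 10 * r + p * T < 10 * c * n) {e : ℤ} (he : 0 ≤ e ∧ e < 10) (c : ℕ) :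
    max ((L c - e * si % 10) / 10 - (G (-c) - 1 - e * si % 10) / 10) 0 ≤
      (#(disc (ap e (c * n)) p r) : ℤ) := by
  have hp : (p : ℤ) ≠ 0 := by rintro h; simp [h] at hs
  have : ((Ioc ((G (-c) - 1 - e * si % 10) / 10) ((L c - e * si % 10) / 10)).image
      fun j => 10 * r + p * (e * si % 10 + 10 * j)) ⊆ disc (ap e (c * n)) p r := by
    intro t ht
    obtain ⟨j, hj, rfl⟩ := mem_image.1 ht
    exact mem_disc.2 ⟨mem_ap_idx hs hG hL he c (mem_Ioc.1 hj).1 (mem_Ioc.1 hj).2, by simp⟩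
  have h := card_le_card this
  rw [card_image_of_injective _ fun i j h => by
    have := mul_left_cancel₀ hp (add_left_cancel h); omega, Int.card_Ioc] at h
  omega

lemma pole_spec (hp : 0 < p) (hG : ∀ c T, G c ≤ T → 10 * c * n ≤ 10 * r + p * T)
    (hL : ∀ c T, T ≤ L c → 10 * r + p * T < 10 * c * n) {T0 T1 τ zl zh j : ℤ}
    (h : poleOK (G 0) (L 0) T0 T1 τ zl zh = true) (h0 : 10 * r + p * (τ + 10 * j) ≠ 0) :
    (∀ T, T0 ≤ T → T ≤ T1 → (10 * r + p * T < 10 * r + p * (τ + 10 * j) ↔ (T1 - τ) / 10 < j)) ∧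
      (¬ (zl < j ∧ j ≤ zh) → (0 < 10 * r + p * (τ + 10 * j) ↔ (T1 - τ) / 10 < j)) := by
  simp only [poleOK, Bool.and_eq_true, Bool.or_eq_true, decide_eq_true_eq] at h
  refine ⟨fun T h1 h2 => ?_, fun hz => ?_⟩
  · rw [add_lt_add_iff_left, Int.mul_lt_mul_left (by exact_mod_cast hp)]
    omega
  · constructor
    · intro h1
      by_contra h2
      have := hL 0 (τ + 10 * j) (by omega)
      linarith
    · intro h1
      have := hG 0 (τ + 10 * j) (by omega)
      omega

lemma sq4_mono {x y : ℤ} (h : x ≤ y) : sq4 x ≤ sq4 y := by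
  refine Int.ediv_le_ediv (by norm_num) ?_
  have : max x 0 ≤ max y 0 := max_le_max_right _ h
  nlinarith [le_max_right x 0]

lemma disc_union (s t : Finset ℤ) (p : ℕ) (r : ℤ) :
    disc (s ∪ t) p r = disc s p r ∪ disc t p r := filter_union _ _ _

lemma disc_disj {s t : Finset ℤ} (h : Disjoint s t) (p : ℕ) (r : ℤ) :
    Disjoint (disc s p r) (disc t p r) := disjoint_filter_filter h

open Classical in
lemma cell_spec (hs : (p * si) % 10 = 1) (hsi : 0 ≤ si ∧ si < 10)
    (hG : ∀ c T, G c ≤ T → 10 * c * n ≤ 10 * r + p * T)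
    (hL : ∀ c T, T ≤ L c → 10 * r + p * T < 10 * c * n) (μ : ℤ) (d : ℕ) :
    (if Good n p r then 0 else ∑ i ∈ range d, max 0 (gg n p r - (μ : ℝ) - 2 * i)) ≤
      (cellV μ (G 0) (L 0) (2 * si % 10) 5 si (9 * si % 10) (7 * si % 10)
        ((L (-8) - 2 * si % 10) / 10) ((G 8 - 1 - 2 * si % 10) / 10)
        ((L (-17) - 5) / 10) ((G 17 - 1 - 5) / 10) ((G (-2) - 1 - si) / 10) ((L 2 - si) / 10)
        ((G (-5) - 1 - 9 * si % 10) / 10) ((L 5 - 9 * si % 10) / 10)
        ((G (-5) - 1 - 7 * si % 10) / 10) ((L 5 - 7 * si % 10) / 10) : ℝ) := by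
  have hp : 0 < p := Nat.pos_of_ne_zero (by rintro rfl; simp at hs)
  have ho : si % 2 = 1 := by
    have : (p * si) % 2 = 1 := by omega
    rw [Int.mul_emod] at this
    rcases Int.emod_two_eq_zero_or_one si with h | h
    · simp [h] at this
    · exact h
  have e5 : 5 * si % 10 = 5 := by omega
  have e1 : 1 * si % 10 = si := by omega
  have c2 := card_disc_le hs hG hL (e := 2) (by norm_num) 8
  have c5 := card_disc_le hs hG hL (e := 5) (by norm_num) 17
  have c1 := le_card_disc hs hG hL (e := 1) (by norm_num) 2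
  have c9 := le_card_disc hs hG hL (e := 9) (by norm_num) 5
  have c7 := le_card_disc hs hG hL (e := 7) (by norm_num) 5
  have m1 := fun j => mem_ap_idx hs hG hL (e := 1) (by norm_num) 2 (j := j)
  have m9 := fun j => mem_ap_idx hs hG hL (e := 9) (by norm_num) 5 (j := j)
  have m7 := fun j => mem_ap_idx hs hG hL (e := 7) (by norm_num) 5 (j := j)
  simp only [e5, e1, Nat.cast_ofNat] at c2 c5 c1 c9 c7 m1 m9 m7
  have hn : ∀ t ∈ disc (nodes n) p r, ∃ T, t = 10 * r + p * T ∧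
      ((∃ j, T = 2 * si % 10 + 10 * j ∧ (L (-8) - 2 * si % 10) / 10 < j ∧
        j ≤ (G 8 - 1 - 2 * si % 10) / 10) ∨
      (∃ j, T = 5 + 10 * j ∧ (L (-17) - 5) / 10 < j ∧ j ≤ (G 17 - 1 - 5) / 10)) := by
    intro t ht
    rw [mem_disc, mem_nodes] at ht
    rcases ht.1 with h | h
    · obtain ⟨j, rfl⟩ := disc_idx hs (by norm_num) h.2.2 ht.2
      exact ⟨_, rfl, Or.inl ⟨j, rfl, idx_range hG hL (by linarith [h.1]) (by linarith [h.2.1])⟩⟩
    · obtain ⟨j, rfl⟩ := disc_idx hs (by norm_num) h.2.2 ht.2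
      rw [e5] at h ⊢
      exact ⟨_, rfl, Or.inr ⟨j, rfl, idx_range hG hL (by linarith [h.1]) (by linarith [h.2.1])⟩⟩
  generalize (L (-8) - 2 * si % 10) / 10 = xl at *
  generalize (G 8 - 1 - 2 * si % 10) / 10 = xh at *
  generalize (L (-17) - 5) / 10 = yl at *
  generalize (G 17 - 1 - 5) / 10 = yh at *
  generalize (G (-2) - 1 - si) / 10 = al at *
  generalize (L 2 - si) / 10 = ah at *
  generalize (G (-5) - 1 - 9 * si % 10) / 10 = bl at *
  generalize (L 5 - 9 * si % 10) / 10 = bh at *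
  generalize (G (-5) - 1 - 7 * si % 10) / 10 = cl at *
  generalize (L 5 - 7 * si % 10) / 10 = ch at *
  have hg : gg n p r ≤ max (xh - xl) 0 + max (yh - yl) 0 -
      (max (ah - al) 0 + max (bh - bl) 0 + max (ch - cl) 0) := by
    rw [gg, nodes, zeros, disc_union, disc_union,
      card_union_of_disjoint (disc_disj (zeros_disj n) _ _), disc_union,
      card_union_of_disjoint (disc_disj (ap_disj (by norm_num) _ _) _ _),
      card_union_of_disjoint (disc_disj (ap_disj (by norm_num) _ _) _ _)]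
    push_cast; omega
  have hq : ∀ x : ℤ, gg n p r - μ ≤ x →
      (if Good n p r then 0 else ∑ i ∈ range d, max 0 (gg n p r - (μ : ℝ) - 2 * i)) ≤
        (sq4 x : ℝ) := fun x hx => by
    split_ifs
    · exact_mod_cast (by rw [sq4]; positivity : 0 ≤ sq4 x)
    · have := sum_le_sq4 d (gg n p r - μ)
      push_cast at this
      exact this.trans (by exact_mod_cast sq4_mono hx)
  rw [cellV]
  generalize hT0 : min (bif decide (xl < xh) then 2 * si % 10 + 10 * (xl + 1) else 1000)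
    (bif decide (yl < yh) then 5 + 10 * (yl + 1) else 1000) = T0
  generalize hT1 : max (bif decide (xl < xh) then 2 * si % 10 + 10 * xh else -1000)
    (bif decide (yl < yh) then 5 + 10 * yh else -1000) = T1
  simp only [Bool.cond_eq_ite, decide_eq_true_eq, Bool.and_eq_true] at hT0 hT1 ⊢
  have hT : ∀ t ∈ disc (nodes n) p r, ∃ T, t = 10 * r + p * T ∧ T0 ≤ T ∧ T ≤ T1 := by
    intro t ht
    obtain ⟨T, rfl, h⟩ := hn t ht
    refine ⟨T, rfl, ?_⟩
    rcases h with ⟨j, rfl, h1, h2⟩ | ⟨j, rfl, h1, h2⟩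
    · rw [if_pos (by omega : xl < xh)] at hT0 hT1; omega
    · rw [if_pos (by omega : yl < yh)] at hT0 hT1; omega
  split_ifs with h1 h2 h3 h4 h5
  · simp
  · simp
  · exact_mod_cast (by rw [sq4]; positivity : 0 ≤ sq4 _)
  · simpa [h1, sq4] using hq 0 (by omega)
  · refine absurd (fun t ht y hy hu => ?_) h1
    obtain ⟨T, rfl, h6, h7⟩ := hT t ht
    have key : ∀ e τ zl zh : ℤ, 0 < e ∧ e < 10 → y % 10 = e → τ = e * si % 10 →
        poleOK (G 0) (L 0) T0 T1 τ zl zh = true →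
        (∀ j, zl < j → j ≤ zh → 10 * r + p * (τ + 10 * j) ∈ zeros n) →
        (y ∉ zeros n → (10 * r + p * T < y ↔ 0 < y)) ∧
          ∀ s ∈ disc (nodes n) p r, (10 * r + p * T < y ↔ s < y) := by
      intro e τ zl zh he hy' hτ hok hz
      obtain ⟨j, rfl⟩ := disc_idx hs ⟨he.1.le, he.2⟩ hy' (mem_disc.1 hy).2
      rw [← hτ] at hy' ⊢
      have := pole_spec hp hG hL hok (j := j) (by omega)
      refine ⟨fun h => ?_, fun s hs' => ?_⟩
      · rw [this.1 T h6 h7, this.2 fun h' => h (hz j h'.1 h'.2)]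
      · obtain ⟨S, rfl, h8, h9⟩ := hT s hs'
        rw [this.1 T h6 h7, this.1 S h8 h9]
    rw [uu] at hu
    split_ifs at hu with u1 u9 u7
    · exact key 1 si al ah (by norm_num) u1 e1.symm h5.1.1.2 fun j a b =>
        mem_union_left _ (mem_union_left _ (m1 j a b))
    · exact key 9 _ bl bh (by norm_num) u9 rfl h5.1.2 fun j a b =>
        mem_union_left _ (mem_union_right _ (m9 j a b))
    · exact key 7 _ cl ch (by norm_num) u7 rfl h5.2 fun j a b => mem_union_right _ (m7 j a b)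
    · exact absurd rfl hu
  · simpa [h1] using hq _ (by omega)

end

end Pool.Agent.B10
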