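import Pool.Agent.Shared.NonWief.Final

/-!
Base ten: the Hankel determinant, its discs and the local cost.
-/

set_option autoImplicit false

namespace Pool.Agent.B10

open Finset Polynomial

noncomputable section

/-- integers `t ≡ a (mod 10)` with `-10 L ≤ t < 10 L` -/
def ap (a : ℤ) (L : ℕ) : Finset ℤ := {t ∈ Ico (-(10 * L : ℤ)) (10 * L) | t % 10 = a}

/-- the nodes -/
def nodes (n : ℕ) : Finset ℤ := ap 2 (8 * n) ∪ ap 5 (17 * n)

/-- the zeros of the numerator -/
def zeros (n : ℕ) : Finset ℤ := ap 1 (2 * n) ∪ ap 9 (5 * n) ∪ ap 7 (5 * n)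

/-- residues at the poles -/
def uu (y : ℤ) : ℤ :=
  if y % 10 = 1 then -3 else if y % 10 = 9 then -10 else if y % 10 = 7 then 8 else 0

/-- indicator of `x < y` -/
def ind (x y : ℤ) : ℤ := if x < y then 1 else 0

/-- the range of the poles -/
def rng (n : ℕ) : Finset ℤ := Ico (-(170 * n : ℤ)) (170 * n)

/-- the combination of harmonic sums -/
def Phi (K : Type*) [Field K] (n : ℕ) (t : ℤ) : K :=
  ∑ y ∈ rng n, ((uu y * (ind 0 y - ind t y) : ℤ) : K) / ((t - y : ℤ) : K)

/-- the weight `W(t) / Q'(t)` -/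
def wt (K : Type*) [Field K] (n : ℕ) (t : ℤ) : K :=
  (∏ y ∈ zeros n, ((t - y : ℤ) : K)) / ∏ s ∈ (nodes n).erase t, ((t - s : ℤ) : K)

/-- the linear functional -/
def Lf (K : Type*) [Field K] (n : ℕ) (P : K[X]) : K :=
  ∑ t ∈ nodes n, Phi K n t * wt K n t * P.eval (t : K)

/-- the Hankel determinant -/
def hank (K : Type*) [Field K] (n d : ℕ) : K :=
  (Matrix.of fun i j : Fin d => Lf K n (X ^ ((i : ℕ) + j))).det

/-- members of `s` congruent to `10 r` modulo `p` -/
def disc (s : Finset ℤ) (p : ℕ) (r : ℤ) : Finset ℤ := {t ∈ s | (p : ℤ) ∣ t - 10 * r}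

/-- all nodes of the disc lie between the same poles of the disc, and only zeros of the numerator
separate them from the origin -/
def Good (n p : ℕ) (r : ℤ) : Prop :=
  ∀ t ∈ disc (nodes n) p r, ∀ y ∈ disc (rng n) p r, uu y ≠ 0 →
    (y ∉ zeros n → (t < y ↔ 0 < y)) ∧ ∀ s ∈ disc (nodes n) p r, (t < y ↔ s < y)

/-- nodes minus zeros in a disc -/
def gg (n p : ℕ) (r : ℤ) : ℤ := (#(disc (nodes n) p r) : ℤ) - #(disc (zeros n) p r)

open Classical in
/-- exponent of `p` in the bound for the `p`-adic norm of the determinant -/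
def cst (n d p : ℕ) (μ : ℝ) : ℝ :=
  μ * d + ∑ r ∈ range p, if Good n p r then 0 else ∑ i ∈ range d, max 0 (gg n p r - μ - 2 * i)

lemma mem_ap {a t : ℤ} {L : ℕ} : t ∈ ap a L ↔ -(10 * L : ℤ) ≤ t ∧ t < 10 * L ∧ t % 10 = a := by
  simp [ap, and_assoc]

lemma mem_nodes {t : ℤ} {n : ℕ} : t ∈ nodes n ↔
    (-(80 * n : ℤ) ≤ t ∧ t < 80 * n ∧ t % 10 = 2) ∨
      (-(170 * n : ℤ) ≤ t ∧ t < 170 * n ∧ t % 10 = 5) := by
  simp only [nodes, mem_union, mem_ap]; push_cast; omega

lemma mem_zeros {t : ℤ} {n : ℕ} : t ∈ zeros n ↔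
    (-(20 * n : ℤ) ≤ t ∧ t < 20 * n ∧ t % 10 = 1) ∨ (-(50 * n : ℤ) ≤ t ∧ t < 50 * n ∧ t % 10 = 9) ∨
      (-(50 * n : ℤ) ≤ t ∧ t < 50 * n ∧ t % 10 = 7) := by
  simp only [zeros, mem_union, mem_ap]; push_cast; omega

lemma mem_rng {t : ℤ} {n : ℕ} : t ∈ rng n ↔ -(170 * n : ℤ) ≤ t ∧ t < 170 * n := by
  simp [rng]

lemma mem_disc {s : Finset ℤ} {p : ℕ} {r t : ℤ} :
    t ∈ disc s p r ↔ t ∈ s ∧ (p : ℤ) ∣ t - 10 * r := by
  simp [disc]

lemma ap_eq_image {a : ℤ} (h0 : 0 ≤ a) (h1 : a < 10) (L : ℕ) :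
    ap a L = (Ico (-(L : ℤ)) L).image fun j => a + 10 * j := by
  ext t
  simp only [mem_ap, mem_image, mem_Ico]
  exact ⟨fun h => ⟨t / 10, by omega, by omega⟩, fun ⟨j, hj, h⟩ => by omega⟩

lemma card_ap {a : ℤ} (h0 : 0 ≤ a) (h1 : a < 10) (L : ℕ) : #(ap a L) = 2 * L := by
  rw [ap_eq_image h0 h1, card_image_of_injective _ fun i j h => by simpa using h]
  simp; omega

lemma ap_disj {a b : ℤ} (h : a ≠ b) (L M : ℕ) : Disjoint (ap a L) (ap b M) :=
  disjoint_left.2 fun _ h1 h2 => h ((mem_ap.1 h1).2.2.symm.trans (mem_ap.1 h2).2.2)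

lemma zeros_disj (n : ℕ) : Disjoint (ap 1 (2 * n) ∪ ap 9 (5 * n)) (ap 7 (5 * n)) :=
  disjoint_union_left.2 ⟨ap_disj (by norm_num) _ _, ap_disj (by norm_num) _ _⟩

lemma card_nodes (n : ℕ) : #(nodes n) = 50 * n := by
  rw [nodes, card_union_of_disjoint (ap_disj (by norm_num) _ _), card_ap, card_ap] <;> omega

lemma card_zeros (n : ℕ) : #(zeros n) = 24 * n := by
  rw [zeros, card_union_of_disjoint (zeros_disj n),
    card_union_of_disjoint (ap_disj (by norm_num) _ _), card_ap, card_ap, card_ap] <;> omega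

lemma hank_cast (K : Type*) [Field K] [CharZero K] (n d : ℕ) :
    ((hank ℚ n d : ℚ) : K) = hank K n d := by
  rw [hank, hank, ← Rat.coe_castHom, RingHom.map_det]
  congr 1
  ext i j
  simp [Lf, Phi, wt]

variable {K : Type*} [Field K]

/-- change of basis: the Gram determinant of `d` polynomials of degree less than `d` -/
lemma gram_eq (n d : ℕ) (B : Fin d → K[X]) (hB : ∀ i, (B i).natDegree < d) :
    (Matrix.of fun i j => Lf K n (B i * B j)).det =
      (Matrix.of fun i j : Fin d => (B i).coeff j).det ^ 2 * hank K n d := by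
  set C := Matrix.of fun i j : Fin d => (B i).coeff j with hC
  have : (Matrix.of fun i j => Lf K n (B i * B j)) =
      C * (Matrix.of fun i j : Fin d => Lf K n (X ^ ((i : ℕ) + j))) * C.transpose := by
    ext i j
    simp only [Matrix.mul_apply, Matrix.of_apply, Matrix.transpose_apply, hC, Lf, eval_mul,
      eval_pow, eval_X, sum_mul, mul_sum]
    simp only [eval_eq_sum_range' (hB i), eval_eq_sum_range' (hB j), sum_range, sum_mul, mul_sum]
    conv_lhs => rw [sum_comm]
    refine sum_congr rfl fun l _ => ?_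
    rw [sum_comm]
    exact sum_congr rfl fun k _ => sum_congr rfl fun t _ => by ring
  rw [this, Matrix.det_mul, Matrix.det_mul, Matrix.det_transpose, hank]; ring

variable [CharZero K]

/-- the divided difference over all nodes kills polynomials of small degree -/
lemma sum_eval_div (s : Finset ℤ) (P : K[X]) (hP : P.natDegree + 2 ≤ #s) :
    ∑ t ∈ s, P.eval (t : K) / ∏ y ∈ s.erase t, ((t - y : ℤ) : K) = 0 := by
  have h := Lagrange.coeff_eq_sum (s := s) (v := fun t : ℤ => (t : K)) (P := P)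
    (Int.cast_injective.injOn) (degree_le_natDegree.trans_lt (by exact_mod_cast (by omega)))
  rw [coeff_eq_zero_of_natDegree_lt (by omega)] at h
  simpa using h.symm

/-- the functional does not change when constants and poles at zeros of the numerator are added -/
lemma Lf_eq (n : ℕ) (P : K[X]) (hP : P.natDegree + 2 ≤ 26 * n) (c : K) (e : ℤ → K) :
    Lf K n P = ∑ t ∈ nodes n,
      (Phi K n t + c + ∑ y ∈ zeros n, e y / ((t - y : ℤ) : K)) * wt K n t * P.eval (t : K) := by
  have hdeg : ∀ s : Finset ℤ, s ⊆ zeros n →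
      ((∏ y ∈ s, (X - C (y : K))) * P).natDegree + 2 ≤ #(nodes n) := fun s hs => by
    have h1 := natDegree_mul_le (p := ∏ y ∈ s, (X - C (y : K))) (q := P)
    rw [natDegree_finsetProd_X_sub_C_eq_card] at h1
    have := card_le_card hs
    rw [card_zeros] at this
    rw [card_nodes]; omega
  have h1 : ∑ t ∈ nodes n, c * wt K n t * P.eval (t : K) = 0 := by
    rw [← mul_zero c, ← sum_eval_div _ _ (hdeg _ subset_rfl), mul_sum]
    refine sum_congr rfl fun t _ => ?_
    simp only [wt, eval_mul, eval_prod, eval_sub, eval_X, eval_C, Int.cast_sub]; ring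
  have h2 : ∀ y ∈ zeros n,
      ∑ t ∈ nodes n, e y / ((t - y : ℤ) : K) * wt K n t * P.eval (t : K) = 0 := fun y hy => by
    rw [← mul_zero (e y), ← sum_eval_div _ _ (hdeg _ (erase_subset y _)), mul_sum]
    refine sum_congr rfl fun t ht => ?_
    have h3 : ((t - y : ℤ) : K) ≠ 0 := Int.cast_ne_zero.2 (by
      rw [mem_nodes] at ht; rw [mem_zeros] at hy; omega)
    rw [wt, ← mul_prod_erase _ _ hy]
    simp only [eval_mul, eval_prod, eval_sub, eval_X, eval_C, ← Int.cast_sub]
    field_simp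
  simp only [add_mul, sum_add_distrib, h1, add_zero, sum_mul]
  rw [sum_comm, sum_eq_zero h2, add_zero, Lf]

end

end Pool.Agent.B10
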