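import Pool.Agent.Lib.MP_5e2fbc_nt.B10.Defs

/-!
Base ten: the ultrametric determinant bound with potentials.
-/

set_option autoImplicit false

namespace Pool.Agent.B10

open Finset Polynomial Pool.Agent.NW

noncomputable section

variable {p : ℕ} [hp : Fact p.Prime]

lemma det_rows_zero {K ι κ : Type*} [Field K] [Fintype ι] [DecidableEq ι] (V : κ → ι → K)
    {f : ι → κ} (hf : ¬ Function.Injective f) : (Matrix.of fun i j => V (f i) j).det = 0 := by
  obtain ⟨i, j, h1, h2⟩ := Function.not_injective_iff.1 hf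
  exact Matrix.det_zero_of_row_eq h2 (by ext k; simp [h1])

lemma pot {ι κ : Type*} [Fintype ι] [DecidableEq ι] [Fintype κ] (Λ : κ → ι → ℚ_[p])
    (M : κ → κ → ℚ_[p]) (e : κ → ℝ) (μ : ℝ) (hΛ : ∀ a i, ‖Λ a i‖ ≤ 1)
    (hM : ∀ a b, ‖M a b‖ ≤ (p:ℝ) ^ ((e a + e b) / 2)) :
    ‖(Matrix.of fun i j => ∑ a, Λ a i * ∑ b, M a b * Λ b j).det‖ ≤
      (p:ℝ) ^ (μ * Fintype.card ι + ∑ a, max 0 (e a - μ)) := by
  classical
  have hp1 := one_le_p (p := p)
  have hB : ∀ f : ι → κ, Function.Injective f →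
      ∑ i, e (f i) ≤ μ * Fintype.card ι + ∑ a, max 0 (e a - μ) := fun f hf => by
    have h1 : ∑ i, max 0 (e (f i) - μ) ≤ ∑ a, max 0 (e a - μ) := by
      rw [← sum_image (s := univ) (g := f) (f := fun a => max 0 (e a - μ)) hf.injOn]
      exact sum_le_sum_of_subset_of_nonneg (subset_univ _) fun _ _ _ => le_max_left _ _
    have h2 : ∑ i, e (f i) ≤ ∑ i, (μ + max 0 (e (f i) - μ)) :=
      sum_le_sum fun i _ => by linarith [le_max_right 0 (e (f i) - μ)]
    rw [sum_add_distrib, sum_const, card_univ, nsmul_eq_mul] at h2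
    linarith
  rw [det_sum_expand]
  refine IsUltrametricDist.norm_sum_le_of_forall_le_of_nonneg (by positivity) fun f _ => ?_
  by_cases hf : Function.Injective f
  swap
  · rw [det_rows_zero (fun a j => ∑ b, M a b * Λ b j) hf, mul_zero, norm_zero]; positivity
  rw [norm_mul, norm_prod, det_sum_expand]
  refine (mul_le_of_le_one_left (norm_nonneg _)
    (prod_le_one (fun _ _ => norm_nonneg _) fun _ _ => hΛ _ _)).trans ?_
  refine IsUltrametricDist.norm_sum_le_of_forall_le_of_nonneg (by positivity) fun g _ => ?_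
  by_cases hg : Function.Injective g
  swap
  · rw [det_rows_zero Λ hg, mul_zero, norm_zero]; positivity
  have h1 := norm_det_le (Matrix.of fun i j => Λ (g i) j) (fun _ => 1) (fun _ => 1)
    (fun _ => zero_le_one) (fun _ => zero_le_one) fun i j => by simpa using hΛ _ _
  simp only [prod_const_one, mul_one] at h1
  rw [norm_mul, norm_prod]
  refine (mul_le_of_le_one_right (prod_nonneg fun _ _ => norm_nonneg _) h1).trans ?_
  refine (prod_le_prod (fun _ _ => norm_nonneg _) fun i _ => hM (f i) (g i)).trans ?_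
  rw [← Real.rpow_sum_of_pos (by linarith)]
  refine Real.rpow_le_rpow_of_exponent_le hp1 ?_
  rw [← sum_div, sum_add_distrib]
  linarith [hB f hf, hB g hg]

/-- Newton polynomials at the integers `c l` -/
def nw (c : ℕ → ℤ) (i : ℕ) (t : ℤ) : ℤ := ∏ l ∈ range i, (t - c l)

lemma exists_newton (c : ℕ → ℤ) (d : ℕ) : ∀ P : ℤ[X], P.degree < d →
    ∃ lam : ℕ → ℤ, ∀ t, P.eval t = ∑ i ∈ range d, lam i * nw c i t := by
  induction d with
  | zero =>
    intro P hP
    exact ⟨0, fun t => by rw [degree_eq_bot.1 (Nat.WithBot.lt_zero_iff.1 hP)]; simp⟩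
  | succ d ih =>
    intro P hP
    set N : ℤ[X] := ∏ l ∈ range d, (X - C (c l)) with hN
    have hm : N.Monic := monic_prod_of_monic _ _ fun _ _ => monic_X_sub_C _
    have hd : N.natDegree = d := by rw [hN, natDegree_finsetProd_X_sub_C_eq_card, card_range]
    obtain ⟨lam, h⟩ := ih (P - C (P.coeff d) * N) (by
      rw [degree_lt_iff_coeff_zero] at hP ⊢
      intro m hm'
      rw [coeff_sub, coeff_C_mul]
      rcases hm'.eq_or_lt with rfl | h1
      · rw [show N.coeff d = 1 from hd ▸ hm.coeff_natDegree]; ring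
      · rw [hP m h1, coeff_eq_zero_of_natDegree_lt (p := N) (by omega)]; ring)
    refine ⟨Function.update lam d (P.coeff d), fun t => ?_⟩
    have h1 := h t
    rw [eval_sub, eval_mul, eval_C, hN, eval_prod] at h1
    simp only [eval_sub, eval_X, eval_C] at h1
    rw [sum_range_succ, Function.update_self, sum_congr rfl fun i hi => by
      rw [Function.update_of_ne (mem_range.1 hi).ne], ← h1, nw]
    ring

/-- the bound for a form that is a sum of blocks, each written in its own Newton basis -/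
lemma gen {β : Type*} [Fintype β] (d : ℕ) (s : β → Finset ℤ) (w : ℤ → ℚ_[p]) (c : β → ℕ → ℤ)
    (e : β → ℕ → ℝ) (μ : ℝ)
    (h : ∀ b, ∀ i < d, ∀ j < d, ‖∑ t ∈ s b, w t * ((nw (c b) i t * nw (c b) j t : ℤ) : ℚ_[p])‖ ≤
      (p:ℝ) ^ ((e b i + e b j) / 2)) :
    ‖(Matrix.of fun i j : Fin d => ∑ b, ∑ t ∈ s b, w t * (t : ℚ_[p]) ^ ((i:ℕ) + j)).det‖ ≤
      (p:ℝ) ^ (μ * d + ∑ b, ∑ i ∈ range d, max 0 (e b i - μ)) := by
  classical
  choose lam hl using fun (b : β) (i : Fin d) => exists_newton (c b) d (X ^ (i:ℕ))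
    (by rw [degree_X_pow]; exact_mod_cast i.2)
  have h1 := pot (ι := Fin d) (κ := β × Fin d) (fun a i => (lam a.1 i a.2 : ℚ_[p]))
    (fun a b => if a.1 = b.1 then
      ∑ t ∈ s a.1, w t * ((nw (c a.1) a.2 t * nw (c a.1) b.2 t : ℤ) : ℚ_[p]) else 0)
    (fun a => e a.1 a.2) μ (fun _ _ => Padic.norm_int_le_one _) fun a b => by
      split_ifs with hab
      · exact hab ▸ h _ _ a.2.2 _ b.2.2
      · rw [norm_zero]; positivity
  simp only [Fintype.card_fin, Fintype.sum_prod_type] at h1
  simp only [sum_range]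
  convert h1 using 3
  ext i j
  simp only [Matrix.of_apply]
  refine sum_congr rfl fun b _ => ?_
  have h2 : ∀ (k : Fin d) (t : ℤ), (t : ℚ_[p]) ^ (k:ℕ) =
      ∑ l : Fin d, (lam b k l : ℚ_[p]) * nw (c b) l t := fun k t => by
    have := hl b k t
    rw [eval_pow, eval_X, sum_range] at this
    exact_mod_cast this
  simp only [ite_mul, zero_mul, sum_ite_irrel, sum_const_zero, sum_ite_eq, mem_univ, if_true,
    pow_add, h2, sum_mul, mul_sum, Int.cast_mul]
  conv_lhs => rw [sum_comm]; enter [2, k]; rw [sum_comm]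
  rw [sum_comm]
  exact sum_congr rfl fun k _ => sum_congr rfl fun l _ => sum_congr rfl fun t _ => by ring

lemma sum_two_step (M : ℕ) : ∀ x : ℝ, ∑ i ∈ range M, max 0 (x - 2 * i) ≤ (max 0 (x + 1)) ^ 2 / 4 := by
  induction M with
  | zero => intro x; simp; positivity
  | succ M ih =>
    intro x
    have h := ih (x - 2)
    rw [sum_range_succ']
    simp only [Nat.cast_add, Nat.cast_one, Nat.cast_zero, mul_zero, sub_zero,
      show ∀ i : ℕ, x - 2 * (i + 1) = x - 2 - 2 * i from fun i => by ring]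
    refine (add_le_add_left h _).trans ?_
    rcases le_total 1 x with h1 | h1
    · rw [max_eq_right (by linarith), max_eq_right (by linarith), max_eq_right (by linarith)]
      nlinarith
    · rw [max_eq_left (by linarith : x - 2 + 1 ≤ 0)]
      rcases le_total 0 x with h2 | h2
      · rw [max_eq_right h2, max_eq_right (by linarith)]; nlinarith [sq_nonneg (x - 1)]
      · rw [max_eq_left h2]; norm_num; positivity

end

end Pool.Agent.B10
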