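import Pool.Agent.Lib.MP_5e2fbc_nt.B10.Key
import Pool.Agent.Lib.MP_5e2fbc_nt.B10.Pot

/-!
Base ten: the local bounds at a prime `p` with `340 n < p ^ 2`.
-/

set_option autoImplicit false
set_option linter.unusedSectionVars false

namespace Pool.Agent.B10

open Finset Polynomial Pool.Agent.NW

noncomputable section

open Classical in
/-- the side of the pole `y` on which the origin is put -/
def th (n p : ℕ) (y : ℤ) : ℤ :=
  if y ∈ zeros n then (if ∃ s ∈ nodes n, (p:ℤ) ∣ s - y ∧ s < y then 1 else 0) else ind 0 y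

/-- residues of the correction -/
def ee (n p : ℕ) (y : ℤ) : ℤ := uu y * (th n p y - ind 0 y)

/-- the function modified for the prime `p` -/
def PhiM (K : Type*) [Field K] (n p : ℕ) (t : ℤ) : K :=
  Phi K n t + 0 + ∑ y ∈ zeros n, (ee n p y : K) / ((t - y : ℤ) : K)

lemma zeros_subset (n : ℕ) : zeros n ⊆ rng n := fun y hy => by
  rw [mem_zeros] at hy; rw [mem_rng]; omega

lemma nodes_subset (n : ℕ) : nodes n ⊆ rng n := fun y hy => by
  rw [mem_nodes] at hy; rw [mem_rng]; omega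

lemma uu_of_node {n : ℕ} {t : ℤ} (ht : t ∈ nodes n) : uu t = 0 := by
  rw [mem_nodes] at ht
  rw [uu, if_neg, if_neg, if_neg] <;> omega

lemma uu_zero {n : ℕ} {t : ℤ} (ht : t ∈ zeros n) : uu t ≠ 0 := by
  rw [mem_zeros] at ht
  rw [uu]
  split_ifs <;> omega

lemma PhiM_eq (K : Type*) [Field K] (n p : ℕ) (t : ℤ) : PhiM K n p t =
    ∑ y ∈ rng n, ((uu y * (th n p y - ind t y) : ℤ) : K) / ((t - y : ℤ) : K) := by
  rw [PhiM, add_zero, Phi, sum_subset (zeros_subset n) fun y _ hy => by simp [ee, th, hy],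
    ← sum_add_distrib]
  refine sum_congr rfl fun y _ => ?_
  rw [ee]; push_cast; ring

variable {p : ℕ} [hp : Fact p.Prime] {n : ℕ} {r : ℤ}

lemma coprime_ten (h10 : ¬ p ∣ 10) : IsCoprime (p:ℤ) 10 := by
  simpa using Nat.isCoprime_iff_coprime.2 ((Nat.Prime.coprime_iff_not_dvd hp.out).2 h10)

/-- a sum over a set of integers is the sum over its discs -/
lemma sum_disc {M : Type*} [AddCommMonoid M] (h10 : ¬ p ∣ 10) (s : Finset ℤ) (f : ℤ → M) :
    ∑ t ∈ s, f t = ∑ r ∈ range p, ∑ t ∈ disc s p r, f t := by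
  obtain ⟨a, b, hab⟩ := coprime_ten h10
  have hp0 : (0:ℤ) < p := by exact_mod_cast hp.out.pos
  rw [← sum_fiberwise_of_maps_to (t := range p) (g := fun t => (b * t % p).toNat) fun t _ => by
    have := Int.emod_lt_of_pos (b * t) hp0
    have := Int.emod_nonneg (b * t) hp0.ne'
    rw [mem_range]; omega]
  refine sum_congr rfl fun r hr => sum_congr (filter_congr fun t _ => ?_) fun _ _ => rfl
  rw [mem_range] at hr
  have h1 := Int.emod_nonneg (b * t) hp0.ne'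
  constructor
  · intro h
    have h2 : (r:ℤ) = b * t % p := by omega
    refine ⟨a * t + 10 * (b * t / p), ?_⟩
    rw [h2, Int.emod_def]
    linear_combination -t * hab
  · rintro ⟨k, hk⟩
    have : b * t = r + p * (b * k - a * r) := by linear_combination b * hk + r * hab
    rw [this, Int.add_mul_emod_self_left, Int.emod_eq_of_lt (by omega) (by omega)]
    simp

lemma Lf_split (K : Type*) [Field K] [CharZero K] (h10 : ¬ p ∣ 10) (P : K[X])
    (hP : P.natDegree + 2 ≤ 26 * n) : Lf K n P = ∑ r ∈ range p, ∑ t ∈ disc (nodes n) p r,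
      PhiM K n p t * wt K n t * P.eval (t : K) := by
  rw [Lf_eq n P hP 0 fun y => (ee n p y : K), sum_disc h10]; rfl

lemma norm_inv_int (z : ℤ) : ‖(z : ℚ_[p])⁻¹‖ = ‖(z.natAbs : ℚ_[p])⁻¹‖ := by
  obtain ⟨m, rfl | rfl⟩ := Int.eq_nat_or_neg z <;> simp

lemma norm_inv_unit {z : ℤ} (h : ¬ (p:ℤ) ∣ z) : ‖(z : ℚ_[p])⁻¹‖ = 1 := by
  rw [norm_inv_int, norm_inv_nat_of_not_dvd (by rwa [← Int.natCast_dvd])]

lemma norm_inv_ite {z : ℤ} (hz : z.natAbs < p ^ 2) :
    ‖(z : ℚ_[p])⁻¹‖ ≤ if (p:ℤ) ∣ z then (p:ℝ) else 1 := by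
  split_ifs with h
  · rw [norm_inv_int]; exact (norm_inv_nat_le le_rfl).trans (pow_log_le hz)
  · exact (norm_inv_unit h).le

lemma norm_int_ite (z : ℤ) : ‖(z : ℚ_[p])‖ ≤ if (p:ℤ) ∣ z then (p:ℝ)⁻¹ else 1 := by
  split_ifs with h
  · exact norm_of_dvd h
  · exact Padic.norm_int_le_one z

lemma filter_disc (s : Finset ℤ) {t : ℤ} (ht : (p:ℤ) ∣ t - 10 * r) :
    {y ∈ s | (p:ℤ) ∣ t - y} = disc s p r :=
  filter_congr fun y _ => ⟨fun h => by simpa using dvd_sub ht h,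
    fun h => by simpa using dvd_sub ht h⟩

lemma diff_lt (hbig : 340 * n < p ^ 2) {t y : ℤ} (ht : t ∈ rng n) (hy : y ∈ rng n) :
    (t - y).natAbs < p ^ 2 := by
  rw [mem_rng] at ht hy; omega

lemma norm_PhiM (hbig : 340 * n < p ^ 2) {t : ℤ} (ht : t ∈ nodes n) : ‖PhiM ℚ_[p] n p t‖ ≤ p := by
  rw [PhiM_eq]
  refine IsUltrametricDist.norm_sum_le_of_forall_le_of_nonneg (by positivity) fun y hy => ?_
  rw [div_eq_mul_inv]
  refine nint _ ((norm_inv_ite (diff_lt hbig (nodes_subset n ht) hy)).trans ?_)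
  split_ifs
  exacts [le_rfl, one_le_p]

lemma norm_wt (hbig : 340 * n < p ^ 2) {t : ℤ} (ht : t ∈ disc (nodes n) p r) :
    ‖wt ℚ_[p] n t‖ ≤ (p:ℝ) ^ (gg n p r - 1) := by
  have hp0 : (0:ℝ) < p := by exact_mod_cast hp.out.pos
  obtain ⟨h1, h2⟩ := mem_disc.1 ht
  rw [wt, div_eq_mul_inv, ← prod_inv_distrib, norm_mul, norm_prod, norm_prod]
  have a1 := prod_le_prod (s := zeros n) (fun _ _ => norm_nonneg _)
    fun y _ => norm_int_ite (p := p) (t - y)
  have a2 := prod_le_prod (s := (nodes n).erase t) (fun _ _ => norm_nonneg _) fun y hy =>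
    norm_inv_ite (diff_lt hbig (nodes_subset n h1) (nodes_subset n (mem_of_mem_erase hy)))
  rw [← prod_filter, prod_const] at a1 a2
  rw [filter_erase, filter_disc _ h2, card_erase_of_mem ht] at a2
  rw [filter_disc _ h2] at a1
  refine (mul_le_mul a1 a2 (prod_nonneg fun _ _ => norm_nonneg _) (by positivity)).trans_eq ?_
  have := card_pos.2 ⟨t, ht⟩
  rw [inv_pow, ← zpow_natCast, ← zpow_natCast, ← zpow_neg, ← zpow_add₀ hp0.ne', gg]
  congr 1; omega

/-- the trivial bound -/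
theorem LD_triv (hbig : 340 * n < p ^ 2) (f : ℤ → ℚ_[p]) {B : ℝ} (hB : 0 ≤ B)
    (hf : ∀ t ∈ disc (nodes n) p r, ‖f t‖ ≤ B) :
    ‖∑ t ∈ disc (nodes n) p r, PhiM ℚ_[p] n p t * wt ℚ_[p] n t * f t‖ ≤ (p:ℝ) ^ gg n p r * B := by
  have hp0 : (0:ℝ) < p := by exact_mod_cast hp.out.pos
  refine IsUltrametricDist.norm_sum_le_of_forall_le_of_nonneg (by positivity) fun t ht => ?_
  rw [norm_mul, norm_mul]
  calc _ ≤ p * (p:ℝ) ^ (gg n p r - 1) * B := by
        gcongr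
        exacts [norm_PhiM hbig (mem_disc.1 ht).1, norm_wt hbig ht, hf t ht]
    _ = _ := by rw [zpow_sub_one₀ hp0.ne']; field_simp

/-- integral and congruent -/
def Cg (e : ℝ) (x y : ℚ_[p]) : Prop := ‖x‖ ≤ 1 ∧ ‖y‖ ≤ 1 ∧ ‖x - y‖ ≤ e

lemma nmul {x y : ℚ_[p]} {B : ℝ} (hx : ‖x‖ ≤ 1) (hy : ‖y‖ ≤ B) : ‖x * y‖ ≤ B := by
  rw [norm_mul]
  exact (mul_le_of_le_one_left (norm_nonneg _) hx).trans hy

lemma Cg.mul {e : ℝ} {x y z w : ℚ_[p]} (h : Cg e x y) (k : Cg e z w) : Cg e (x * z) (y * w) :=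
  ⟨nmul h.1 k.1, nmul h.2.1 k.2.1, by
    rw [show x * z - y * w = x * (z - w) + w * (x - y) by ring]
    exact nadd (nmul h.1 k.2.2) (nmul k.2.1 h.2.2)⟩

lemma Cg.prod {e : ℝ} (he : 0 ≤ e) (s : Finset ℤ) {f g : ℤ → ℚ_[p]}
    (h : ∀ y ∈ s, Cg e (f y) (g y)) : Cg e (∏ y ∈ s, f y) (∏ y ∈ s, g y) := by
  induction s using Finset.induction_on with
  | empty => simpa [Cg] using he
  | insert y s hy ih =>
    rw [prod_insert hy, prod_insert hy]
    exact (h y (mem_insert_self _ _)).mul (ih fun z hz => h z (mem_insert_of_mem hz))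

lemma cg_int {e : ℝ} (he : (p:ℝ)⁻¹ ≤ e) {a b : ℤ} (h : (p:ℤ) ∣ a - b) :
    Cg e (a : ℚ_[p]) b :=
  ⟨Padic.norm_int_le_one _, Padic.norm_int_le_one _, by
    rw [← Int.cast_sub]; exact (norm_of_dvd h).trans he⟩

lemma cg_inv {e : ℝ} (he : (p:ℝ)⁻¹ ≤ e) {a b : ℤ} (h : (p:ℤ) ∣ a - b) (ha : ¬ (p:ℤ) ∣ a) :
    Cg e (a : ℚ_[p])⁻¹ (b : ℚ_[p])⁻¹ := by
  have hb : ¬ (p:ℤ) ∣ b := fun h1 => ha (by simpa using dvd_add h h1)
  have ha0 : (a : ℚ_[p]) ≠ 0 := Int.cast_ne_zero.2 fun h0 => ha (by simp [h0])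
  have hb0 : (b : ℚ_[p]) ≠ 0 := Int.cast_ne_zero.2 fun h0 => hb (by simp [h0])
  refine ⟨(norm_inv_unit ha).le, (norm_inv_unit hb).le, ?_⟩
  rw [show (a : ℚ_[p])⁻¹ - (b : ℚ_[p])⁻¹ = (a : ℚ_[p])⁻¹ * ((b : ℚ_[p])⁻¹ * (b - a)) by field_simp]
  exact nmul (norm_inv_unit ha).le (nmul (norm_inv_unit hb).le
    (by rw [norm_sub_rev]; exact (cg_int he h).2.2))

lemma disc_dvd {s s' : Finset ℤ} {t y : ℤ} (ht : t ∈ disc s p r) (hy : y ∈ disc s' p r) :
    (p:ℤ) ∣ t - y := by simpa using dvd_sub (mem_disc.1 ht).2 (mem_disc.1 hy).2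

lemma good_coeff (hg : Good n p r) {t y : ℤ} (ht : t ∈ disc (nodes n) p r) (hy : y ∈ rng n)
    (hd : (p:ℤ) ∣ t - y) : uu y * (th n p y - ind t y) = 0 := by
  by_cases h0 : uu y = 0
  · rw [h0, zero_mul]
  have hy' : y ∈ disc (rng n) p r := by
    rw [← filter_disc _ (mem_disc.1 ht).2]; exact mem_filter.2 ⟨hy, hd⟩
  obtain ⟨h1, h2⟩ := hg t ht y hy' h0
  rw [th, ind, ind, mul_eq_zero, sub_eq_zero]
  right
  by_cases hz : y ∈ zeros n
  · rw [if_pos hz]
    refine if_congr ⟨fun ⟨s, hs, h3, h4⟩ => (h2 s (mem_disc.2 ⟨hs, ?_⟩)).2 h4,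
      fun h => ⟨t, (mem_disc.1 ht).1, hd, h⟩⟩ rfl rfl
    simpa using dvd_add h3 (mem_disc.1 hy').2
  · rw [if_neg hz]
    exact if_congr (h1 hz).symm rfl rfl

lemma good_int (hg : Good n p r) {t : ℤ} (ht : t ∈ disc (nodes n) p r) :
    ‖PhiM ℚ_[p] n p t‖ ≤ 1 := by
  rw [PhiM_eq]
  refine IsUltrametricDist.norm_sum_le_of_forall_le_of_nonneg zero_le_one fun y hy => ?_
  by_cases hd : (p:ℤ) ∣ t - y
  · rw [good_coeff hg ht hy hd]; simp
  · rw [div_eq_mul_inv]; exact nint _ (norm_inv_unit hd).le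

lemma good_gap (hg : Good n p r) {t s : ℤ} (ht : t ∈ disc (nodes n) p r)
    (hs : s ∈ disc (nodes n) p r) : ∀ y, t < y → y < s → (p:ℤ) ∣ y - t → uu y = 0 := by
  intro y h1 h2 h3
  by_contra h0
  have a1 := mem_rng.1 (nodes_subset n (mem_disc.1 ht).1)
  have a2 := mem_rng.1 (nodes_subset n (mem_disc.1 hs).1)
  have := ((hg t ht y (mem_disc.2 ⟨mem_rng.2 (by omega),
    by simpa using dvd_add h3 (mem_disc.1 ht).2⟩) h0).2 s hs).1 h1
  omega

lemma node_mod {t : ℤ} (ht : t ∈ disc (nodes n) p r) : t % 10 = 2 ∨ t % 10 = 5 := by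
  have := mem_nodes.1 (mem_disc.1 ht).1
  omega

lemma good_cg (h10 : ¬ p ∣ 10) {e : ℝ} (he : (p:ℝ)⁻¹ ≤ e) (hk : p ∣ fq 10 p ∨ 1 ≤ e)
    (hg : Good n p r) {t s : ℤ} (ht : t ∈ disc (nodes n) p r) (hs : s ∈ disc (nodes n) p r)
    (hts : t < s) : Cg e (PhiM ℚ_[p] n p t) (PhiM ℚ_[p] n p s) := by
  refine ⟨good_int hg ht, good_int hg hs, ?_⟩
  rcases hk with hq | h1
  swap
  · exact (nsub (good_int hg ht) (good_int hg hs)).trans h1
  have hk := key h10 hq (node_mod ht) (node_mod hs) hts (disc_dvd hs ht) (good_gap hg ht hs)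
  have a1 := mem_rng.1 (nodes_subset n (mem_disc.1 ht).1)
  have a2 := mem_rng.1 (nodes_subset n (mem_disc.1 hs).1)
  have h2 : ∑ y ∈ Ico t s, (uu y : ℚ_[p]) / ((y - t : ℤ) : ℚ_[p]) =
      ∑ y ∈ rng n, ((uu y * (ind s y - ind t y) : ℤ) : ℚ_[p]) / ((t - y : ℤ) : ℚ_[p]) := by
    rw [← sum_subset (s₁ := Ico t s) (s₂ := rng n)
      (fun y hy => by rw [mem_Ico] at hy; rw [mem_rng]; omega)]
    · refine sum_congr rfl fun y hy => ?_
      rw [mem_Ico] at hy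
      rcases hy.1.eq_or_lt with rfl | h
      · simp
      · rw [ind, ind, if_neg (by omega), if_pos h, ← neg_sub y t]
        push_cast
        rw [div_neg]; ring
    · intro y _ hy
      rw [mem_Ico] at hy
      by_cases h : y = s
      · rw [h, uu_of_node (mem_disc.1 hs).1]; simp
      · rw [ind, ind, if_congr (show s < y ↔ t < y by omega) rfl rfl]; simp
  have h3 : PhiM ℚ_[p] n p t - PhiM ℚ_[p] n p s =
      ∑ y ∈ rng n, ((uu y * (th n p y - ind s y) : ℤ) : ℚ_[p]) *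
        (((t - y : ℤ) : ℚ_[p])⁻¹ - ((s - y : ℤ) : ℚ_[p])⁻¹) +
      ∑ y ∈ Ico t s, (uu y : ℚ_[p]) / ((y - t : ℤ) : ℚ_[p]) := by
    rw [h2, PhiM_eq, PhiM_eq, ← sum_sub_distrib, ← sum_add_distrib]
    refine sum_congr rfl fun y _ => ?_
    simp only [Int.cast_mul, Int.cast_sub (th n p y), Int.cast_sub (ind s y)]; ring
  rw [h3]
  refine nadd (IsUltrametricDist.norm_sum_le_of_forall_le_of_nonneg
    (le_trans (by positivity) he) fun y hy => ?_) (hk.trans he)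
  by_cases hd : (p:ℤ) ∣ s - y
  · rw [good_coeff hg hs hy hd]; simpa using le_trans (by positivity) he
  · exact nint _ (cg_inv he (by simpa using disc_dvd ht hs) fun h => hd
      (by simpa using dvd_add (disc_dvd hs ht) h)).2.2

lemma good_card (h10 : ¬ p ∣ 10) (hg : Good n p r) : #(disc (nodes n) p r) ≤ 2 := by
  refine (card_le_card_of_injOn (t := {2, 5}) (fun t => t % 10)
    (fun t ht => by simpa using node_mod ht) fun t ht s hs h => ?_).trans card_le_two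
  have aux : ∀ t ∈ disc (nodes n) p r, ∀ s ∈ disc (nodes n) p r, t < s → t % 10 ≠ s % 10 :=
    fun t ht s hs h1 => by
      have := gap_cases h10 (node_mod ht) (node_mod hs) h1 (disc_dvd hs ht) (good_gap hg ht hs)
      omega
  rcases lt_trichotomy t s with h1 | h1 | h1
  exacts [absurd h (aux t ht s hs h1), h1, absurd h.symm (aux s hs t ht h1)]

/-- the part of the weight that is integral on the disc -/
lemma wt_disc {t : ℤ} (ht : t ∈ disc (nodes n) p r) : wt ℚ_[p] n t =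
    (∏ y ∈ zeros n, ((t - y : ℤ) : ℚ_[p])) *
      (∏ y ∈ nodes n \ disc (nodes n) p r, ((t - y : ℤ) : ℚ_[p])⁻¹) /
        ∏ y ∈ (disc (nodes n) p r).erase t, ((t - y : ℤ) : ℚ_[p]) := by
  have h : disc (nodes n) p r ⊆ nodes n := filter_subset _ _
  rw [wt, prod_inv_distrib, ← prod_sdiff (erase_subset_erase t h), div_mul_eq_div_div,
    div_eq_mul_inv _ (∏ y ∈ _ \ _, _)]
  congr 4
  ext y
  simp only [mem_sdiff, mem_erase]
  exact ⟨fun h1 => ⟨h1.1.2, fun h2 => h1.2 ⟨h1.1.1, h2⟩⟩,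
    fun h1 => ⟨⟨fun h2 => h1.2 (h2 ▸ ht), h1.1⟩, fun h2 => h1.2 h2.2⟩⟩

theorem LD_good' (h10 : ¬ p ∣ 10) (hbig : 340 * n < p ^ 2) {e : ℝ} (he : (p:ℝ)⁻¹ ≤ e)
    (hk : p ∣ fq 10 p ∨ 1 ≤ e) (hg : Good n p r) (f : ℤ → ℚ_[p])
    (hf : ∀ t ∈ disc (nodes n) p r, ∀ s ∈ disc (nodes n) p r, Cg e (f t) (f s)) :
    ‖∑ t ∈ disc (nodes n) p r, PhiM ℚ_[p] n p t * wt ℚ_[p] n t * f t‖ ≤ p * e := by
  have hp0 : (0:ℝ) < p := by exact_mod_cast hp.out.pos
  have he0 : 0 ≤ e := le_trans (by positivity) he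
  have he1 : 1 ≤ p * e := by rwa [inv_le_iff_one_le_mul₀' hp0] at he
  set D := disc (nodes n) p r with hD
  set G : ℤ → ℚ_[p] := fun t => (∏ y ∈ zeros n, ((t - y : ℤ) : ℚ_[p])) *
      (∏ y ∈ nodes n \ D, ((t - y : ℤ) : ℚ_[p])⁻¹) * f t with hG
  have hGc : ∀ t ∈ D, ∀ s ∈ D, Cg e (G t) (G s) := fun t ht s hs =>
    ((Cg.prod he0 _ fun y _ => cg_int he (by simpa using disc_dvd ht hs)).mul
      (Cg.prod he0 _ fun y hy => cg_inv he (by simpa using disc_dvd ht hs) fun h =>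
        (mem_sdiff.1 hy).2 (by
          rw [hD, ← filter_disc _ (mem_disc.1 ht).2]
          exact mem_filter.2 ⟨(mem_sdiff.1 hy).1, h⟩))).mul (hf t ht s hs)
  rw [sum_congr rfl (g := fun t => PhiM ℚ_[p] n p t * G t /
    ∏ y ∈ D.erase t, ((t - y : ℤ) : ℚ_[p])) fun t ht => by rw [wt_disc ht, hG]; ring]
  have two : ∀ t s, t < s → D = {t, s} → ‖∑ t ∈ D, PhiM ℚ_[p] n p t * G t /
      ∏ y ∈ D.erase t, ((t - y : ℤ) : ℚ_[p])‖ ≤ p * e := fun t s hts h => by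
    have ht : t ∈ D := by simp [h]
    have hs : s ∈ D := by simp [h]
    have h1 := ((good_cg h10 he hk hg ht hs hts).mul (hGc t ht s hs)).2.2
    have h2 := norm_inv_ite (diff_lt hbig (nodes_subset n (mem_disc.1 ht).1)
      (nodes_subset n (mem_disc.1 hs).1))
    rw [if_pos (disc_dvd ht hs)] at h2
    rw [h, sum_pair hts.ne, erase_insert (by simpa using hts.ne), pair_comm,
      erase_insert (by simpa using hts.ne'), prod_singleton, prod_singleton, ← neg_sub t s,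
      Int.cast_neg, div_neg, ← sub_eq_add_neg, ← sub_div, div_eq_inv_mul, norm_mul]
    exact mul_le_mul h2 h1 (norm_nonneg _) hp0.le
  have hc : #D ≤ 2 := good_card h10 hg
  interval_cases h : #D
  · rw [card_eq_zero.1 h]; simpa using le_trans zero_le_one he1
  · obtain ⟨t, h1⟩ := card_eq_one.1 h
    have ht : t ∈ D := by simp [h1]
    rw [h1, sum_singleton, erase_singleton, prod_empty, div_one]
    exact (nmul (good_int hg ht) (hGc t ht t ht).1).trans he1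
  · obtain ⟨t, s, h1, h2⟩ := card_eq_two.1 h
    rcases lt_or_gt_of_ne h1 with h3 | h3
    exacts [two t s h3 h2, two s t h3 (by rw [h2, pair_comm])]

/-- the form is integral on a good disc -/
theorem LD_good (h10 : ¬ p ∣ 10) (hq : p ∣ fq 10 p) (hbig : 340 * n < p ^ 2) (hg : Good n p r)
    (f : ℤ → ℚ_[p]) (h1 : ∀ t ∈ disc (nodes n) p r, ‖f t‖ ≤ 1)
    (h2 : ∀ t ∈ disc (nodes n) p r, ∀ s ∈ disc (nodes n) p r, ‖f t - f s‖ ≤ (p:ℝ)⁻¹) :
    ‖∑ t ∈ disc (nodes n) p r, PhiM ℚ_[p] n p t * wt ℚ_[p] n t * f t‖ ≤ 1 := by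
  have := LD_good' h10 hbig le_rfl (Or.inl hq) hg f fun t ht s hs => ⟨h1 t ht, h1 s hs, h2 t ht s hs⟩
  rwa [mul_inv_cancel₀ (by exact_mod_cast hp.out.ne_zero)] at this

open Classical in
/-- the bound at a prime with `340 n < p ^ 2` -/
theorem hank_big (h10 : ¬ p ∣ 10) (hbig : 340 * n < p ^ 2) {d : ℕ} (hd : d ≤ 13 * n) {μ : ℝ}
    (hμ : 0 ≤ μ) : ‖hank ℚ_[p] n d‖ ≤
      (p:ℝ) ^ (cst n d p μ + (if p ∣ fq 10 p then 0 else 1) * d) := by
  have hp0 : (0:ℝ) < p := by exact_mod_cast hp.out.pos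
  have hp1 := one_le_p (p := p)
  set δ : ℝ := if p ∣ fq 10 p then 0 else 1 with hδ
  have hδ0 : 0 ≤ δ := by rw [hδ]; split_ifs <;> norm_num
  have h := gen (β := Fin p) d (fun r => disc (nodes n) p (r:ℕ))
    (fun t => PhiM ℚ_[p] n p t * wt ℚ_[p] n t) (fun r _ => 10 * (r:ℕ))
    (fun r i => δ + if Good n p (r:ℕ) then 0 else (gg n p (r:ℕ) : ℝ) - 2 * i) (μ + δ) fun r i _ j _ => by
      split_ifs with hg
      · refine (LD_good' h10 hbig (e := (p:ℝ) ^ (δ - 1)) ?_ ?_ hg _ fun t ht s hs =>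
          cg_int ?_ ?_).trans_eq ?_
        · rw [← Real.rpow_neg_one]; exact Real.rpow_le_rpow_of_exponent_le hp1 (by linarith)
        · rw [hδ]; split_ifs with h <;> simp [h]
        · rw [← Real.rpow_neg_one]; exact Real.rpow_le_rpow_of_exponent_le hp1 (by linarith)
        · have : s ≡ t [ZMOD p] := Int.modEq_iff_dvd.2 (disc_dvd ht hs)
          simp only [nw, prod_const]
          exact Int.modEq_iff_dvd.1 (((this.sub_right _).pow _).mul ((this.sub_right _).pow _))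
        · rw [Real.rpow_sub_one hp0.ne']; field_simp; congr 1; ring
      · refine (LD_triv hbig _ (B := (p:ℝ)⁻¹ ^ (i + j)) (by positivity) fun t ht => ?_).trans ?_
        · simp only [nw, prod_const, card_range, ← pow_add]
          rw [Int.cast_pow, norm_pow]
          exact pow_le_pow_left₀ (norm_nonneg _) (norm_of_dvd (mem_disc.1 ht).2) _
        · rw [← Real.rpow_intCast, inv_pow, ← Real.rpow_natCast, ← Real.rpow_neg hp0.le,
            ← Real.rpow_add hp0]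
          exact Real.rpow_le_rpow_of_exponent_le hp1 (by push_cast; linarith)
  convert h using 2
  · rw [hank]
    congr 1
    ext i j
    rw [Matrix.of_apply, Matrix.of_apply, Lf_split _ h10 _ (by rw [natDegree_X_pow]; omega),
      sum_range]
    simp
  · rw [cst, sum_range, add_mul μ, add_right_comm]
    congr 1
    refine sum_congr rfl fun r _ => ?_
    split_ifs
    · exact (sum_eq_zero fun i _ => max_eq_left (by linarith)).symm
    · exact sum_congr rfl fun i _ => by congr 1; ring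

end

end Pool.Agent.B10
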