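import Pool.Agent.Lib.MP_5e2fbc_nt.B10.NonVan3
import Pool.Agent.Lib.MP_5e2fbc_nt.B10.Local

/-!
Base ten: non-vanishing of the determinant for a Wieferich prime close to `24 n`.
-/

set_option autoImplicit false

namespace Pool.Agent.B10

open Finset Polynomial Filter Pool.Agent.NW

theorem hank_ne_zero' {p n : ℕ} (hp : p.Prime) (h3 : p % 10 = 3) (hq : p ∣ fq 10 p)
    (h1 : p ≤ 24 * n) (h2 : 95 * n ≤ 4 * p) : hank ℚ n (34 * n - p) ≠ 0 := by
  have := Fact.mk hp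
  have h4 : 24 ≤ p := by
    have := hp.pos
    omega
  have hev : ∀ (Q : ℤ[X]) (t : ℤ), (Q.map (Int.castRingHom ℚ_[p])).eval (t : ℚ_[p]) =
      (Q.eval t : ℤ) := fun Q t => by rw [eval_intCast_map]; simp
  refine NV.hank_ne_zero_of h3 h1 h2 0 (fun y => (ee n p y : ℚ_[p])) (by simp)
    (fun _ => Padic.norm_int_le_one _) fun r Q hg => ?_
  refine LD_good (fun h => absurd (Nat.le_of_dvd (by norm_num) h) (by omega)) hq (by nlinarith) hg
    (fun t => (Q.map (Int.castRingHom ℚ_[p])).eval (t : ℚ_[p])) (fun t _ => ?_) fun t ht s hs => ?_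
  · rw [hev]
    exact Padic.norm_int_le_one _
  · rw [hev, hev, ← Int.cast_sub]
    exact norm_of_dvd ((disc_dvd ht hs).trans (sub_dvd_eval_sub _ _ _))

theorem hank_ne_zero (C : ℕ) : ∀ᶠ n : ℕ in atTop, ∀ p : ℕ, p.Prime → p % 10 = 3 → p ∣ fq 10 p →
    p ≤ 24 * n → 24 * n ≤ p + C → hank ℚ n (34 * n - p) ≠ 0 := by
  filter_upwards [eventually_ge_atTop (4 * C)] with n hn p hp h3 hq h1 h2
  exact hank_ne_zero' hp h3 hq h1 (by omega)

end Pool.Agent.B10
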