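import Pool.Agent.Lib.MP_5e2fbc_nt.B10.Master
import Pool.Agent.Lib.MP_5e2fbc_nt.B10.NonVan

/-!
Base ten: from the estimates to the positive density.
-/

set_option autoImplicit false

namespace Pool.Agent.B10

open Finset Filter Topology Pool.Agent.NW Pool.Agent.Shared.PNTAP

noncomputable section

lemma lower
    (hR : ∀ᶠ m : ℕ in atTop, ∀ d, 10 * (20 * m) ≤ d → d ≤ 10 * (20 * m) + 480 →
      |hank ℝ (20 * m) d| ≤
        Real.exp ((-160 * Real.log (20 * m : ℕ) - 720) * ((20 * m : ℕ) : ℝ) ^ 2))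
    (hC : ∀ᶠ n : ℕ in atTop, ∃ μ : ℕ → ℝ, (∀ p, 0 ≤ μ p) ∧ ∀ d ≤ 10 * n + 480,
      ∑ p ∈ Ioc (2 * n) (340 * n) with p.Prime, cst n d p (μ p) * Real.log p ≤ 790 * (n:ℝ) ^ 2)
    (hM : ∀ᶠ n : ℕ in atTop, ∑ p ∈ Icc 1 (2 * n) with p.Prime, Real.log p / ((p:ℝ) - 1) ≤
      Real.log (2 * n) - 0.565) :
    ∀ᶠ m : ℕ in atTop, ∀ d, 10 * (20 * m) ≤ d → d ≤ 10 * (20 * m) + 480 →
      hank ℚ (20 * m) d ≠ 0 → 10 * (m:ℝ) ≤ thb Bad (340 * (20 * m)) := by
  have ht : Tendsto (fun m : ℕ => 20 * m) atTop atTop := tendsto_id.const_mul_atTop' (by norm_num)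
  filter_upwards [hR, ht.eventually hC, ht.eventually hM, ht.eventually medsum,
    ht.eventually (ev_log 10000), ht.eventually (eventually_ge_atTop 48000)]
    with m hR hC hM hS hL hn d h1 h2 hx
  obtain ⟨μ, hμ, hC⟩ := hC
  have hm : (10 * m : ℝ) = ((20 * m : ℕ) : ℝ) / 2 := by push_cast; ring
  rw [hm]
  replace hR := hR d h1 h2
  generalize 20 * m = n at *
  have h3 := master hx (by omega) (by omega) (by omega) μ hμ
  have hn' : (48000:ℝ) ≤ n := by exact_mod_cast hn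
  have d1 : 10 * (n:ℝ) ≤ d := by exact_mod_cast h1
  have d2 : (d:ℝ) ≤ 10 * n + 480 := by exact_mod_cast h2
  have r1 := Real.log_le_log (abs_pos.2 (by rw [← hank_cast]; exact Rat.cast_ne_zero.2 hx)) hR
  rw [Real.log_exp] at r1
  have c1 := hC d h2
  have s1 := hS d (by linarith)
  set l := Real.log (340 * n : ℕ) with hl
  have l0 : 0 ≤ l := Real.log_natCast_nonneg _
  have q1 : 1 ≤ √(340 * n : ℕ) := Real.one_le_sqrt.2 (by exact_mod_cast (by omega))
  have l1 : 10000 * l ≤ n := by nlinarith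
  have l2 : Real.log n ≤ l := Real.log_le_log (by linarith) (by push_cast; linarith)
  have l3 : 1 ≤ Real.log n - 2 := by
    have := Real.log_le_log (by norm_num) (show (2:ℝ) ^ 5 ≤ n by linarith)
    rw [Real.log_pow] at this
    have := Real.log_two_gt_d9
    push_cast at *
    linarith
  have v2 := lv_le (p := 2) (n := n) (by omega)
  have v5 := lv_le (p := 5) (n := n) (by omega)
  have w2 := Nat.cast_nonneg (α := ℝ) (lv 2 n)
  have w5 := Nat.cast_nonneg (α := ℝ) (lv 5 n)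
  rw [← hl] at v2 v5
  have g2 := Real.log_two_lt_d9
  have g2' := Real.log_two_gt_d9
  have g5 := Real.log_five_lt_d9
  have g5' := Real.log_five_gt_d9
  have t2 : d * (lv 2 n : ℝ) + (20 * n + 7 * lv 2 n + 9) ^ 2 / 8 ≤ 50.2 * (n:ℝ) ^ 2 := by
    have a := mul_le_mul (show (d:ℝ) ≤ 11 * n by linarith) (show (lv 2 n : ℝ) ≤ n / 1000 by linarith)
      w2 (by positivity)
    have b := pow_le_pow_left₀ (by positivity)
      (show (20 * n + 7 * lv 2 n + 9 : ℝ) ≤ 20.01 * n by linarith) 2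
    nlinarith
  have t5 : d * (lv 5 n : ℝ) + (15 / 2 * n + 5 * lv 5 n + 11 / 2) ^ 2 / 5 ≤ 11.4 * (n:ℝ) ^ 2 := by
    have a := mul_le_mul (show (d:ℝ) ≤ 11 * n by linarith) (show (lv 5 n : ℝ) ≤ n / 1000 by linarith)
      w5 (by positivity)
    have b := pow_le_pow_left₀ (by positivity)
      (show (15 / 2 * n + 5 * lv 5 n + 11 / 2 : ℝ) ≤ 7.51 * n by linarith) 2
    nlinarith
  have u2 := mul_le_mul t2 (show Real.log 2 ≤ 0.6932 by linarith) (by linarith) (by positivity)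
  have u5 := mul_le_mul t5 (show Real.log 5 ≤ 1.6095 by linarith) (by linarith) (by positivity)
  rw [Real.log_mul (by norm_num) (by linarith)] at hM
  have a0 : (0:ℝ) ≤ d * (26 * n - d) := mul_nonneg (by positivity) (by linarith)
  have a1 : (d:ℝ) * (26 * n - d) ≤ 160 * (n:ℝ) ^ 2 + 2880 * n := by nlinarith
  have u1 := (mul_le_mul_of_nonneg_left (show ∑ p ∈ Icc 1 (2 * n) with p.Prime,
    Real.log p / ((p:ℝ) - 1) - Real.log 2 - Real.log 5 / 4 ≤ Real.log n - 0.967 by linarith) a0).trans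
    (mul_le_mul_of_nonneg_right a1 (by linarith))
  have u3 : 2880 * n * Real.log n ≤ 0.3 * (n:ℝ) ^ 2 := by nlinarith
  have u4 : √(340 * n : ℕ) * (24 * d * l) ≤ 0.1 * (n:ℝ) ^ 2 := by
    have := mul_le_mul (show (d:ℝ) ≤ 11 * n by linarith) hL (by positivity) (by positivity)
    nlinarith
  have b0 : 0 ≤ thb Bad (340 * n) := sum_nonneg fun p _ => Real.log_natCast_nonneg p
  have u6 := mul_le_mul_of_nonneg_right (show (d:ℝ) ≤ 11 * n by linarith) b0
  refine le_of_mul_le_mul_left ?_ (show (0:ℝ) < 11 * n by linarith)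
  nlinarith

lemma dens (h : ∀ᶠ m : ℕ in atTop, ∀ d, 10 * (20 * m) ≤ d → d ≤ 10 * (20 * m) + 480 →
      hank ℚ (20 * m) d ≠ 0 → 10 * (m:ℝ) ≤ thb Bad (340 * (20 * m))) :
    ∀ᶠ x : ℕ in atTop, 1 / 1500 * (x:ℝ) ≤ thb Bad x := by
  classical
  obtain ⟨m0, h⟩ := eventually_atTop.1 h
  have hu : IsUnit (3 : ZMod 10) := by decide
  have ht : ((Nat.totient 10 : ℕ) : ℝ)⁻¹ = 1 / 4 := by
    rw [show Nat.totient 10 = 4 by decide]; norm_num
  have h1 := ((theta_mul hu (c := 1 / 15) (by norm_num)).sub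
    (theta_mul hu (c := 1 / 30) (by norm_num))).eventually
    (lt_mem_nhds (a := 1 / 1500) (by rw [ht]; norm_num))
  filter_upwards [h1, eventually_ge_atTop (30 * (480 * m0 + 100000))] with x h1 hx
  have hx0 : (0:ℝ) < x := by exact_mod_cast (by omega)
  have f1 : ⌊(1 / 15 * x : ℝ)⌋₊ = x / 15 := by
    rw [one_div_mul_eq_div, ← Nat.cast_ofNat, Nat.floor_div_eq_div]
  have f2 : ⌊(1 / 30 * x : ℝ)⌋₊ = x / 30 := by
    rw [one_div_mul_eq_div, ← Nat.cast_ofNat, Nat.floor_div_eq_div]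
  by_cases hw : ∃ p, p.Prime ∧ p % 10 = 3 ∧ x / 30 < p ∧ p ≤ x / 15 ∧ p ∣ fq 10 p
  · obtain ⟨p, hp, h3, h4, h5, hq⟩ := hw
    have h6 := h ((p + 479) / 480) (by omega) (34 * (20 * ((p + 479) / 480)) - p) (by omega)
      (by omega) (hank_ne_zero' hp h3 hq (by omega) (by omega))
    refine le_trans ?_ (h6.trans (thb_mono Bad (by omega)))
    have : (x:ℝ) ≤ 15000 * ((p + 479) / 480 : ℕ) := by exact_mod_cast (by omega)
    linarith
  · rw [← sub_div, lt_div_iff₀ hx0, thetaAP, thetaAP, f1, f2, ← sum_sdiff_eq_sub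
      (filter_subset_filter _ (Icc_subset_Icc_right (by omega)))] at h1
    refine h1.le.trans (sum_le_sum_of_subset_of_nonneg (fun p hp => ?_)
      fun p _ _ => Real.log_natCast_nonneg p)
    replace hp := Finset.mem_sdiff.1 hp
    simp only [mem_filter, mem_Icc] at hp ⊢
    obtain ⟨⟨⟨a1, a2⟩, a3, a4⟩, a5⟩ := hp
    refine ⟨⟨a1, by omega⟩, a3, fun hq => hw ⟨p, a3, ?_, ?_, a2, hq⟩⟩
    · exact (ZMod.natCast_eq_natCast_iff' p 3 10).1 a4
    · by_contra h7
      exact a5 ⟨⟨a1, by omega⟩, a3, a4⟩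

end

end Pool.Agent.B10
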