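import Pool.Agent.Lib.MP_5e2fbc_nt.B10.Defs

/-!
Base ten: the key congruence.
-/

set_option autoImplicit false

namespace Pool.Agent.B10

open Finset Pool.Agent.NW

noncomputable section

lemma rho_two (K : Type*) [Field K] [CharZero K] (j : ℕ) :
    2 * rho K 1 1 (2 * j) = rho K 1 1 j + 2 * rho K 2 1 j := by
  induction j with
  | zero => simp [rho]
  | succ j ih =>
    have h1 : ((j : K) + 1) ≠ 0 := by exact_mod_cast j.succ_ne_zero
    simp only [rho, Nat.mul_succ, sum_range_succ] at ih ⊢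
    push_cast at ih ⊢
    have : (2 * (j:K) + 1 + 1)⁻¹ = 2⁻¹ * ((j:K) + 1)⁻¹ := by
      rw [← mul_inv]; congr 1; ring
    simp only [one_mul] at ih ⊢
    rw [this]
    linear_combination ih

lemma rho_two' (K : Type*) [Field K] [CharZero K] (M : ℕ) :
    2 * rho K 1 1 M = rho K 1 1 (M / 2) + 2 * rho K 2 1 ((M + 1) / 2) := by
  obtain ⟨j, rfl | rfl⟩ := M.even_or_odd'
  · rw [rho_two, show 2 * j / 2 = j by omega, show (2 * j + 1) / 2 = j by omega]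
  · have := rho_two K j
    rw [show (2 * j + 1) / 2 = j by omega, show (2 * j + 1 + 1) / 2 = j + 1 by omega]
    simp only [rho, sum_range_succ, one_mul] at this ⊢
    linear_combination this

lemma sum_class (K : Type*) [Field K] (M : ℕ) {e : ℕ} (he : e < 10) (c : K) :
    ∑ τ ∈ range M, (if τ % 10 = e then c else 0) / (τ : K) = c * rho K 10 e ((M + 9 - e) / 10) := by
  simp only [ite_div, zero_div]
  rw [← sum_filter, rho, mul_sum]
  refine sum_nbij' (fun τ => τ / 10) (fun i => 10 * i + e) ?_ ?_ ?_ ?_ ?_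
  · simp only [mem_filter, mem_range]; omega
  · simp only [mem_filter, mem_range]; omega
  · simp only [mem_filter, mem_range]; omega
  · simp only [mem_range]; omega
  · simp only [mem_filter, mem_range]
    intro τ h
    rw [show 10 * (τ / 10) + e = τ by omega, div_eq_mul_inv]

lemma sum_uu (K : Type*) [Field K] {t : ℤ} (M : ℕ) {a b c : ℕ} (ha : a < 10) (hb : b < 10)
    (hc : c < 10) (h1 : (t + a) % 10 = 1) (h2 : (t + b) % 10 = 9) (h3 : (t + c) % 10 = 7) :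
    ∑ y ∈ Ico t (t + M), (uu y : K) / ((y - t : ℤ) : K) =
      -3 * rho K 10 a ((M + 9 - a) / 10) + -10 * rho K 10 b ((M + 9 - b) / 10) +
        8 * rho K 10 c ((M + 9 - c) / 10) := by
  rw [← sum_class K M ha, ← sum_class K M hb, ← sum_class K M hc, ← sum_add_distrib,
    ← sum_add_distrib]
  refine sum_nbij' (fun y => (y - t).toNat) (fun τ => t + τ) ?_ ?_ ?_ ?_ ?_
  · simp only [mem_Ico, mem_range]; omega
  · simp only [mem_Ico, mem_range]; omega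
  · simp only [mem_Ico]; omega
  · simp only [mem_range]; omega
  · simp only [mem_Ico]
    intro y hy
    obtain ⟨τ, rfl⟩ : ∃ τ : ℕ, y = t + τ := ⟨(y - t).toNat, by omega⟩
    rw [add_sub_cancel_left, Int.toNat_natCast, Int.cast_natCast, ← add_div, ← add_div, uu]
    congr 1
    split_ifs <;> first | omega | simp

variable {p : ℕ} [hp : Fact p.Prime]

/-- harmonic number of `j p / 10` -/
def hh (p : ℕ) [Fact p.Prime] (j : ℕ) : ℚ_[p] := rho ℚ_[p] 1 1 (j * p / 10)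

lemma conv (h10 : ¬ p ∣ 10) {e S D M : ℕ} (he : 0 < e) (hS : S < 10)
    (h : 10 * (S * p / 10) + e = p * S) (hD : D * p / 10 + (M + 9 - e) / 10 = S * p / 10) :
    ‖hh p D - 10 * rho ℚ_[p] 10 e ((M + 9 - e) / 10) - hh p S‖ ≤ (p:ℝ)⁻¹ := by
  have h1 : S * p / 10 < p := by
    have := hp.out.pos
    rw [Nat.div_lt_iff_lt_mul (by norm_num)]; nlinarith
  simpa [hh] using reflect he h10 h1 (h ▸ dvd_mul_right _ _) _ _ hD

lemma rel (hm : p % 10 = 1 ∨ p % 10 = 3 ∨ p % 10 = 7 ∨ p % 10 = 9) (hq : p ∣ fq 10 p) :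
    ‖-3 * (hh p 9 - hh p 6) + -10 * (hh p 7 - hh p 4) + 8 * (hh p 5 - hh p 2)‖ ≤ (p:ℝ)⁻¹ ∧
    ‖-3 * (hh p 4 - hh p 1) + -10 * (hh p 6 - hh p 3) + 8 * (hh p 8 - hh p 5)‖ ≤ (p:ℝ)⁻¹ ∧
    ‖-3 * (hh p 8 - hh p 7) + -10 * (hh p 2 - hh p 1) + 8 * (hh p 6 - hh p 5)‖ ≤ (p:ℝ)⁻¹ ∧
    ‖-3 * (hh p 3 - hh p 2) + -10 * (hh p 9 - hh p 8) + 8 * (hh p 5 - hh p 4)‖ ≤ (p:ℝ)⁻¹ := by
  have h2 : p ≠ 2 := by omega
  have h2' : ¬ p ∣ 2 := fun h => h2 ((Nat.prime_dvd_prime_iff_eq hp.out Nat.prime_two).1 h)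
  have h10 : ¬ p ∣ 10 := fun h => by
    have := Nat.le_of_dvd (by norm_num) h
    have := hp.out.two_le
    interval_cases p <;> omega
  have f0 := harm_full h2
  have r1 : ‖hh p 1 - hh p 9 - _‖ ≤ _ := harm_reflect (p := p) (by omega)
  have r2 : ‖hh p 2 - hh p 8 - _‖ ≤ _ := harm_reflect (p := p) (by omega)
  have r3 : ‖hh p 3 - hh p 7 - _‖ ≤ _ := harm_reflect (p := p) (by omega)
  have r4 : ‖hh p 4 - hh p 6 - _‖ ≤ _ := harm_reflect (p := p) (by omega)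
  have hd : p ∣ 2 * (5 * p / 10) + 1 := by rw [show 2 * (5 * p / 10) + 1 = p by omega]
  have d1 : ‖hh p 4 - _ - hh p 5‖ ≤ _ :=
    reflect one_pos h2' (by omega) hd ((2 * p / 10 + 1) / 2) _ (by omega)
  have d2 : ‖hh p 3 - _ - hh p 5‖ ≤ _ :=
    reflect one_pos h2' (by omega) hd ((4 * p / 10 + 1) / 2) _ (by omega)
  have e1 := rho_two' ℚ_[p] (2 * p / 10)
  have e2 := rho_two' ℚ_[p] (4 * p / 10)
  rw [show 2 * p / 10 / 2 = 1 * p / 10 by omega] at e1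
  rw [show 4 * p / 10 / 2 = 2 * p / 10 by omega] at e2
  change 2 * hh p 2 = hh p 1 + _ at e1
  change 2 * hh p 4 = hh p 2 + _ at e2
  have l1 := nsub (lerch h10) (nnat 10 (norm_le_inv_of_dvd hq))
  rw [sum_Ico_eq_sum_range] at l1
  simp only [sum_range_succ, sum_range_zero, Nat.reduceAdd, Nat.reduceSub] at l1
  change ‖_ - (0 + (_ - hh p 1) + (_ - hh p 2) + (_ - hh p 3) + (_ - hh p 4) + (_ - hh p 5) +
    (_ - hh p 6) + (_ - hh p 7) + (_ - hh p 8) + (_ - hh p 9)) - _‖ ≤ _ at l1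
  have key : ∀ (a b c d e f g h : ℤ) (x : ℚ_[p]), x = _ → ‖x‖ ≤ (p:ℝ)⁻¹ :=
    fun a b c d e f g h x hx => hx ▸ nadd (nadd (nadd (nadd (nadd (nadd (nadd (nint a f0)
      (nint b r1)) (nint c r2)) (nint d r3)) (nint e r4)) (nint f d1)) (nint g d2)) (nint h l1)
  refine ⟨key (-3) 2 (-1) 9 (-4) (-1) (-8) (-1) _ ?_, key 15 1 (-7) 1 11 1 8 1 _ ?_,
    key 5 1 4 (-2) (-7) 8 1 1 _ ?_, key (-13) 9 (-11) (-1) (-1) (-8) (-1) (-1) _ ?_⟩ <;> push_cast
  · linear_combination e1 + 8 * e2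
  · linear_combination -e1 - 8 * e2
  · linear_combination -8 * e1 - e2
  · linear_combination 8 * e1 + e2

lemma mod_ten (h10 : ¬ p ∣ 10) : p % 10 = 1 ∨ p % 10 = 3 ∨ p % 10 = 7 ∨ p % 10 = 9 := by
  have h2 : ¬ 2 ∣ p := fun h => h10 (by
    rw [← (Nat.prime_dvd_prime_iff_eq Nat.prime_two hp.out).1 h]; norm_num)
  have h5 : ¬ 5 ∣ p := fun h => h10 (by
    rw [← (Nat.prime_dvd_prime_iff_eq Nat.prime_five hp.out).1 h]; norm_num)
  omega

lemma norm_ten (h10 : ¬ p ∣ 10) : ‖(10 : ℚ_[p])‖ = 1 := by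
  simpa using Padic.norm_natCast_eq_one_iff.2 ((Nat.Prime.coprime_iff_not_dvd hp.out).2 h10)

lemma key_aux (h10 : ¬ p ∣ 10) {x a b c a1 a0 b1 b0 c1 c0 : ℚ_[p]}
    (hx : x = -3 * a + -10 * b + 8 * c) (ha : ‖a0 - 10 * a - a1‖ ≤ (p:ℝ)⁻¹)
    (hb : ‖b0 - 10 * b - b1‖ ≤ (p:ℝ)⁻¹) (hc : ‖c0 - 10 * c - c1‖ ≤ (p:ℝ)⁻¹)
    (h : ‖-3 * (a1 - a0) + -10 * (b1 - b0) + 8 * (c1 - c0)‖ ≤ (p:ℝ)⁻¹) : ‖x‖ ≤ (p:ℝ)⁻¹ := by
  have := nsub (nadd (nadd (nint 3 ha) (nint 10 hb)) (nint (-8) hc)) h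
  rw [← one_mul ‖x‖, ← norm_ten h10, ← norm_mul]
  refine le_of_eq_of_le (congrArg _ ?_) this
  push_cast
  linear_combination 10 * hx

lemma uu_mod (t S : ℤ) (q : ℕ) : uu (t + q * S) = uu (t % 10 + (q % 10 : ℕ) * S) := by
  have : (t + q * S) % 10 = (t % 10 + (q % 10 : ℕ) * S) % 10 := by
    push_cast
    exact ((Int.mod_modEq t 10).add ((Int.mod_modEq q 10).mul_right S)).symm
  simp only [uu, this]

lemma gap_fin : ∀ c ∈ ([1, 3, 7, 9] : List ℕ), ∀ e ∈ ([2, 5] : List ℤ),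
    (¬ ∀ S ∈ ([1, 2, 3, 4, 5, 6] : List ℤ), uu (e + c * S) = 0) ∧
    ∀ D ∈ ([1, 2, 3, 4, 5, 6] : List ℤ),
      (∀ S ∈ ([1, 2, 3, 4, 5, 6] : List ℤ), S < D → uu (e + c * S) = 0) →
      (e + c * D) % 10 = 2 ∨ (e + c * D) % 10 = 5 →
      (c = 1 ∧ e = 2 ∧ D = 3) ∨ (c = 9 ∧ e = 5 ∧ D = 3) ∨ (c = 7 ∧ e = 5 ∧ D = 1) ∨
        (c = 3 ∧ e = 2 ∧ D = 1) := by decide

lemma gap_cases (h10 : ¬ p ∣ 10) {t s : ℤ} (ht : t % 10 = 2 ∨ t % 10 = 5)
    (hs : s % 10 = 2 ∨ s % 10 = 5) (hts : t < s) (hd : (p:ℤ) ∣ s - t)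
    (hy : ∀ y, t < y → y < s → (p:ℤ) ∣ y - t → uu y = 0) :
    (p % 10 = 1 ∧ t % 10 = 2 ∧ s = t + (p * 3 : ℕ)) ∨ (p % 10 = 9 ∧ t % 10 = 5 ∧ s = t + (p * 3 : ℕ)) ∨
      (p % 10 = 7 ∧ t % 10 = 5 ∧ s = t + p) ∨ (p % 10 = 3 ∧ t % 10 = 2 ∧ s = t + p) := by
  obtain ⟨D, hD⟩ := hd
  obtain rfl : s = t + p * D := by linarith
  have hp0 : (0:ℤ) < p := by exact_mod_cast hp.out.pos
  have hD0 : 0 < D := by nlinarith
  have g : ∀ S ∈ ([1, 2, 3, 4, 5, 6] : List ℤ), S < D → uu (t % 10 + (p % 10 : ℕ) * S) = 0 :=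
    fun S h0 h1 => by
      have : 0 < S := by simp at h0; omega
      rw [← uu_mod]
      exact hy _ (by nlinarith) (by nlinarith) (by simp)
  obtain ⟨f1, f2⟩ := gap_fin (p % 10) (by simpa using mod_ten h10) (t % 10) (by simpa using ht)
  have hD1 : D < 7 := by
    by_contra h
    exact f1 fun S hS => g S hS (by simp at hS; omega)
  have h3 : (t + p * D) % 10 = (t % 10 + (p % 10 : ℕ) * D) % 10 := by
    push_cast
    exact ((Int.mod_modEq t 10).add ((Int.mod_modEq p 10).mul_right D)).symm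
  rcases f2 D (by simp; omega) g (h3 ▸ hs) with ⟨a, b, rfl⟩ | ⟨a, b, rfl⟩ | ⟨a, b, rfl⟩ | ⟨a, b, rfl⟩
  · exact Or.inl ⟨a, b, by simp⟩
  · exact Or.inr (Or.inl ⟨a, b, by simp⟩)
  · exact Or.inr (Or.inr (Or.inl ⟨a, b, by simp⟩))
  · exact Or.inr (Or.inr (Or.inr ⟨a, b, by simp⟩))

/-- the key congruence -/
theorem key (h10 : ¬ p ∣ 10) (hq : p ∣ fq 10 p) {t s : ℤ} (ht : t % 10 = 2 ∨ t % 10 = 5)
    (hs : s % 10 = 2 ∨ s % 10 = 5) (hts : t < s) (hd : (p:ℤ) ∣ s - t)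
    (hy : ∀ y, t < y → y < s → (p:ℤ) ∣ y - t → uu y = 0) :
    ‖∑ y ∈ Ico t s, (uu y : ℚ_[p]) / ((y - t : ℤ) : ℚ_[p])‖ ≤ (p:ℝ)⁻¹ := by
  obtain ⟨r1, r2, r3, r4⟩ := rel (mod_ten h10) hq
  rcases gap_cases h10 ht hs hts hd hy with ⟨h1, h2, rfl⟩ | ⟨h1, h2, rfl⟩ | ⟨h1, h2, rfl⟩ | ⟨h1, h2, rfl⟩
  · exact key_aux h10 (sum_uu _ _ (a := 9) (b := 7) (c := 5) (by omega) (by omega) (by omega)
      (by omega) (by omega) (by omega)) (conv h10 (by omega) (by omega) (by omega) (by omega))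
      (conv h10 (by omega) (by omega) (by omega) (by omega))
      (conv h10 (by omega) (by omega) (by omega) (by omega)) r1
  · exact key_aux h10 (sum_uu _ _ (a := 6) (b := 4) (c := 2) (by omega) (by omega) (by omega)
      (by omega) (by omega) (by omega)) (conv h10 (by omega) (by omega) (by omega) (by omega))
      (conv h10 (by omega) (by omega) (by omega) (by omega))
      (conv h10 (by omega) (by omega) (by omega) (by omega)) r2
  · exact key_aux h10 (sum_uu _ _ (a := 6) (b := 4) (c := 2) (by omega) (by omega) (by omega)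
      (by omega) (by omega) (by omega)) (conv h10 (by omega) (by omega) (by omega) (by omega))
      (conv h10 (by omega) (by omega) (by omega) (by omega))
      (conv h10 (by omega) (by omega) (by omega) (by omega)) r3
  · exact key_aux h10 (sum_uu _ _ (a := 9) (b := 7) (c := 5) (by omega) (by omega) (by omega)
      (by omega) (by omega) (by omega)) (conv h10 (by omega) (by omega) (by omega) (by omega))
      (conv h10 (by omega) (by omega) (by omega) (by omega))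
      (conv h10 (by omega) (by omega) (by omega) (by omega)) r4

end

end Pool.Agent.B10
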