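import Pool.Agent.Lib.MP_5e2fbc_nt.B10.Small

/-!
Base ten: the bounds at the primes two and five.
-/

set_option autoImplicit false
set_option linter.unusedSectionVars false

namespace Pool.Agent.B10

open Finset Polynomial Pool.Agent.NW

noncomputable section

variable {p : ℕ} [hp : Fact p.Prime] {s : Finset ℤ}

/-- functions that agree on `s` with an integral polynomial -/
def IP (s : Finset ℤ) (f : ℤ → ℚ_[p]) : Prop :=
  ∃ P : ℤ_[p][X], ∀ t ∈ s, f t = aeval (t : ℚ_[p]) P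

lemma IP.const {c : ℚ_[p]} (hc : ‖c‖ ≤ 1) : IP s fun _ => c := by
  obtain ⟨z, rfl⟩ : ∃ z : ℤ_[p], c = (z : ℚ_[p]) := ⟨⟨c, hc⟩, rfl⟩
  exact ⟨C z, fun _ _ => by rw [aeval_C]; rfl⟩

lemma IP.add {f g : ℤ → ℚ_[p]} (hf : IP s f) (hg : IP s g) : IP s fun t => f t + g t := by
  obtain ⟨P, hP⟩ := hf
  obtain ⟨Q, hQ⟩ := hg
  exact ⟨P + Q, fun j hj => by rw [map_add, ← hP j hj, ← hQ j hj]⟩

lemma IP.mul {f g : ℤ → ℚ_[p]} (hf : IP s f) (hg : IP s g) : IP s fun t => f t * g t := by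
  obtain ⟨P, hP⟩ := hf
  obtain ⟨Q, hQ⟩ := hg
  exact ⟨P * Q, fun j hj => by rw [map_mul, ← hP j hj, ← hQ j hj]⟩

lemma IP.congr {f g : ℤ → ℚ_[p]} (hf : IP s f) (h : ∀ t ∈ s, g t = f t) : IP s g := by
  obtain ⟨P, hP⟩ := hf
  exact ⟨P, fun j hj => by rw [h j hj, hP j hj]⟩

lemma IP.sum {ι : Type*} (u : Finset ι) {f : ι → ℤ → ℚ_[p]} (hf : ∀ i ∈ u, IP s (f i)) :
    IP s fun t => ∑ i ∈ u, f i t := by
  choose! P hP using hf
  exact ⟨∑ i ∈ u, P i, fun t ht => by rw [map_sum]; exact sum_congr rfl fun i hi => hP i hi t ht⟩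

lemma IP.prod {ι : Type*} (u : Finset ι) {f : ι → ℤ → ℚ_[p]} (hf : ∀ i ∈ u, IP s (f i)) :
    IP s fun t => ∏ i ∈ u, f i t := by
  choose! P hP using hf
  exact ⟨∏ i ∈ u, P i, fun t ht => by rw [map_prod]; exact prod_congr rfl fun i hi => hP i hi t ht⟩

lemma IP.int (D : ℤ[X]) : IP s fun t => ((D.eval t : ℤ) : ℚ_[p]) :=
  ⟨D.map (algebraMap ℤ ℤ_[p]), fun t _ => by
    rw [aeval_map_algebraMap]
    simpa using (aeval_algebraMap_apply_eq_algebraMap_eval (A := ℚ_[p]) t D).symm⟩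

lemma IP.lin (y : ℤ) : IP s fun t => ((t - y : ℤ) : ℚ_[p]) := by
  exact (IP.int (X - C y)).congr fun t _ => by simp

lemma IP.nw (c : ℕ → ℤ) (i : ℕ) : IP s fun t => (nw c i t : ℚ_[p]) :=
  (IP.prod (range i) fun l _ => IP.lin (c l)).congr fun t _ => by rw [B10.nw, Int.cast_prod]

lemma IP.inv {y : ℤ} (h : ∀ t ∈ s, ¬ (p:ℤ) ∣ t - y) : IP s fun t => ((t - y : ℤ) : ℚ_[p])⁻¹ := by
  obtain ⟨D, hD⟩ := X_sub_C_dvd_sub_C_eval (p := ∏ t ∈ s, (X - C t : ℤ[X])) (a := y)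
  have h1 : ‖-((eval y (∏ t ∈ s, (X - C t : ℤ[X])) : ℤ) : ℚ_[p])⁻¹‖ = 1 := by
    rw [norm_neg, eval_prod, Int.cast_prod, ← prod_inv_distrib, norm_prod]
    refine prod_eq_one fun t ht => norm_inv_unit fun h2 => h t ht ?_
    rw [← dvd_neg]; simpa using h2
  refine ((IP.const h1.le).mul (IP.int D)).congr fun t ht => ?_
  have h2 := congrArg (eval t) hD
  rw [eval_sub, eval_prod, prod_eq_zero ht (by simp), eval_C, eval_mul, eval_sub, eval_X,
    eval_C, zero_sub] at h2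
  have h3 : ((t - y : ℤ) : ℚ_[p]) ≠ 0 := Int.cast_ne_zero.2 fun h0 => h t ht (by simp [h0])
  have h4 : ((eval y (∏ t ∈ s, (X - C t : ℤ[X])) : ℤ) : ℚ_[p]) ≠ 0 := fun h0 => by
    rw [h0] at h1; simp at h1
  have h5 := congrArg (Int.cast (R := ℚ_[p])) h2
  rw [Int.cast_neg, Int.cast_mul] at h5
  field_simp
  linear_combination -h5

lemma IP.red {f : ℤ → ℚ_[p]} (hf : IP s f) :
    ∃ P : ℤ_[p][X], P.degree < #s ∧ ∀ t ∈ s, f t = aeval (t : ℚ_[p]) P := by
  obtain ⟨P, hP⟩ := hf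
  have hm : (∏ t ∈ s, (X - C (t : ℤ_[p]))).Monic :=
    monic_prod_of_monic _ _ fun _ _ => monic_X_sub_C _
  refine ⟨P %ₘ ∏ t ∈ s, (X - C (t : ℤ_[p])), ?_, fun t ht => ?_⟩
  · have := degree_modByMonic_lt P hm
    rwa [degree_eq_natDegree hm.ne_zero, natDegree_finsetProd_X_sub_C_eq_card] at this
  · rw [hP t ht, aeval_modByMonic_eq_self_of_root]
    rw [map_prod]
    exact prod_eq_zero ht (by simp)

/-- divided differences of integral polynomials are integral -/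
lemma IP.dd {f : ℤ → ℚ_[p]} (hf : IP s f) :
    ‖∑ t ∈ s, f t / ∏ y ∈ s.erase t, ((t - y : ℤ) : ℚ_[p])‖ ≤ 1 := by
  obtain ⟨P, h1, h2⟩ := hf.red
  have h := Lagrange.coeff_eq_sum (s := s) (v := fun t : ℤ => (t : ℚ_[p]))
    (P := P.map (algebraMap _ _)) (Int.cast_injective.injOn) (degree_map_le.trans_lt h1)
  rw [sum_congr rfl fun t ht => by rw [h2 t ht]]
  simp only [eval_map_algebraMap, coeff_map] at h
  simp only [Int.cast_sub]
  rw [← h]
  exact (P.coeff _).2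

lemma newton_ring {R : Type*} [CommRing R] [Nontrivial R] (c : ℕ → R) (d : ℕ) :
    ∀ P : R[X], P.degree < d →
      ∃ lam : ℕ → R, P = ∑ i ∈ range d, C (lam i) * ∏ l ∈ range i, (X - C (c l)) := by
  induction d with
  | zero =>
    intro P hP
    exact ⟨0, by rw [degree_eq_bot.1 (Nat.WithBot.lt_zero_iff.1 hP)]; simp⟩
  | succ d ih =>
    intro P hP
    set N : R[X] := ∏ l ∈ range d, (X - C (c l)) with hN
    have hm : N.Monic := monic_prod_of_monic _ _ fun _ _ => monic_X_sub_C _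
    have hd : N.natDegree = d := by rw [hN, natDegree_finsetProd_X_sub_C_eq_card, card_range]
    obtain ⟨lam, h⟩ := ih (P - C (P.coeff d) * N) (by
      rw [degree_lt_iff_coeff_zero] at hP ⊢
      intro m hm'
      rw [coeff_sub, coeff_C_mul]
      rcases hm'.eq_or_lt with rfl | h1
      · rw [show N.coeff d = 1 from hd ▸ hm.coeff_natDegree]; ring
      · rw [hP m h1, coeff_eq_zero_of_natDegree_lt (p := N) (by omega)]; ring)
    refine ⟨Function.update lam d (P.coeff d), ?_⟩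
    rw [sum_range_succ, Function.update_self, sum_congr rfl fun i hi => by
      rw [Function.update_of_ne (mem_range.1 hi).ne], ← h]
    ring

lemma nw_step (x t : ℤ) (k : ℕ) : nw (fun l => x + 10 * l) (k + 1) (t + 10) =
    nw (fun l => x + 10 * l) (k + 1) t + 10 * (k + 1) * nw (fun l => x + 10 * l) k t := by
  rw [nw, prod_range_succ', nw, prod_range_succ, nw,
    prod_congr rfl (g := fun l : ℕ => t - (x + 10 * l)) fun l _ => by push_cast; ring]
  push_cast; ring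

lemma Phi_step (K : Type*) [Field K] {n : ℕ} {t : ℤ} (h0 : t ∈ rng n) (h1 : t + 10 ∈ rng n) :
    Phi K n (t + 10) = Phi K n t + (-3 * ((t - -9 : ℤ) : K)⁻¹ + -10 * ((t - -1 : ℤ) : K)⁻¹ +
      8 * ((t - -3 : ℤ) : K)⁻¹) := by
  rw [mem_rng] at h0 h1
  set I := Ico (-(170 * n : ℤ) - 10) (170 * n) with hI
  have e1 : Phi K n (t + 10) =
      ∑ y ∈ I, ((uu y * (ind 0 (y + 10) - ind t y) : ℤ) : K) / ((t - y : ℤ) : K) := by
    rw [← sum_subset (s₁ := Ico (-(170 * n : ℤ) - 10) (170 * n - 10)) (s₂ := I)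
      (Ico_subset_Ico_right (by omega)) fun y h2 h3 => by
        rw [hI] at h2; rw [mem_Ico] at h2 h3
        rw [ind, ind, if_pos (by omega), if_pos (by omega)]; simp, Phi]
    refine sum_nbij' (· - 10) (· + 10) ?_ ?_ ?_ ?_ fun y _ => ?_
    · simp only [mem_rng, mem_Ico]; omega
    · simp only [mem_rng, mem_Ico]; omega
    · simp
    · simp
    · have : uu (y - 10) = uu y := by simp only [uu, show (y - 10) % 10 = y % 10 by omega]
      rw [this, sub_add_cancel, show t - (y - 10) = t + 10 - y by ring, ind, ind, ind,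
        if_congr (show t < y - 10 ↔ t + 10 < y by omega) rfl rfl]
  have e2 : Phi K n t = ∑ y ∈ I, ((uu y * (ind 0 y - ind t y) : ℤ) : K) / ((t - y : ℤ) : K) :=
    sum_subset (Ico_subset_Ico_left (by omega)) fun y h2 h3 => by
      rw [hI, mem_Ico] at h2; rw [mem_rng] at h3
      rw [ind, ind, if_neg (by omega), if_neg (by omega)]; simp
  rw [e1, e2, ← sub_eq_iff_eq_add', ← sum_sub_distrib,
    ← sum_subset (s₁ := {-9, -1, -3}) (s₂ := I) (fun y hy => by
      simp only [mem_insert, mem_singleton] at hy; rw [hI, mem_Ico]; omega) fun y _ hy => by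
      simp only [mem_insert, mem_singleton] at hy
      rw [← sub_div, ← Int.cast_sub, show uu y * (ind 0 (y + 10) - ind t y) -
        uu y * (ind 0 y - ind t y) = 0 by
          rw [← mul_sub, uu, ind, ind, ind]; split_ifs <;> omega]
      simp,
    sum_insert (by decide), sum_pair (by decide)]
  simp only [← sub_div, ← Int.cast_sub, ← mul_sub, sub_sub_sub_cancel_right]
  norm_num [uu, ind, div_eq_mul_inv, add_assoc]

variable {n : ℕ}

lemma ip_Phi {a : ℤ} (h0 : 0 ≤ a) (h1 : a < 10) {L : ℕ} (hL : L ≤ 17 * n)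
    (h : ∀ t ∈ ap a L, ¬ (p:ℤ) ∣ t - -9 ∧ ¬ (p:ℤ) ∣ t - -1 ∧ ¬ (p:ℤ) ∣ t - -3) :
    IP (ap a L) fun t => (p : ℚ_[p]) ^ lv p n * Phi ℚ_[p] n t := by
  obtain ⟨P, hP, hP'⟩ := ((((IP.const (Padic.norm_int_le_one (-3))).mul
    (IP.inv fun t ht => (h t ht).1)).add ((IP.const (Padic.norm_int_le_one (-10))).mul
    (IP.inv fun t ht => (h t ht).2.1))).add ((IP.const (Padic.norm_int_le_one 8)).mul
    (IP.inv fun t ht => (h t ht).2.2))).red
  rw [card_ap h0 h1] at hP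
  set x : ℤ := a - 10 * L with hx
  obtain ⟨lam, rfl⟩ := newton_ring (fun l : ℕ => ((x + 10 * l : ℤ) : ℤ_[p])) _ P hP
  have hn : ∀ {z : ℚ_[p]}, ‖z‖ ≤ (p:ℝ) ^ (lv p n : ℝ) → ‖(p : ℚ_[p]) ^ lv p n * z‖ ≤ 1 := fun hz => by
    rw [norm_mul, norm_pow, Padic.norm_p, inv_pow, inv_mul_le_iff₀ (pow_pos p_pos _), mul_one]
    rwa [Real.rpow_natCast] at hz
  rcases Nat.eq_zero_or_pos L with rfl | hL0
  · exact ⟨0, fun t ht => by rw [mem_ap] at ht; omega⟩
  refine ((IP.const (hn (norm_Phi (t := x) (mem_rng.2 (by omega))))).add (IP.sum (range (2 * L))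
    fun k hk => (IP.const (c := (p : ℚ_[p]) ^ lv p n *
      ((lam k : ℚ_[p]) * ((10 * (k + 1) : ℤ) : ℚ_[p])⁻¹)) (hn (nmul (lam k).2 (norm_inv_lv (by
        rw [mem_range] at hk; omega))))).mul (IP.nw (fun l => x + 10 * l) (k + 1)))).congr ?_
  have key : ∀ l : ℕ, l < 2 * L → Phi ℚ_[p] n (x + 10 * l) = Phi ℚ_[p] n x +
      ∑ k ∈ range (2 * L), (lam k : ℚ_[p]) * ((10 * (k + 1) : ℤ) : ℚ_[p])⁻¹ *
        nw (fun l => x + 10 * l) (k + 1) (x + 10 * l) := by
    intro l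
    induction l with
    | zero => intro _; simp [nw, prod_range_succ']
    | succ l ih =>
      intro hl
      have e := hP' (x + 10 * l) (mem_ap.2 (by omega))
      simp only [Int.cast_neg, Int.cast_ofNat] at e
      rw [show x + 10 * ((l + 1 : ℕ) : ℤ) = x + 10 * l + 10 by push_cast; ring,
        Phi_step _ (mem_rng.2 (by omega)) (mem_rng.2 (by omega)), e, ih (by omega), map_sum,
        add_assoc, ← sum_add_distrib]
      congr 1
      refine sum_congr rfl fun k _ => ?_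
      have h2 : ((10 * (k + 1) : ℤ) : ℚ_[p]) ≠ 0 := Int.cast_ne_zero.2 (by omega)
      rw [nw_step, Int.cast_add (nw _ _ _), Int.cast_mul _ (nw _ k _), mul_add (_ * _⁻¹), ← mul_assoc,
        inv_mul_cancel_right₀ h2]
      simp only [nw, map_mul, map_prod, map_sub, aeval_X, aeval_C, map_intCast, Int.cast_prod,
        Int.cast_sub]
      rfl
  intro t ht
  rw [ap_eq_range h0 h1, mem_image] at ht
  obtain ⟨l, hl, rfl⟩ := ht
  rw [key l (mem_range.1 hl), mul_add, mul_sum]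
  simp only [mul_assoc, hx]

/-- the form is almost integral on a good class -/
lemma good_class {a b : ℤ} (h0 : 0 ≤ a) (h1 : a < 10) {L M : ℕ} (hL : L ≤ 17 * n) (hab : a ≠ b)
    (hn : nodes n = ap a L ∪ ap b M) (hu : ∀ t ∈ ap a L, ∀ y ∈ ap b M, ¬ (p:ℤ) ∣ t - y)
    (h : ∀ t ∈ ap a L, ¬ (p:ℤ) ∣ t - -9 ∧ ¬ (p:ℤ) ∣ t - -1 ∧ ¬ (p:ℤ) ∣ t - -3) (c : ℕ → ℤ)
    (i j : ℕ) : ‖∑ t ∈ ap a L, Phi ℚ_[p] n t * wt ℚ_[p] n t *
      ((nw c i t * nw c j t : ℤ) : ℚ_[p])‖ ≤ (p:ℝ) ^ (lv p n : ℝ) := by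
  have h2 := ((((ip_Phi h0 h1 hL h).mul (IP.prod (zeros n) fun y _ => IP.lin y)).mul
    (IP.prod (ap b M) fun y hy => IP.inv fun t ht => hu t ht y hy)).mul
    ((IP.nw c i).mul (IP.nw c j))).dd
  rw [sum_congr rfl (g := fun t => (p : ℚ_[p]) ^ lv p n * (Phi ℚ_[p] n t * wt ℚ_[p] n t *
      ((nw c i t * nw c j t : ℤ) : ℚ_[p]))) fun t ht => by
    rw [wt, hn, erase_union_distrib,
      erase_eq_of_notMem (disjoint_left.1 (ap_disj hab L M) ht),
      prod_union ((ap_disj hab L M).mono_left (erase_subset _ _)), prod_inv_distrib, Int.cast_mul]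
    ring, ← mul_sum, norm_mul, norm_pow, Padic.norm_p, inv_pow,
    inv_mul_le_iff₀ (pow_pos p_pos _), mul_one] at h2
  rwa [Real.rpow_natCast]

lemma two_five {a b : ℤ} (h0 : 0 ≤ a) (h1 : a < 10) {L M : ℕ} (hL : L ≤ 17 * n) (hab : a ≠ b)
    (hn : nodes n = ap a L ∪ ap b M) (hu : ∀ t ∈ ap a L, ∀ y ∈ ap b M, ¬ (p:ℤ) ∣ t - y)
    (h : ∀ t ∈ ap a L, ¬ (p:ℤ) ∣ t - -9 ∧ ¬ (p:ℤ) ∣ t - -1 ∧ ¬ (p:ℤ) ∣ t - -3) {c : ℤ}
    (S : St p p c 1) (b0 : 0 ≤ b) (b1 : b < 10) (hb : ∀ t ∈ ap b M, (p:ℤ) ∣ t - b) {G : ℝ}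
    (hG0 : 0 ≤ G) (hG : ∀ t ∈ ap b M, ‖wt ℚ_[p] n t‖ ≤ (p:ℝ) ^ G) {d : ℕ} (hd : d ≤ 13 * n) :
    ‖hank ℚ_[p] n d‖ ≤ (p:ℝ) ^ (d * (lv p n : ℝ) +
      (G + 3 * lv p n + 2 + 2 * (1 + ((p:ℝ) - 1)⁻¹)) ^ 2 / (4 * (1 + ((p:ℝ) - 1)⁻¹))) := by
  have h2 := p_sub_pos (p := p)
  set w : ℝ := 1 + ((p:ℝ) - 1)⁻¹ with hw
  have hw0 : 0 < w := by positivity
  have h3 := gen (β := Bool) d (fun g => if g then ap a L else ap b M)
    (fun t => Phi ℚ_[p] n t * wt ℚ_[p] n t) (fun _ l => b + 10 * l)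
    (fun g i => if g then lv p n else G + 3 * lv p n + 2 - 2 * w * i) 0 fun g i hi j hj => by
      cases g
      · refine IsUltrametricDist.norm_sum_le_of_forall_le_of_nonneg (by positivity) fun t ht => ?_
        have ht' := nodes_subset n (hn ▸ mem_union_right _ ht)
        rw [Int.cast_mul]
        refine (rmul (rmul (norm_Phi ht') (hG t ht)) (rmul (S.nw b0 b1 (hb t ht) (by omega) ht')
          (S.nw b0 b1 (hb t ht) (by omega) ht'))).trans_eq ?_
        congr 1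
        simp only [Bool.false_eq_true, if_false]
        ring
      · simpa using good_class h0 h1 hL hab hn hu h _ i j
  simp only [Fintype.sum_bool, if_true, Bool.false_eq_true, if_false, ← sum_union (ap_disj hab L M),
    ← hn, sub_zero, zero_mul, zero_add, sum_const, card_range, nsmul_eq_mul] at h3
  rw [hank_eq]
  refine h3.trans (Real.rpow_le_rpow_of_exponent_le one_le_p ?_)
  have h4 := sum_pos_part (β := 2 * w) (by positivity) (G + 3 * lv p n + 2) d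
  have h5 : 0 ≤ (max 0 (G + 3 * lv p n + 2 + 2 * w - 2 * w * d)) ^ 2 / (2 * (2 * w)) := by
    positivity
  rw [max_eq_right (by positivity : 0 ≤ G + 3 * lv p n + 2 + 2 * w)] at h4
  rw [max_eq_right (Nat.cast_nonneg _), show 4 * w = 2 * (2 * w) by ring]
  linarith

lemma unit_Q {b t : ℤ} {M : ℕ} (h : ∀ y ∈ ap b M, ¬ (p:ℤ) ∣ t - y) :
    ‖(∏ y ∈ (ap b M).erase t, ((t - y : ℤ) : ℚ_[p]))⁻¹‖ ≤ (p:ℝ) ^ (0:ℝ) := by
  rw [← prod_inv_distrib, norm_prod, Real.rpow_zero]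
  exact (prod_eq_one fun y hy => norm_inv_unit (h y (mem_of_mem_erase hy))).le

lemma int_W (u : Finset ℤ) (t : ℤ) : ‖∏ y ∈ u, ((t - y : ℤ) : ℚ_[p])‖ ≤ (p:ℝ) ^ (0:ℝ) := by
  rw [← Int.cast_prod, Real.rpow_zero]
  exact Padic.norm_int_le_one _

instance : Fact (Nat.Prime 5) := ⟨Nat.prime_five⟩

theorem hank_two {d : ℕ} (hd : d ≤ 13 * n) : ‖hank ℚ_[2] n d‖ ≤
    (2:ℝ) ^ (d * (lv 2 n : ℝ) + (20 * n + 7 * lv 2 n + 9) ^ 2 / 8) := by
  have S : St 2 (2:ℕ) 5 1 := ⟨by norm_num, by norm_num, by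
    rw [Int.cast_natCast, Padic.norm_p, Real.rpow_neg_one], zero_le_one⟩
  have := two_five (p := 2) (n := n) (a := 2) (b := 5) (by norm_num) (by norm_num) (by omega)
    (by norm_num) rfl (fun t ht y hy => by rw [mem_ap] at ht hy; omega)
    (fun t ht => by rw [mem_ap] at ht; omega) S (by norm_num) (by norm_num)
    (fun t ht => by rw [mem_ap] at ht; omega) (G := 20 * n + 4 * lv 2 n + 3) (by positivity)
    (fun t ht => by
      have ht' := nodes_subset n (mem_union_right _ ht)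
      rw [mem_ap] at ht
      rw [wt_split]
      refine (rmul (rmul (rmul (rmul
        (S.apW (by norm_num) (by norm_num) (by omega) (by omega) ht')
        (S.apW (by norm_num) (by norm_num) (by omega) (by omega) ht'))
        (S.apW (by norm_num) (by norm_num) (by omega) (by omega) ht'))
        (unit_Q fun y hy => by rw [mem_ap] at hy; omega))
        (S.apQ (by norm_num) (by norm_num) (by omega) (by omega) ht')).trans_eq ?_
      congr 1
      push_cast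
      ring) hd
  convert this using 2
  · simp
  · push_cast; ring

theorem hank_five {d : ℕ} (hd : d ≤ 13 * n) : ‖hank ℚ_[5] n d‖ ≤
    (5:ℝ) ^ (d * (lv 5 n : ℝ) + (15 / 2 * n + 5 * lv 5 n + 11 / 2) ^ 2 / 5) := by
  have S : St 5 (5:ℕ) 2 1 := ⟨by norm_num, by norm_num, by
    rw [Int.cast_natCast, Padic.norm_p, Real.rpow_neg_one], zero_le_one⟩
  have := two_five (p := 5) (n := n) (a := 5) (b := 2) (by norm_num) (by norm_num) le_rfl
    (by norm_num) (union_comm _ _) (fun t ht y hy => by rw [mem_ap] at ht hy; omega)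
    (fun t ht => by rw [mem_ap] at ht; omega) S (by norm_num) (by norm_num)
    (fun t ht => by rw [mem_ap] at ht; omega) (G := 15 / 2 * n + 2 * lv 5 n + 1) (by positivity)
    (fun t ht => by
      have ht' := nodes_subset n (mem_union_left _ ht)
      rw [mem_ap] at ht
      rw [wt_split]
      refine (rmul (rmul (rmul (rmul (int_W _ _) (int_W _ _))
        (S.apW (by norm_num) (by norm_num) (by omega) (by omega) ht'))
        (S.apQ (by norm_num) (by norm_num) (by omega) (by omega) ht'))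
        (unit_Q fun y hy => by rw [mem_ap] at hy; omega)).trans_eq ?_
      congr 1
      push_cast
      ring) hd
  convert this using 2
  · simp
  · push_cast; ring

end

end Pool.Agent.B10
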