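import Pool.Agent.Lib.MP_5e2fbc_nt.B10.Medium
import Pool.Agent.Lib.MP_5e2fbc_nt.B10.TwoFive
import Pool.Agent.Lib.MP_5e2fbc_nt.B10.Theta2

/-!
Base ten: the product formula.
-/

set_option autoImplicit false
set_option linter.unusedSectionVars false

namespace Pool.Agent.B10

open Finset Filter Topology Pool.Agent.NW Pool.Agent.Shared.PNTAP

noncomputable section

section
variable {p : ℕ} [hp : Fact p.Prime] {n d : ℕ}

lemma hank_huge (h : 340 * n < p) : ‖hank ℚ_[p] n d‖ ≤ 1 := by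
  have hi : ∀ t ∈ rng n, ∀ y ∈ rng n, ‖((t - y : ℤ) : ℚ_[p])⁻¹‖ ≤ 1 := fun t ht y hy => by
    rw [mem_rng] at ht hy
    have := norm_inv_nat_le (q := p) (k := (t - y).natAbs) (K := 340 * n) (by omega)
    rwa [Nat.log_of_lt h, pow_zero, ← norm_inv_int] at this
  rw [hank_eq]
  simpa using norm_det_le _ (fun _ : Fin d => 1) (fun _ => 1) (fun _ => zero_le_one)
    (fun _ => zero_le_one) fun i j => by
      rw [Matrix.of_apply, one_mul]
      refine IsUltrametricDist.norm_sum_le_of_forall_le_of_nonneg zero_le_one fun t ht => ?_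
      have ht := nodes_subset n ht
      refine nmul (nmul ?_ ?_) (by rw [← Int.cast_pow]; exact Padic.norm_int_le_one _)
      · refine IsUltrametricDist.norm_sum_le_of_forall_le_of_nonneg zero_le_one fun y hy => ?_
        rw [div_eq_mul_inv]
        exact nint _ (hi t ht y hy)
      · rw [wt, div_eq_mul_inv, ← Int.cast_prod, ← prod_inv_distrib]
        refine nint _ ?_
        rw [norm_prod]
        exact prod_le_one (fun _ _ => norm_nonneg _) fun y hy =>
          hi t ht y (nodes_subset n (mem_of_mem_erase hy))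

lemma lg_hank (hx : hank ℚ n d ≠ 0) {E : ℝ} (h : ‖hank ℚ_[p] n d‖ ≤ (p:ℝ) ^ E) :
    lg p (hank ℚ n d) ≤ E * Real.log p := by
  have := lg_le hx ((hank_cast ℚ_[p] n d).symm ▸ h)
  rwa [Real.log_rpow p_pos] at this

lemma lv_log (h : p ≤ 340 * n) : lv p n * Real.log p ≤ 2 * Real.log (340 * n : ℕ) := by
  have h0 := hp.out.pos
  have h1 : (p:ℝ) ^ Nat.log p (340 * n) ≤ (340 * n : ℕ) := by
    exact_mod_cast Nat.pow_log_le_self p (by omega)
  have h2 := Real.log_le_log (pow_pos p_pos _) h1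
  have h3 := Real.log_le_log p_pos (Nat.cast_le.2 h)
  rw [Real.log_pow] at h2
  rw [lv, Nat.cast_succ]
  linarith

lemma lv_le (h : p ≤ 340 * n) : (lv p n : ℝ) ≤ 3 * Real.log (340 * n : ℕ) := by
  have h1 := lv_log h
  have h2 := Real.log_le_log two_pos (show (2:ℝ) ≤ p by exact_mod_cast hp.out.two_le)
  have h3 := Real.log_two_gt_d9
  have h4 := mul_le_mul_of_nonneg_left (show 2 / 3 ≤ Real.log p by linarith)
    (Nat.cast_nonneg (α := ℝ) (lv p n))
  linarith

lemma cst_nonneg {μ : ℝ} (h : 0 ≤ μ) : 0 ≤ cst n d p μ :=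
  add_nonneg (by positivity) (sum_nonneg fun _ _ => by
    split_ifs
    exacts [le_rfl, sum_nonneg fun _ _ => le_max_left _ _])

lemma lg_gen (hx : hank ℚ n d ≠ 0) (h10 : ¬ p ∣ 10) (hn : 85 ≤ n) (hd0 : 0 < d) (hd : d ≤ 13 * n)
    (h : p ≤ 340 * n) {μ : ℝ} (hμ : 0 ≤ μ) : lg p (hank ℚ n d) ≤
      d * (26 * n - d) * (if p ≤ 2 * n then Real.log p / (p - 1) else 0) +
      ((if p ≤ 2 * n then (d + 25 / 16 * p) * Real.log p else 0) +
      (if p ^ 2 ≤ 340 * n then 24 * d * Real.log (340 * n : ℕ) else 0) +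
      (if 2 * n < p then cst n d p μ * Real.log p else 0) +
      d * (if ¬ p ∣ fq 10 p then Real.log p else 0)) := by
  have h0 := p_pos (p := p)
  have h1 := p_sub_pos (p := p)
  have hl : 0 ≤ Real.log p := Real.log_natCast_nonneg p
  have hd' : (d:ℝ) ≤ 13 * n := by exact_mod_cast hd
  have hA : (0:ℝ) ≤ d * (26 * n - d) := mul_nonneg (by positivity) (by linarith)
  have hb : (if p ∣ fq 10 p then (0:ℝ) else 1) * d * Real.log p =
      d * (if ¬ p ∣ fq 10 p then Real.log p else 0) := by split_ifs <;> simp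
  by_cases h2 : p ^ 2 ≤ 340 * n
  · have h3 : p ≤ 2 * n := by nlinarith
    have h4 := lg_hank hx (hank_small h10 hd hd0)
    have h5 := mul_le_mul_of_nonneg_left (lv_log h) (Nat.cast_nonneg (α := ℝ) d)
    have h6 := mul_le_mul_of_nonneg_left (Real.log_le_log h0 (Nat.cast_le.2 h))
      (Nat.cast_nonneg (α := ℝ) d)
    have h7 : (0:ℝ) ≤ d * (if ¬ p ∣ fq 10 p then Real.log p else 0) := by
      split_ifs <;> positivity
    have h8 : (0:ℝ) ≤ (d + 25 / 16 * p) * Real.log p := by positivity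
    rw [if_pos h3, if_pos h3, if_pos h2, if_neg (by omega), ← mul_div_assoc, mul_div_right_comm]
    linarith
  rw [if_neg h2, ← hb]
  by_cases h3 : p ≤ 2 * n
  · obtain ⟨ν, h4, h5⟩ := cst_medium h10 hd
    have h6 := lg_hank hx (hank_big h10 (not_le.1 h2) hd h4)
    have h7 := mul_le_mul_of_nonneg_right h5 hl
    have h8 := mul_le_mul_of_nonneg_right
      (div_le_div_of_nonneg_left hA (by linarith) (by linarith : (p:ℝ) - 1 ≤ p)) hl
    rw [if_pos h3, if_pos h3, if_neg (by omega), ← mul_div_assoc, mul_div_right_comm]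
    linarith
  · have h6 := lg_hank hx (hank_big h10 (not_le.1 h2) hd hμ)
    rw [if_neg h3, if_neg h3, if_pos (by omega)]
    linarith

end

/-- primes that are not Wieferich primes in base ten -/
def Bad (p : ℕ) : Prop := ¬ p ∣ fq 10 p

theorem master {n d : ℕ} (hx : hank ℚ n d ≠ 0) (hn : 85 ≤ n) (hd0 : 0 < d) (hd : d ≤ 13 * n)
    (μ : ℕ → ℝ) (hμ : ∀ p, 0 ≤ μ p) : 0 ≤ Real.log |hank ℝ n d| +
      (d * (lv 2 n : ℝ) + (20 * n + 7 * lv 2 n + 9) ^ 2 / 8) * Real.log 2 +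
      (d * (lv 5 n : ℝ) + (15 / 2 * n + 5 * lv 5 n + 11 / 2) ^ 2 / 5) * Real.log 5 +
      d * (26 * n - d) * (∑ p ∈ Icc 1 (2 * n) with p.Prime, Real.log p / ((p:ℝ) - 1) -
        Real.log 2 - Real.log 5 / 4) +
      ∑ p ∈ Icc 1 (2 * n) with p.Prime, (d + 25 / 16 * p : ℝ) * Real.log p +
      √(340 * n : ℕ) * (24 * d * Real.log (340 * n : ℕ)) +
      ∑ p ∈ Ioc (2 * n) (340 * n) with p.Prime, cst n d p (μ p) * Real.log p +
      d * thb Bad (340 * n) := by
  classical
  set S := {p ∈ Icc 1 (340 * n) | p.Prime} with hS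
  have h2S : 2 ∈ S := mem_filter.2 ⟨mem_Icc.2 (by omega), Nat.prime_two⟩
  have h5S : 5 ∈ S.erase 2 :=
    mem_erase.2 ⟨by norm_num, mem_filter.2 ⟨mem_Icc.2 (by omega), Nat.prime_five⟩⟩
  have h1 := prodform hx S (fun p hp => (mem_filter.1 hp).2) fun p hp hn => by
    have := Fact.mk hp
    have h2 : 340 * n < p := by
      by_contra h3
      exact hn (mem_filter.2 ⟨mem_Icc.2 ⟨hp.pos, not_lt.1 h3⟩, hp⟩)
    simpa using lg_hank (p := p) hx (E := 0) (by simpa using hank_huge h2)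
  have h2 := lg_hank (p := 2) hx (hank_two hd)
  have h5 := lg_hank (p := 5) hx (hank_five hd)
  have hl : 0 ≤ 24 * d * Real.log (340 * n : ℕ) :=
    mul_nonneg (by positivity) (Real.log_natCast_nonneg _)
  have h3 := sum_le_sum (s := (S.erase 2).erase 5) fun p hp =>
    have hpp := mem_filter.1 (mem_of_mem_erase (mem_of_mem_erase hp))
    have := Fact.mk hpp.2
    lg_gen (p := p) hx (fun h => by
      have a1 := (mem_erase.1 hp).1
      have a2 := (mem_erase.1 (mem_erase.1 hp).2).1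
      rcases (Nat.Prime.dvd_mul hpp.2 (m := 2) (n := 5)).1 h with h | h
      exacts [a2 ((Nat.prime_dvd_prime_iff_eq hpp.2 Nat.prime_two).1 h),
        a1 ((Nat.prime_dvd_prime_iff_eq hpp.2 Nat.prime_five).1 h)]) hn hd0 hd
      (mem_Icc.1 hpp.1).2 (hμ p)
  rw [sum_add_distrib, ← mul_sum] at h3
  have h4 := sum_le_sum_of_subset_of_nonneg ((erase_subset 5 _).trans (erase_subset 2 S))
    (f := fun p => (if p ≤ 2 * n then (d + 25 / 16 * p : ℝ) * Real.log p else 0) +
      (if p ^ 2 ≤ 340 * n then 24 * d * Real.log (340 * n : ℕ) else 0) +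
      (if 2 * n < p then cst n d p (μ p) * Real.log p else 0) +
      d * (if ¬ p ∣ fq 10 p then Real.log p else 0)) fun p hp _ => by
        have := Fact.mk (mem_filter.1 hp).2
        have := Real.log_natCast_nonneg p
        have := cst_nonneg (n := n) (d := d) (p := p) (hμ p)
        split_ifs <;> positivity
  have e1 : {p ∈ S | p ≤ 2 * n} = {p ∈ Icc 1 (2 * n) | p.Prime} := by
    ext p; simp only [hS, mem_filter, mem_Icc]
    exact ⟨fun h => ⟨⟨h.1.1.1, h.2⟩, h.1.2⟩, fun h => ⟨⟨by omega, h.2⟩, h.1.2⟩⟩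
  have e2 : {p ∈ S | 2 * n < p} = {p ∈ Ioc (2 * n) (340 * n) | p.Prime} := by
    ext p; simp only [hS, mem_filter, mem_Icc, mem_Ioc]
    exact ⟨fun h => ⟨⟨h.2, h.1.1.2⟩, h.1.2⟩, fun h => ⟨⟨by omega, h.2⟩, h.1.1⟩⟩
  have e3 : ∑ p ∈ S with ¬ p ∣ fq 10 p, Real.log p = thb Bad (340 * n) := by
    rw [thb, hS, filter_filter]; congr
  rw [sum_add_distrib (s := S), sum_add_distrib (s := S), sum_add_distrib (s := S), ← mul_sum,
    ← sum_filter, ← sum_filter, ← sum_filter, ← sum_filter, e1, e2, e3, sum_const,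
    nsmul_eq_mul] at h4
  have h6 : ((#{p ∈ S | p ^ 2 ≤ 340 * n} : ℕ) : ℝ) ≤ √(340 * n : ℕ) := by
    refine le_trans ?_ Real.nat_sqrt_le_real_sqrt
    rw [Nat.cast_le]
    refine (card_le_card (t := Icc 1 (Nat.sqrt (340 * n))) fun p hp => ?_).trans (by simp)
    rw [mem_filter, mem_filter, mem_Icc] at hp
    exact mem_Icc.2 ⟨hp.1.1.1, Nat.le_sqrt'.2 hp.2⟩
  have h7 := mul_le_mul_of_nonneg_right h6 hl
  have e4 : ∑ p ∈ (S.erase 2).erase 5, (if p ≤ 2 * n then Real.log p / ((p:ℝ) - 1) else 0) =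
      ∑ p ∈ Icc 1 (2 * n) with p.Prime, Real.log p / ((p:ℝ) - 1) - Real.log 2 - Real.log 5 / 4 := by
    rw [← e1, sum_filter, ← add_sum_erase _ _ h2S, ← add_sum_erase _ _ h5S, if_pos (by omega),
      if_pos (by omega)]
    norm_num
  rw [← add_sum_erase _ _ h2S, ← add_sum_erase _ _ h5S, hank_cast] at h1
  rw [e4] at h3
  simp only [Nat.cast_ofNat] at h2 h5
  linarith

lemma ev_log (A : ℝ) : ∀ᶠ n : ℕ in atTop, A * (√(340 * n : ℕ) * Real.log (340 * n : ℕ)) ≤ n := by
  have h1 := (tendsto_natCast_atTop_atTop.comp (tendsto_id.const_mul_atTop' (r := 340) (by norm_num))).eventually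
    ((isLittleO_log_rpow_atTop (r := 1 / 2) (by norm_num)).bound (c := 1 / (340 * (|A| + 1)))
      (by positivity))
  filter_upwards [h1] with n h
  simp only [Function.comp, id, Real.norm_eq_abs, ← Real.sqrt_eq_rpow,
    abs_of_nonneg (Real.sqrt_nonneg _), abs_of_nonneg (Real.log_natCast_nonneg _)] at h
  have h2 := mul_le_mul_of_nonneg_left h (Real.sqrt_nonneg (340 * n : ℕ))
  rw [mul_left_comm, Real.mul_self_sqrt (Nat.cast_nonneg _)] at h2
  have h3 : 0 ≤ √(340 * n : ℕ) * Real.log (340 * n : ℕ) :=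
    mul_nonneg (Real.sqrt_nonneg _) (Real.log_natCast_nonneg _)
  calc _ ≤ (|A| + 1) * (√(340 * n : ℕ) * Real.log (340 * n : ℕ)) :=
        mul_le_mul_of_nonneg_right (by linarith [le_abs_self A]) h3
    _ ≤ (|A| + 1) * (1 / (340 * (|A| + 1)) * (340 * n : ℕ)) := by gcongr
    _ = n := by push_cast; field_simp

lemma medsum : ∀ᶠ n : ℕ in atTop, ∀ d : ℝ, d ≤ 10.01 * n →
    ∑ p ∈ Icc 1 (2 * n) with p.Prime, (d + 25 / 16 * p : ℝ) * Real.log p ≤ 23.3 * (n:ℝ) ^ 2 := by
  have h1 := (theta_mul (q := 1) (a := 1) isUnit_one two_pos).eventually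
    (gt_mem_nhds (a := 2.01) (by norm_num))
  have h2 := (theta2_mul (q := 1) (a := 1) isUnit_one two_pos).eventually
    (gt_mem_nhds (a := 2.01) (by norm_num))
  filter_upwards [h1, h2, eventually_gt_atTop 0] with n h1 h2 hn d hd
  have hn' : (0:ℝ) < n := by exact_mod_cast hn
  rw [div_lt_iff₀ (by positivity)] at h1 h2
  simp only [thetaAP, theta2, Subsingleton.elim _ (1 : ZMod 1), and_true,
    show ⌊(2 * n : ℝ)⌋₊ = 2 * n by rw [← Nat.floor_natCast (R := ℝ) (2 * n)]; simp] at h1 h2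
  simp only [add_mul, mul_assoc, sum_add_distrib, ← mul_sum]
  have h3 : 0 ≤ ∑ p ∈ Icc 1 (2 * n) with p.Prime, Real.log p :=
    sum_nonneg fun p _ => Real.log_natCast_nonneg p
  nlinarith

end

end Pool.Agent.B10
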