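import Pool.Agent.Lib.MP_5e2fbc_nt.B10.Small

/-!
Base ten: the cost of the primes of medium size.
-/

set_option autoImplicit false
set_option linter.unusedSectionVars false

namespace Pool.Agent.B10

open Finset Pool.Agent.NW

noncomputable section

variable {p : ℕ} [hp : Fact p.Prime]

lemma card_disc_ap (h10 : ¬ p ∣ 10) {a : ℤ} (h0 : 0 ≤ a) (h1 : a < 10) (L : ℕ) (r : ℤ) :
    2 * L / p ≤ #(disc (ap a L) p r) ∧ #(disc (ap a L) p r) ≤ 2 * L / p + 1 := by
  have hp0 := p_pos (p := p)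
  obtain ⟨h2, h3⟩ := count_ap_lt hp.out.pos (coprime_ten h10).neg_right (a - 10 * L - 10 * r) (2 * L)
  have e : #(disc (ap a L) p r) =
      #{l ∈ range (2 * L) | (p:ℤ) ∣ a - 10 * L - 10 * r - -10 * (l:ℕ)} := by
    rw [disc, ap_eq_range h0 h1, filter_image, card_image_of_injective _ fun i j h => by simpa using h]
    congr 1
    exact filter_congr fun l _ => by
      rw [show a - 10 * L + 10 * l - 10 * r = a - 10 * L - 10 * r - -10 * l by ring]
  rw [← e] at h2 h3
  have h4 := Nat.cast_div_le (α := ℝ) (m := 2 * L) (n := p)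
  have h5 : ((2 * L : ℕ) : ℝ) / p < (2 * L / p : ℕ) + 1 := by
    rw [div_lt_iff₀ hp0]
    exact_mod_cast (by rw [mul_comm _ p]; exact Nat.lt_mul_div_succ _ hp.out.pos :
      2 * L < (2 * L / p + 1) * p)
  constructor
  · exact Nat.lt_add_one_iff.1 (by exact_mod_cast (by linarith : ((2 * L / p : ℕ) : ℝ) <
      #(disc (ap a L) p r) + 1))
  · exact Nat.lt_add_one_iff.1 (by exact_mod_cast (by linarith : (#(disc (ap a L) p r) : ℝ) <
      (2 * L / p : ℕ) + 1 + 1))

lemma card_disc_union {s t : Finset ℤ} (h : Disjoint s t) (r : ℤ) :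
    #(disc (s ∪ t) p r) = #(disc s p r) + #(disc t p r) := by
  rw [disc, filter_union, card_union_of_disjoint (disjoint_filter_filter h)]; rfl

lemma gg_range (h10 : ¬ p ∣ 10) (n : ℕ) : ∃ g : ℤ, ∀ r, g ≤ gg n p r ∧ gg n p r ≤ g + 5 := by
  refine ⟨(2 * (8 * n) / p : ℕ) + (2 * (17 * n) / p : ℕ) - (2 * (2 * n) / p : ℕ) -
    2 * (2 * (5 * n) / p : ℕ) - 3, fun r => ?_⟩
  have a1 := card_disc_ap h10 (a := 2) (by norm_num) (by norm_num) (8 * n) r
  have a2 := card_disc_ap h10 (a := 5) (by norm_num) (by norm_num) (17 * n) r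
  have a3 := card_disc_ap h10 (a := 1) (by norm_num) (by norm_num) (2 * n) r
  have a4 := card_disc_ap h10 (a := 9) (by norm_num) (by norm_num) (5 * n) r
  have a5 := card_disc_ap h10 (a := 7) (by norm_num) (by norm_num) (5 * n) r
  rw [gg, nodes, zeros, card_disc_union (ap_disj (by norm_num) _ _),
    card_disc_union (zeros_disj n), card_disc_union (ap_disj (by norm_num) _ _)]
  omega

lemma gg_sum (h10 : ¬ p ∣ 10) (n : ℕ) : ∑ r ∈ range p, (gg n p r : ℝ) = 26 * n := by
  have h1 := sum_disc h10 (nodes n) fun _ => (1:ℝ)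
  have h2 := sum_disc h10 (zeros n) fun _ => (1:ℝ)
  simp only [sum_const, nsmul_eq_mul, mul_one, card_nodes, card_zeros] at h1 h2
  simp only [gg, Int.cast_sub, Int.cast_natCast, sum_sub_distrib, ← h1, ← h2]
  push_cast; ring

theorem cst_medium (h10 : ¬ p ∣ 10) {n d : ℕ} (hd : d ≤ 13 * n) :
    ∃ μ, 0 ≤ μ ∧ cst n d p μ ≤ d * (26 * n - d) / p + d + 25 / 16 * p := by
  classical
  have hp0 := p_pos (p := p)
  have hd' : (d:ℝ) ≤ 13 * n := by exact_mod_cast hd
  obtain ⟨g, hg⟩ := gg_range h10 n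
  refine ⟨(26 * n - 2 * d) / p + 1, add_nonneg (div_nonneg (by linarith) hp0.le) zero_le_one, ?_⟩
  have h1 : ∀ r ∈ range p, (if Good n p r then 0 else
      ∑ i ∈ range d, max 0 (gg n p r - ((26 * n - 2 * d) / p + 1) - 2 * i : ℝ)) ≤
      (25 / 4 + 2 * (g + 5 / 2 - 26 * n / p + 2 * d / p) * (gg n p r - 26 * n / p) +
        (2 * d / p) ^ 2) / 4 := fun r _ => by
    have h2 : (g:ℝ) ≤ gg n p r := by exact_mod_cast (hg r).1
    have h3 : (gg n p r : ℝ) ≤ g + 5 := by exact_mod_cast (hg r).2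
    have h4 : (gg n p r - ((26 * n - 2 * d) / p + 1) + 1 : ℝ) ^ 2 ≤
        25 / 4 + 2 * (g + 5 / 2 - 26 * n / p + 2 * d / p) * (gg n p r - 26 * n / p) +
          (2 * d / p) ^ 2 := by
      rw [sub_div]
      nlinarith [sq_nonneg (g + 5 / 2 - 26 * n / p : ℝ), mul_nonneg (sub_nonneg.2 h2) (sub_nonneg.2 h3)]
    split_ifs
    · exact div_nonneg ((sq_nonneg _).trans h4) (by norm_num)
    · refine (sum_two_step _ _).trans (div_le_div_of_nonneg_right (le_trans ?_ h4) (by norm_num))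
      rcases le_total 0 (gg n p r - ((26 * n - 2 * d) / p + 1) + 1 : ℝ) with h | h
      · rw [max_eq_right h]
      · rw [max_eq_left h]; simpa using sq_nonneg _
  refine (add_le_add_right (sum_le_sum h1) _).trans_eq ?_
  simp only [← sum_div, sum_add_distrib, ← mul_sum, sum_sub_distrib, gg_sum h10, sum_const,
    card_range, nsmul_eq_mul]
  field_simp
  ring

end

end Pool.Agent.B10
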