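import Pool.Agent.Lib.MP_5e2fbc_nt.B10.Theta2

/-!
An upper bound of Mertens type with an explicit constant.
-/

set_option autoImplicit false

namespace Pool.Agent.B10

open Finset Filter Topology Pool.Agent.Shared.PNTAP Pool.Agent.NW Chebyshev

lemma log_fact_le (m : ℕ) (hm : 1 ≤ m) :
    Real.log m.factorial ≤ (m + 1) * Real.log m - m + 1 := by
  induction m, hm using Nat.le_induction with
  | base => simp
  | succ m hm ih =>
    have h0 : (0 : ℝ) < m := by exact_mod_cast hm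
    have h1 := Real.log_le_sub_one_of_pos (show (0 : ℝ) < m / (m + 1) by positivity)
    rw [Real.log_div h0.ne' (by positivity)] at h1
    have h2 : (m + 1 : ℝ) * (m / (m + 1) - 1) = -1 := by field_simp; ring
    rw [Nat.factorial_succ, Nat.cast_mul, Real.log_mul (by positivity) (by positivity)]
    push_cast
    nlinarith [mul_le_mul_of_nonneg_left h1 (by positivity : (0 : ℝ) ≤ m + 1)]

lemma theta_eq_ite {m : ℕ} {x : ℝ} (h0 : 0 ≤ x) (hx : x ≤ m) :
    θ x = ∑ p ∈ Nat.primesLE m, if (p : ℝ) ≤ x then Real.log p else 0 := by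
  rw [theta_eq_sum_primesLE, ← sum_filter]
  refine sum_congr ?_ fun _ _ => rfl
  ext p
  simp only [mem_filter, Nat.mem_primesLE, Nat.le_floor_iff h0]
  exact ⟨fun h => ⟨⟨by exact_mod_cast h.1.trans hx, h.2⟩, h.1⟩, fun h => ⟨h.2, h.1.2⟩⟩

lemma mert_key {J y : ℕ} (hJ : 1 ≤ J) :
    (J * y : ℕ) * ∑ p ∈ Icc 1 y with p.Prime, Real.log p / ((p : ℝ) - 1) +
        ∑ j ∈ Icc 1 J, θ ((J : ℝ) / j * y) ≤
      Real.log (J * y).factorial + (J + 2) * θ y + (ψ (J * y : ℕ) - θ (J * y : ℕ)) := by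
  set m := J * y with hm
  have hy : y ≤ m := Nat.le_mul_of_pos_left y hJ
  have h1 := sum_val_le m.factorial (Nat.primesLE m) fun p hp => (Nat.mem_primesLE.1 hp).2
  have h2 : ∑ p ∈ Icc 1 y with p.Prime, Real.log p / ((p : ℝ) - 1) =
      ∑ p ∈ Nat.primesLE m, if p ≤ y then Real.log p / ((p : ℝ) - 1) else 0 := by
    rw [← sum_filter]
    refine sum_congr ?_ fun _ _ => rfl
    ext p
    simp only [mem_filter, Nat.mem_primesLE, mem_Icc]
    exact ⟨fun h => ⟨⟨h.1.2.trans hy, h.2⟩, h.1.2⟩, fun h => ⟨⟨h.1.2.one_le, h.2⟩, h.1.2⟩⟩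
  have h3 : ∀ j ∈ Icc 1 J, θ ((J : ℝ) / j * y) =
      ∑ p ∈ Nat.primesLE m, if j * p ≤ m then Real.log p else 0 := fun j hj => by
    have a1 : (1 : ℝ) ≤ j := by exact_mod_cast (mem_Icc.1 hj).1
    rw [theta_eq_ite (m := m) (by positivity) (by
      rw [hm, Nat.cast_mul]
      gcongr
      exact div_le_self (by positivity) a1)]
    refine sum_congr rfl fun p _ => if_congr ?_ rfl rfl
    rw [div_mul_eq_mul_div, le_div_iff₀ (by linarith), hm, mul_comm]
    exact_mod_cast Iff.rfl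
  rw [h2, sum_congr rfl h3, sum_comm, theta_eq_ite (m := m) (by positivity) (by exact_mod_cast hy),
    psi_eq_sum_mul_log_prime, theta_eq_sum_primesLE_log, mul_sum, mul_sum, ← sum_add_distrib,
    ← sum_sub_distrib]
  refine le_trans ?_ (add_le_add_left (add_le_add_left h1 _) _)
  rw [← sum_add_distrib, ← sum_add_distrib]
  refine sum_le_sum fun p hp => ?_
  obtain ⟨a1, a2⟩ := Nat.mem_primesLE.1 hp
  have := Fact.mk a2
  have a3 : 0 ≤ Real.log p := Real.log_natCast_nonneg p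
  have a4 : (1 : ℝ) < p := by exact_mod_cast a2.one_lt
  rw [← sum_filter, sum_const, nsmul_eq_mul]
  simp only [Nat.cast_le]
  split_ifs with h
  · have b1 : (#{j ∈ Icc 1 J | j * p ≤ m} : ℝ) ≤ J := by
      exact_mod_cast (card_filter_le _ _).trans (by simp)
    have b2 : (m : ℝ) / (p - 1) ≤ padicValNat p m.factorial + Nat.log p m + 1 := by
      rw [div_le_iff₀' (by linarith)]
      have := factorial_val (q := p) m
      rw [← Nat.cast_le (α := ℝ), Nat.cast_mul (p - 1), Nat.cast_sub a2.one_le] at this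
      exact_mod_cast this
    rw [← mul_div_assoc, mul_div_right_comm]
    nlinarith [mul_le_mul_of_nonneg_right b1 a3, mul_le_mul_of_nonneg_right b2 a3]
  · have b1 : 1 ≤ Nat.log p m := Nat.log_pos a2.one_lt a1
    have b2 : #{j ∈ Icc 1 J | j * p ≤ m} ≤ padicValNat p m.factorial := by
      rw [padicValNat_factorial (Nat.lt_succ_self _)]
      refine le_trans ?_ (single_le_sum (f := fun i => m / p ^ i) (fun _ _ => Nat.zero_le _)
        (mem_Ico.2 ⟨le_rfl, Nat.lt_succ_of_le b1⟩))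
      refine (card_le_card (t := Icc 1 (m / p)) fun j hj => ?_).trans (by simp)
      obtain ⟨c1, c2⟩ := mem_filter.1 hj
      exact mem_Icc.2 ⟨(mem_Icc.1 c1).1, (Nat.le_div_iff_mul_le a2.pos).2 c2⟩
    have b3 : (1 : ℝ) ≤ Nat.log p m := by exact_mod_cast b1
    have b4 : (#{j ∈ Icc 1 J | j * p ≤ m} : ℝ) ≤ padicValNat p m.factorial := by exact_mod_cast b2
    nlinarith [mul_le_mul_of_nonneg_right b3 a3, mul_le_mul_of_nonneg_right b4 a3]

lemma harm_ge : (6.124 : ℝ) ≤ ∑ j ∈ Icc 1 256, ((j : ℕ) : ℝ)⁻¹ := by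
  have h : 6124000 ≤ ∑ j ∈ Icc 1 256, 1000000 / j := by decide +kernel
  have h1 : ((∑ j ∈ Icc 1 256, 1000000 / j : ℕ) : ℝ) ≤
      1000000 * ∑ j ∈ Icc 1 256, ((j : ℕ) : ℝ)⁻¹ := by
    rw [Nat.cast_sum, mul_sum]
    exact sum_le_sum fun j _ => Nat.cast_div_le.trans (by rw [div_eq_mul_inv]; norm_num)
  have h2 : ((6124000 : ℕ) : ℝ) ≤ _ := (Nat.cast_le.2 h).trans h1
  push_cast at h2
  linarith

theorem mert' : ∀ᶠ y : ℕ in atTop,
    ∑ p ∈ Icc 1 y with p.Prime, Real.log p / ((p : ℝ) - 1) ≤ Real.log y - 0.565 := by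
  obtain ⟨C, hC⟩ := psi_sub_theta_le_mul_sqrt
  have t0 : Tendsto (fun y : ℕ => (y : ℝ)) atTop atTop := tendsto_natCast_atTop_atTop
  have t1 : ∀ c : ℝ, 0 < c → Tendsto (fun y : ℕ => θ (c * y) / (256 * y)) atTop (𝓝 (c / 256)) :=
    fun c hc => by
      have := (theta_pnt.comp (t0.const_mul_atTop hc)).const_mul (c / 256)
      rw [mul_one] at this
      refine this.congr' ?_
      filter_upwards [eventually_gt_atTop 0] with y hy
      simp only [Function.comp]
      field_simp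
  have t2 := tendsto_finsetSum (Icc 1 256) fun (j : ℕ) hj => t1 (((256 : ℕ) : ℝ) / j) (by
    have := (mem_Icc.1 hj).1
    positivity)
  have t3 := (t1 1 one_pos).const_mul 258
  have t4 : Tendsto (fun y : ℕ => (256 * y : ℝ)) atTop atTop := t0.const_mul_atTop (by norm_num)
  have t5 := Real.isLittleO_log_id_atTop.tendsto_div_nhds_zero.comp t4
  have t6 := tendsto_inv_atTop_zero.comp t4
  have t7 := (tendsto_inv_atTop_zero.comp (Real.tendsto_sqrt_atTop.comp t4)).const_mul C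
  have t8 := (((t3.sub t2).add t5).add t6).add t7
  have h1 : ∑ j ∈ Icc 1 256, ((256 : ℕ) : ℝ) / (j : ℕ) / 256 = ∑ j ∈ Icc 1 256, ((j : ℕ) : ℝ)⁻¹ :=
    sum_congr rfl fun j _ => by push_cast; ring
  rw [h1] at t8
  filter_upwards [t8.eventually (gt_mem_nhds (a := -5.112) (by linarith [harm_ge])),
    eventually_gt_atTop 0] with y h2 hy
  have h3 := mert_key (y := y) (show 1 ≤ 256 by norm_num)
  have h4 := log_fact_le (256 * y) (by omega)
  have h5 := hC (256 * y : ℕ)
  have hy0 : (0 : ℝ) < 256 * y := by positivity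
  have h6 : √(256 * y : ℝ) = 256 * y * (√(256 * y : ℝ))⁻¹ := by
    rw [← div_eq_mul_inv, Real.div_sqrt]
  have h7 : Real.log (256 * y) = 8 * Real.log 2 + Real.log y := by
    rw [Real.log_mul (by norm_num) (by positivity), show (256 : ℝ) = 2 ^ 8 by norm_num,
      Real.log_pow]
    norm_num
  have h8 := Real.log_two_lt_d9
  simp only [Function.comp, id, one_mul, ← sum_div] at h2
  push_cast at h2 h3 h4 h5
  rw [h6] at h5
  refine le_of_mul_le_mul_left ?_ hy0
  have h9 := mul_lt_mul_of_pos_left h2 hy0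
  simp only [mul_add, mul_sub, mul_left_comm _ (258 : ℝ), mul_div_cancel₀ _ hy0.ne',
    mul_inv_cancel₀ hy0.ne'] at h9
  nlinarith [mul_lt_mul_of_pos_left h8 hy0]

theorem mert : ∀ᶠ n : ℕ in atTop,
    ∑ p ∈ Icc 1 (2 * n) with p.Prime, Real.log p / ((p : ℝ) - 1) ≤ Real.log (2 * n) - 0.565 := by
  filter_upwards [(tendsto_id.const_mul_atTop' (show 0 < 2 by norm_num)).eventually mert']
    with n hn
  simpa using hn

end Pool.Agent.B10
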