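import Pool.Agent.Lib.MP_5e2fbc_nt.B10.Defs

/-!
Base ten: local estimates on one disc, used for the non-vanishing of the determinant.
-/

set_option autoImplicit false

namespace Pool.Agent.B10.NV

open Finset Polynomial Pool.Agent.NW

noncomputable section

variable {p : ℕ} [hp : Fact p.Prime]

lemma nunit {z : ℤ} (h : ¬ (p : ℤ) ∣ z) : ‖(z : ℚ_[p])‖ = 1 :=
  le_antisymm (Padic.norm_int_le_one z) (not_lt.1 fun h' => h (Padic.norm_intCast_lt_one_iff.1 h'))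

lemma nsmall {z : ℤ} (h0 : z ≠ 0) (h : |z| < p) : ‖(z : ℚ_[p])‖ = 1 :=
  nunit fun hd => absurd (Int.le_of_dvd (abs_pos.2 h0) ((dvd_abs _ _).2 hd)) (not_le.2 h)

lemma nexact {z : ℤ} (h0 : z ≠ 0) (hd : (p : ℤ) ∣ z) (h : |z| < (p : ℤ) ^ 2) :
    ‖(z : ℚ_[p])‖ = (p : ℝ)⁻¹ := by
  obtain ⟨S, rfl⟩ := hd
  have hp0 : (0 : ℤ) < p := by exact_mod_cast hp.out.pos
  rw [abs_mul, abs_of_pos hp0, sq] at h
  rw [Int.cast_mul, norm_mul, nsmall (right_ne_zero_of_mul h0) (lt_of_mul_lt_mul_left h hp0.le),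
    Int.cast_natCast, Padic.norm_p, mul_one]

lemma nsum_lt {ι : Type*} (s : Finset ι) (f : ι → ℚ_[p]) {b : ℝ} (hb : 0 < b)
    (h : ∀ i ∈ s, ‖f i‖ < b) : ‖∑ i ∈ s, f i‖ < b := by
  classical
  induction s using Finset.induction_on with
  | empty => simpa using hb
  | insert a s ha ih =>
    rw [sum_insert ha]
    exact (IsUltrametricDist.norm_add_le_max _ _).trans_lt
      (max_lt (h a (mem_insert_self _ _)) (ih fun i hi => h i (mem_insert_of_mem hi)))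

/-- ultrametric diagonal dominance -/
lemma det_ne_zero_of_dom {ι : Type*} [Fintype ι] [DecidableEq ι] (G : Matrix ι ι ℚ_[p])
    (h0 : ∀ i, G i i ≠ 0) (h : ∀ i j, i ≠ j → ‖G i j‖ ^ 2 < ‖G i i‖ * ‖G j j‖) : G.det ≠ 0 := by
  intro hd
  obtain ⟨v, hv, h1⟩ := Matrix.exists_mulVec_eq_zero_iff.2 hd
  obtain ⟨k, hk⟩ := Function.ne_iff.1 hv
  obtain ⟨i, -, hi⟩ := exists_max_image univ (fun i => ‖G i i‖ * ‖v i‖ ^ 2) ⟨k, mem_univ k⟩
  have h2 : 0 < ‖G i i‖ * ‖v i‖ ^ 2 := lt_of_lt_of_le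
    (mul_pos (norm_pos_iff.2 (h0 k)) (pow_pos (norm_pos_iff.2 hk) 2)) (hi k (mem_univ k))
  have h3 := norm_pos_iff.2 (h0 i)
  have h4 : 0 < ‖v i‖ := norm_pos_iff.2 fun h => by simp [h] at h2
  have h5 := congrFun h1 i
  rw [Matrix.mulVec, dotProduct, ← add_sum_erase _ _ (mem_univ i), Pi.zero_apply,
    add_eq_zero_iff_eq_neg] at h5
  have h6 := nsum_lt (univ.erase i) (fun j => G i j * v j) (mul_pos h3 h4) fun j hj => by
    rcases eq_or_ne (v j) 0 with h7 | h7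
    · simpa [h7] using mul_pos h3 h4
    refine lt_of_pow_lt_pow_left₀ 2 (by positivity) ?_
    have a1 := h i j (ne_of_mem_erase hj).symm
    have a2 := hi j (mem_univ j)
    have a3 := pow_pos (norm_pos_iff.2 h7) 2
    rw [norm_mul, mul_pow]
    calc ‖G i j‖ ^ 2 * ‖v j‖ ^ 2 < ‖G i i‖ * ‖G j j‖ * ‖v j‖ ^ 2 := by gcongr
      _ = ‖G i i‖ * (‖G j j‖ * ‖v j‖ ^ 2) := by ring
      _ ≤ ‖G i i‖ * (‖G i i‖ * ‖v i‖ ^ 2) := by gcongr
      _ = _ := by ring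
  rw [← norm_neg, ← h5, norm_mul] at h6
  exact lt_irrefl _ h6

variable (p) in
/-- the modified combination of harmonic sums -/
def FF (n : ℕ) (c : ℚ_[p]) (e : ℤ → ℚ_[p]) (t : ℤ) : ℚ_[p] :=
  Phi ℚ_[p] n t + c + ∑ y ∈ zeros n, e y / ((t - y : ℤ) : ℚ_[p])

variable (p) in
/-- the contribution of one disc -/
def LL (n : ℕ) (c : ℚ_[p]) (e : ℤ → ℚ_[p]) (r : ℤ) (P : ℚ_[p][X]) : ℚ_[p] :=
  ∑ t ∈ disc (nodes n) p r, FF p n c e t * wt ℚ_[p] n t * P.eval (t : ℚ_[p])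

variable (p) in
/-- the polar part of `FF` -/
def inF (n : ℕ) (e : ℤ → ℚ_[p]) (r t : ℤ) : ℚ_[p] :=
  ∑ y ∈ disc (rng n) p r, ((uu y * (ind 0 y - ind t y) : ℤ) : ℚ_[p]) / ((t - y : ℤ) : ℚ_[p]) +
    ∑ y ∈ disc (zeros n) p r, e y / ((t - y : ℤ) : ℚ_[p])

variable (p) in
/-- the part of the weight coming from the disc -/
def inW (n : ℕ) (r t : ℤ) : ℚ_[p] :=
  (∏ y ∈ disc (zeros n) p r, ((t - y : ℤ) : ℚ_[p])) /
    ∏ s ∈ (disc (nodes n) p r).erase t, ((t - s : ℤ) : ℚ_[p])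

variable (p) in
/-- product of the differences to points outside the disc -/
def out (s : Finset ℤ) (r t : ℤ) : ℤ := ∏ y ∈ s with ¬ (p : ℤ) ∣ y - 10 * r, (t - y)

omit hp in
lemma not_dvd_sub {r t y : ℤ} (ht : (p : ℤ) ∣ t - 10 * r) (hy : ¬ (p : ℤ) ∣ y - 10 * r) :
    ¬ (p : ℤ) ∣ t - y := fun h => hy (by simpa using dvd_sub ht h)

omit hp in
lemma dvd_sub_of {r t y : ℤ} (ht : (p : ℤ) ∣ t - 10 * r) (hy : (p : ℤ) ∣ y - 10 * r) :
    (p : ℤ) ∣ t - y := by simpa using dvd_sub ht hy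

lemma norm_out (s : Finset ℤ) {r t : ℤ} (ht : (p : ℤ) ∣ t - 10 * r) :
    ‖(out p s r t : ℚ_[p])‖ = 1 := by
  rw [out, Int.cast_prod, norm_prod]
  exact prod_eq_one fun y hy => nunit (not_dvd_sub ht (mem_filter.1 hy).2)

omit hp in
lemma out_modEq (s : Finset ℤ) (r : ℤ) {t t' : ℤ} (h : t ≡ t' [ZMOD p]) :
    out p s r t ≡ out p s r t' [ZMOD p] :=
  Int.ModEq.prod fun y _ => h.sub_right y

lemma wt_eq {n : ℕ} {r t : ℤ} (ht : (p : ℤ) ∣ t - 10 * r) :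
    wt ℚ_[p] n t = inW p n r t * (out p (zeros n) r t / out p (nodes n) r t) := by
  rw [wt, inW, div_mul_div_comm, out, out, Int.cast_prod, Int.cast_prod, disc, disc,
    prod_filter_mul_prod_filter_not, ← prod_filter_mul_prod_filter_not ((nodes n).erase t)
      fun y => (p : ℤ) ∣ y - 10 * r, filter_erase, filter_erase,
    erase_eq_of_notMem (s := filter (fun y => ¬ (p : ℤ) ∣ y - 10 * r) _)
      fun h => (mem_filter.1 h).2 ht]

lemma sum_out_le (s : Finset ℤ) {a : ℤ → ℚ_[p]} (ha : ∀ y, ‖a y‖ ≤ 1) {r t : ℤ}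
    (ht : (p : ℤ) ∣ t - 10 * r) :
    ‖∑ y ∈ s, a y / ((t - y : ℤ) : ℚ_[p]) - ∑ y ∈ disc s p r, a y / ((t - y : ℤ) : ℚ_[p])‖ ≤ 1 := by
  rw [disc, ← sum_filter_add_sum_filter_not s fun y => (p : ℤ) ∣ y - 10 * r, add_sub_cancel_left]
  refine IsUltrametricDist.norm_sum_le_of_forall_le_of_nonneg zero_le_one fun y hy => ?_
  rw [norm_div, nunit (not_dvd_sub ht (mem_filter.1 hy).2), div_one]
  exact ha y

omit hp in
lemma nodes_sub (n : ℕ) : nodes n ⊆ rng n := fun t ht => by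
  rw [mem_nodes] at ht; rw [mem_rng]; omega

omit hp in
lemma zeros_sub (n : ℕ) : zeros n ⊆ rng n := fun t ht => by
  rw [mem_zeros] at ht; rw [mem_rng]; omega

variable {n : ℕ} {c : ℚ_[p]} {e : ℤ → ℚ_[p]} {r : ℤ}

lemma ndiff (hn : 340 * n ≤ p ^ 2) {t y : ℤ} (ht : t ∈ disc (rng n) p r)
    (hy : y ∈ disc (rng n) p r) (h : t ≠ y) : ‖((t - y : ℤ) : ℚ_[p])‖ = (p : ℝ)⁻¹ := by
  rw [mem_disc, mem_rng] at ht hy
  have h1 : (340 * n : ℤ) ≤ (p : ℤ) ^ 2 := by exact_mod_cast hn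
  exact nexact (sub_ne_zero.2 h) (dvd_sub_of ht.2 hy.2) (abs_lt.2 ⟨by omega, by omega⟩)

omit hp in
lemma disc_mono {s s' : Finset ℤ} (h : s ⊆ s') : disc s p r ⊆ disc s' p r :=
  filter_subset_filter _ h

lemma norm_inW (hn : 340 * n ≤ p ^ 2) {t : ℤ} (ht : t ∈ disc (nodes n) p r) :
    ‖inW p n r t‖ = (p : ℝ) ^ gg n p r / p := by
  have ht' := disc_mono (nodes_sub n) ht
  have hp0 : (p : ℝ) ≠ 0 := by exact_mod_cast hp.out.ne_zero
  rw [inW, norm_div, norm_prod, norm_prod,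
    prod_congr rfl fun y hy => ndiff hn ht' (disc_mono (zeros_sub n) hy) (by
      have a1 := mem_nodes.1 (mem_disc.1 ht).1
      have a2 := mem_zeros.1 (mem_disc.1 hy).1
      omega),
    prod_congr rfl fun y hy => ndiff hn ht' (disc_mono (nodes_sub n) (mem_of_mem_erase hy))
      (ne_of_mem_erase hy).symm,
    prod_const, prod_const, gg, ← card_erase_add_one ht, zpow_sub₀ hp0, zpow_natCast, zpow_natCast,
    inv_pow, inv_pow, pow_succ]
  field_simp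

lemma norm_pole (hn : 340 * n ≤ p ^ 2) {s : Finset ℤ} (hs : s ⊆ rng n) {a : ℤ → ℚ_[p]}
    (ha : ∀ y, ‖a y‖ ≤ 1) {t : ℤ} (ht : t ∈ disc (rng n) p r) :
    ‖∑ y ∈ disc s p r, a y / ((t - y : ℤ) : ℚ_[p])‖ ≤ p := by
  refine IsUltrametricDist.norm_sum_le_of_forall_le_of_nonneg (Nat.cast_nonneg p) fun y hy => ?_
  rcases eq_or_ne t y with rfl | h
  · simp
  rw [norm_div, ndiff hn ht (disc_mono hs hy) h, div_inv_eq_mul]
  exact mul_le_of_le_one_left (Nat.cast_nonneg p) (ha y)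

lemma norm_inF (hn : 340 * n ≤ p ^ 2) (he : ∀ y, ‖e y‖ ≤ 1) {t : ℤ}
    (ht : t ∈ disc (nodes n) p r) : ‖inF p n e r t‖ ≤ p :=
  nadd (norm_pole hn subset_rfl (fun _ => Padic.norm_int_le_one _) (disc_mono (nodes_sub n) ht))
    (norm_pole hn (zeros_sub n) he (disc_mono (nodes_sub n) ht))

lemma norm_FF_sub (hc : ‖c‖ ≤ 1) (he : ∀ y, ‖e y‖ ≤ 1) {t : ℤ} (ht : (p : ℤ) ∣ t - 10 * r) :
    ‖FF p n c e t - inF p n e r t‖ ≤ 1 := by
  have h := nadd (nadd (sum_out_le (rng n) (a := fun y => ((uu y * (ind 0 y - ind t y) : ℤ) : ℚ_[p]))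
    (fun _ => Padic.norm_int_le_one _) ht) (sum_out_le (zeros n) he ht)) hc
  convert h using 2
  rw [FF, inF, Phi]
  ring

lemma LL_triv (hn : 340 * n ≤ p ^ 2) (hc : ‖c‖ ≤ 1) (he : ∀ y, ‖e y‖ ≤ 1) (P : ℚ_[p][X]) {B : ℝ}
    (hB : 0 ≤ B) (hP : ∀ t : ℤ, (p : ℤ) ∣ t - 10 * r → ‖P.eval (t : ℚ_[p])‖ ≤ B) :
    ‖LL p n c e r P‖ ≤ (p : ℝ) ^ gg n p r * B := by
  refine IsUltrametricDist.norm_sum_le_of_forall_le_of_nonneg (by positivity) fun t ht => ?_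
  have ht' := (mem_disc.1 ht).2
  have hp0 : (0 : ℝ) < p := by exact_mod_cast hp.out.pos
  have h1 : ‖FF p n c e t‖ ≤ p := by
    simpa using nadd ((norm_FF_sub (n := n) hc he ht').trans one_le_p) (norm_inF hn he ht)
  rw [norm_mul, norm_mul, wt_eq ht', norm_mul, norm_div, norm_out _ ht', norm_out _ ht',
    norm_inW hn ht]
  calc ‖FF p n c e t‖ * ((p : ℝ) ^ gg n p r / p * (1 / 1)) * ‖P.eval (t : ℚ_[p])‖
      ≤ p * ((p : ℝ) ^ gg n p r / p * (1 / 1)) * B := by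
        have := hP t ht'
        gcongr
    _ = _ := by field_simp

lemma LL_lead (hn : 340 * n ≤ p ^ 2) (hc : ‖c‖ ≤ 1) (he : ∀ y, ‖e y‖ ≤ 1) (Q : ℤ[X]) {t₀ : ℤ}
    (h₀ : (p : ℤ) ∣ t₀ - 10 * r) (hQ : ¬ (p : ℤ) ∣ Q.eval t₀)
    (hl : ‖∑ t ∈ disc (nodes n) p r, inF p n e r t * inW p n r t‖ = (p : ℝ) ^ gg n p r) :
    ‖LL p n c e r (Q.map (Int.castRingHom ℚ_[p]))‖ = (p : ℝ) ^ gg n p r := by
  have hp1 : (1 : ℝ) < p := by exact_mod_cast hp.out.one_lt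
  set H : ℤ → ℚ_[p] := fun t => ((out p (zeros n) r t * Q.eval t : ℤ) : ℚ_[p]) /
    (out p (nodes n) r t : ℤ) with hH
  have hH0 : ‖H t₀‖ = 1 := by
    simp only [hH]
    rw [norm_div, Int.cast_mul, norm_mul, norm_out _ h₀, norm_out _ h₀, nunit hQ]
    norm_num
  have key : ‖LL p n c e r (Q.map (Int.castRingHom ℚ_[p])) -
      (∑ t ∈ disc (nodes n) p r, inF p n e r t * inW p n r t) * H t₀‖
      ≤ (p : ℝ) ^ gg n p r / p := by
    rw [LL, sum_mul, ← sum_sub_distrib]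
    refine IsUltrametricDist.norm_sum_le_of_forall_le_of_nonneg (by positivity) fun t ht => ?_
    have ht' := (mem_disc.1 ht).2
    have a0 : t ≡ t₀ [ZMOD p] := (Int.modEq_iff_dvd.2 (dvd_sub_of h₀ ht'))
    have a1 := norm_out (nodes n) ht'
    have a2 := norm_out (nodes n) h₀
    have a3 : (out p (nodes n) r t : ℚ_[p]) ≠ 0 := norm_ne_zero_iff.1 (by simp [a1])
    have a4 : (out p (nodes n) r t₀ : ℚ_[p]) ≠ 0 := norm_ne_zero_iff.1 (by simp [a2])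
    have a5 : ‖H t‖ ≤ 1 := by
      simp only [hH]
      rw [norm_div, a1, div_one]
      exact Padic.norm_int_le_one _
    have a6 : ‖H t - H t₀‖ ≤ (p : ℝ)⁻¹ := by
      simp only [hH]
      rw [div_sub_div _ _ a3 a4, norm_div, norm_mul, a1, a2, mul_one, div_one, ← Int.cast_mul,
        ← Int.cast_mul, ← Int.cast_sub]
      have b1 : Q.eval t ≡ Q.eval t₀ [ZMOD p] :=
        Int.modEq_iff_dvd.2 ((dvd_sub_of h₀ ht').trans (sub_dvd_eval_sub _ _ _))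
      refine norm_of_dvd (Int.ModEq.dvd ?_)
      rw [mul_comm]
      exact (((out_modEq _ r a0).mul b1).symm).mul (out_modEq _ r a0)
    have a7 : FF p n c e t * wt ℚ_[p] n t * (Q.map (Int.castRingHom ℚ_[p])).eval (t : ℚ_[p]) -
        inF p n e r t * inW p n r t * H t₀ =
        inW p n r t * ((FF p n c e t - inF p n e r t) * H t + inF p n e r t * (H t - H t₀)) := by
      rw [wt_eq ht', eval_intCast_map]
      simp only [hH, Int.cast_mul, eq_intCast, Int.cast_id]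
      ring
    rw [a7, norm_mul, norm_inW hn ht]
    refine mul_le_of_le_one_right (by positivity) (nadd ?_ ?_)
    · rw [norm_mul]
      exact mul_le_one₀ (norm_FF_sub hc he ht') (norm_nonneg _) a5
    · rw [norm_mul]
      calc _ ≤ (p : ℝ) * (p : ℝ)⁻¹ := by
            have := norm_inF hn he ht
            gcongr
        _ = 1 := by field_simp
  have h2 : ‖(∑ t ∈ disc (nodes n) p r, inF p n e r t * inW p n r t) * H t₀‖
      = (p : ℝ) ^ gg n p r := by rw [norm_mul, hl, hH0, mul_one]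
  rw [← h2]
  refine Padic.norm_eq_of_norm_sub_lt_right (key.trans_lt ?_)
  rw [h2]
  exact div_lt_self (by positivity) hp1

end

end Pool.Agent.B10.NV
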