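import Pool.Agent.Lib.MP_5e2fbc_nt.B10.NonVan1

/-!
Base ten: the discs of a prime close to `24 n`.
-/

set_option autoImplicit false

namespace Pool.Agent.B10.NV

open Finset Polynomial Pool.Agent.NW

noncomputable section

variable {p n : ℕ} {r t₀ : ℤ}

lemma disc_cases (h2 : 95 * n ≤ 4 * p) (h₀ : (p : ℤ) ∣ t₀ - 10 * r) (a₀ : t₀ ∈ rng n) {t : ℤ}
    (ht : t ∈ disc (rng n) p r) : ∃ S : ℤ, -15 < S ∧ S < 15 ∧ t = t₀ + p * S := by
  rw [mem_disc, mem_rng] at ht
  rw [mem_rng] at a₀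
  obtain ⟨S, hS⟩ := dvd_sub_of ht.2 h₀
  have h3 : (95 * n : ℤ) ≤ 4 * p := by exact_mod_cast h2
  have h4 : (0 : ℤ) ≤ p := Int.natCast_nonneg p
  refine ⟨S, ?_, ?_, by omega⟩ <;> by_contra h <;> nlinarith

lemma dvd_shift (h₀ : (p : ℤ) ∣ t₀ - 10 * r) (S : ℤ) : (p : ℤ) ∣ t₀ + p * S - 10 * r := by
  rw [add_sub_right_comm]
  exact dvd_add h₀ (dvd_mul_right _ _)

/-- discs with one node of the long progression -/
lemma single (h3 : p % 10 = 3) (h1 : p ≤ 24 * n) (h2 : 95 * n ≤ 4 * p)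
    (h₀ : (p : ℤ) ∣ t₀ - 10 * r) (a1 : t₀ % 10 = 5) (a2 : 170 * n ≤ t₀ + 10 * p)
    (a3 : t₀ + 170 * n < 10 * p) : Good n p r ∨ gg n p r ≤ 0 := by
  have a₀ : t₀ ∈ rng n := mem_rng.2 (by omega)
  have hN : ∀ t ∈ disc (nodes n) p r, t = t₀ ∨ (t = t₀ - p ∧ -(80 * n : ℤ) ≤ t) := fun t ht => by
    obtain ⟨S, b1, b2, rfl⟩ := disc_cases h2 h₀ a₀ (disc_mono (nodes_sub n) ht)
    have := mem_nodes.1 (mem_disc.1 ht).1
    interval_cases S <;> omega
  by_cases hc : t₀ + 2 * p < -(20 * n : ℤ)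
  · right
    have b1 : #(disc (nodes n) p r) ≤ #({t₀} : Finset ℤ) := card_le_card fun t ht => by
      have := hN t ht
      exact mem_singleton.2 (by omega)
    have b2 : 0 < #(disc (zeros n) p r) :=
      card_pos.2 ⟨t₀ + p * 4, mem_disc.2 ⟨mem_zeros.2 (by omega), dvd_shift h₀ 4⟩⟩
    rw [card_singleton] at b1
    rw [gg]
    omega
  left
  intro t ht y hy hu
  obtain ⟨S, b1, b2, rfl⟩ := disc_cases h2 h₀ a₀ hy
  have b3 := hN t ht
  have b4 : (t₀ + p * S) % 10 = 1 ∨ (t₀ + p * S) % 10 = 9 ∨ (t₀ + p * S) % 10 = 7 := by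
    by_contra h
    push Not at h
    simp [uu, h.1, h.2.1, h.2.2] at hu
  have b5 := mem_rng.1 (mem_disc.1 hy).1
  refine ⟨fun hz => ?_, fun s hs => ?_⟩
  · rw [mem_zeros] at hz
    interval_cases S <;> omega
  · have b6 := hN s hs
    interval_cases S <;> omega

variable [hp : Fact p.Prime] {e : ℤ → ℚ_[p]}

lemma img_sum (A Z : Finset ℤ) (hN : disc (nodes n) p r = A.image fun S => t₀ + p * S)
    (hZ : disc (zeros n) p r = Z.image fun S => t₀ + p * S) :
    gg n p r = (#A : ℤ) - #Z ∧ ∑ t ∈ disc (nodes n) p r, inF p n e r t * inW p n r t =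
      ∑ S ∈ A, (∑ y ∈ disc (rng n) p r, ((uu y * (ind 0 y - ind (t₀ + p * S) y) : ℤ) : ℚ_[p]) /
          ((t₀ + p * S - y : ℤ) : ℚ_[p]) + ∑ y ∈ Z, e (t₀ + p * y) / (p * (S - y : ℤ))) *
        ((∏ y ∈ Z, (p : ℚ_[p]) * (S - y : ℤ)) / ∏ y ∈ A.erase S, (p : ℚ_[p]) * (S - y : ℤ)) := by
  have hp0 : (p : ℤ) ≠ 0 := by exact_mod_cast hp.out.ne_zero
  have hf : Function.Injective fun S : ℤ => t₀ + p * S := fun a b h =>
    mul_left_cancel₀ hp0 (add_left_cancel h)
  have h1 : ∀ a b : ℤ, ((t₀ + p * a - (t₀ + p * b) : ℤ) : ℚ_[p]) = p * (a - b : ℤ) := fun a b => by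
    push_cast; ring
  refine ⟨by rw [gg, hN, hZ, card_image_of_injective _ hf, card_image_of_injective _ hf], ?_⟩
  simp only [inF, inW, hN, hZ]
  rw [sum_image hf.injOn]
  refine sum_congr rfl fun S _ => ?_
  rw [← image_erase hf, sum_image hf.injOn, prod_image hf.injOn, prod_image hf.injOn]
  simp only [h1]

lemma pole_sum (h3 : p % 10 = 3) (_h1 : p ≤ 24 * n) (h2 : 95 * n ≤ 4 * p)
    (h₀ : (p : ℤ) ∣ t₀ - 10 * r) (a1 : t₀ % 10 = 5) (a2 : -(170 * n : ℤ) ≤ t₀)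
    (a3 : t₀ + 10 * p < 170 * n) {S : ℤ} (hS : S = 0 ∨ S = 9 ∨ S = 10) :
    ∑ y ∈ disc (rng n) p r, ((uu y * (ind 0 y - ind (t₀ + p * S) y) : ℤ) : ℚ_[p]) /
        ((t₀ + p * S - y : ℤ) : ℚ_[p]) =
      (-3 * (0 - ind S 2) : ℤ) / (p * (S - 2 : ℤ)) +
        (8 * (ind 0 (t₀ + p * 4) - ind S 4) : ℤ) / (p * (S - 4 : ℤ)) +
        (-10 * (1 - ind S 8) : ℤ) / (p * (S - 8 : ℤ)) := by
  have a₀ : t₀ ∈ rng n := mem_rng.2 (by omega)
  have h4 : ∀ b : ℤ, ((t₀ + p * S - (t₀ + p * b) : ℤ) : ℚ_[p]) = p * (S - b : ℤ) := fun b => by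
    push_cast; ring
  have h5 : ∀ b : ℤ, ind (t₀ + p * S) (t₀ + p * b) = ind S b := fun b => by
    have : (0 : ℤ) < p := by omega
    simp only [ind, add_lt_add_iff_left, Int.mul_lt_mul_left this]
  rw [← sum_subset (s₁ := {t₀ + p * 2, t₀ + p * 4, t₀ + p * 8}),
    sum_insert (by simp only [mem_insert, mem_singleton]; omega),
    sum_pair (by omega), h4, h4, h4, h5, h5, h5,
    show uu (t₀ + p * 2) = -3 by simp only [uu]; split_ifs <;> omega,
    show uu (t₀ + p * 4) = 8 by simp only [uu]; split_ifs <;> omega,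
    show uu (t₀ + p * 8) = -10 by simp only [uu]; split_ifs <;> omega,
    show ind 0 (t₀ + p * 2) = 0 by simp only [ind]; split_ifs <;> omega,
    show ind 0 (t₀ + p * 8) = 1 by simp only [ind]; split_ifs <;> omega, add_assoc]
  · intro y hy
    simp only [mem_insert, mem_singleton] at hy
    rcases hy with rfl | rfl | rfl <;> exact mem_disc.2 ⟨mem_rng.2 (by omega), dvd_shift h₀ _⟩
  · intro y hy hy'
    obtain ⟨T, b1, b2, rfl⟩ := disc_cases h2 h₀ a₀ hy
    simp only [mem_insert, mem_singleton] at hy'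
    have : uu (t₀ + p * T) * (ind 0 (t₀ + p * T) - ind (t₀ + p * S) (t₀ + p * T)) = 0 := by
      rw [h5]
      simp only [uu, ind]
      interval_cases T <;> split_ifs <;> omega
    rw [this, Int.cast_zero, zero_div]

lemma nlead {a b : ℤ} (k : ℕ) (ha : a ≠ 0) (hb : b ≠ 0) (ha' : |a| < p) (hb' : |b| < p) :
    ‖((a : ℚ_[p]) / b) / (p : ℚ_[p]) ^ k‖ = (p : ℝ) ^ (k : ℤ) := by
  rw [norm_div, norm_div, nsmall ha ha', nsmall hb hb', norm_pow, Padic.norm_p]
  simp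

/-- discs with two nodes of the long progression -/
lemma double (h3 : p % 10 = 3) (h1 : p ≤ 24 * n) (h2 : 95 * n ≤ 4 * p)
    (h₀ : (p : ℤ) ∣ t₀ - 10 * r) (a1 : t₀ % 10 = 5) (a2 : -(170 * n : ℤ) ≤ t₀)
    (a3 : t₀ + 10 * p < 170 * n) : (gg n p r = 1 ∨ gg n p r = 2) ∧
      ‖∑ t ∈ disc (nodes n) p r, inF p n e r t * inW p n r t‖ = (p : ℝ) ^ gg n p r := by
  have a₀ : t₀ ∈ rng n := mem_rng.2 (by omega)
  have hp0 : (p : ℚ_[p]) ≠ 0 := by exact_mod_cast hp.out.ne_zero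
  have himg : ∀ s : Finset ℤ, s ⊆ rng n → ∀ A : Finset ℤ,
      (∀ S : ℤ, -15 < S → S < 15 → (t₀ + p * S ∈ s ↔ S ∈ A)) → (∀ S ∈ A, -15 < S ∧ S < 15) →
      disc s p r = A.image fun S => t₀ + p * S := fun s hs A b1 b2 => by
    ext t
    rw [mem_image]
    refine ⟨fun ht => ?_, ?_⟩
    · obtain ⟨S, c1, c2, rfl⟩ := disc_cases h2 h₀ a₀ (disc_mono hs ht)
      exact ⟨S, (b1 S c1 c2).1 (mem_disc.1 ht).1, rfl⟩
    · rintro ⟨S, c1, rfl⟩
      exact mem_disc.2 ⟨(b1 S (b2 S c1).1 (b2 S c1).2).2 c1, dvd_shift h₀ S⟩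
  have P0 := pole_sum h3 h1 h2 h₀ a1 a2 a3 (S := 0) (by simp)
  have P9 := pole_sum h3 h1 h2 h₀ a1 a2 a3 (S := 9) (by simp)
  have P10 := pole_sum h3 h1 h2 h₀ a1 a2 a3 (S := 10) (by simp)
  have hN3 : t₀ + 9 * p < 80 * n → _ := fun h => himg _ (nodes_sub n) {0, 9, 10}
    (fun S b1 b2 => by
      rw [mem_nodes]
      simp only [mem_insert, mem_singleton]
      interval_cases S <;> omega) (by decide)
  have hZ4 : -(50 * n : ℤ) ≤ t₀ + 4 * p → 50 * n ≤ t₀ + 8 * p → _ := fun h h' =>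
    himg _ (zeros_sub n) {4} (fun S b1 b2 => by
      rw [mem_zeros]
      simp only [mem_singleton]
      interval_cases S <;> omega) (by decide)
  have fin : ∀ (A Z : Finset ℤ) (hN : disc (nodes n) p r = A.image fun S => t₀ + p * S)
      (hZ : disc (zeros n) p r = Z.image fun S => t₀ + p * S) (k : ℕ) (a b : ℤ), (k = 1 ∨ k = 2) →
      (#A : ℤ) - #Z = k → a ≠ 0 → b ≠ 0 → |a| ≤ 19 → |b| ≤ 19 →
      ∑ t ∈ disc (nodes n) p r, inF p n e r t * inW p n r t = 2 * ((a : ℚ_[p]) / b) / p ^ k ∨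
      ∑ t ∈ disc (nodes n) p r, inF p n e r t * inW p n r t = ((a : ℚ_[p]) / b) / p ^ k →
      (gg n p r = 1 ∨ gg n p r = 2) ∧
        ‖∑ t ∈ disc (nodes n) p r, inF p n e r t * inW p n r t‖ = (p : ℝ) ^ gg n p r := by
    intro A Z hN hZ k a b b1 b2 b3 b4 b5 b6 b7
    rw [(img_sum (e := e) A Z hN hZ).1, b2]
    refine ⟨by omega, ?_⟩
    have b8 := nlead (p := p) k b3 b4 (by omega) (by omega)
    rcases b7 with b7 | b7
    · have b9 := nsmall (p := p) (z := 2) (by norm_num) (by rw [abs_two]; omega)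
      rw [b7, mul_div_assoc, norm_mul, b8, ← Int.cast_ofNat (R := ℚ_[p]) 2, b9, one_mul]
    · rw [b7, b8]
  by_cases c1 : t₀ + 4 * p < -(50 * n : ℤ)
  · have hZ := himg _ (zeros_sub n) {8} (fun S b1 b2 => by
      rw [mem_zeros]
      simp only [mem_singleton]
      interval_cases S <;> omega) (by decide)
    have hN := hN3 (by omega)
    refine fin _ _ hN hZ 2 1 15 (by simp) (by decide) (by simp) (by simp) (by simp) (by simp)
      (Or.inr ?_)
    rw [(img_sum _ _ hN hZ).2, sum_insert (by decide), sum_pair (show (9 : ℤ) ≠ 10 by decide),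
      P0, P9, P10,
      show ind 0 (t₀ + p * 4) = 0 by simp only [ind]; split_ifs <;> omega,
      show ({0, 9, 10} : Finset ℤ).erase 0 = {9, 10} by decide,
      show ({0, 9, 10} : Finset ℤ).erase 9 = {0, 10} by decide,
      show ({0, 9, 10} : Finset ℤ).erase 10 = {0, 9} by decide]
    norm_num [ind]
    field_simp
    ring
  by_cases c2 : t₀ + 8 * p < 50 * n
  · have hZ := himg _ (zeros_sub n) {4, 8} (fun S b1 b2 => by
      rw [mem_zeros]
      simp only [mem_insert, mem_singleton]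
      interval_cases S <;> omega) (by decide)
    have hN := hN3 (by omega)
    refine fin _ _ hN hZ 1 (-4) 15 (by simp) (by decide) (by simp) (by simp) (by simp) (by simp)
      (Or.inr ?_)
    rw [(img_sum _ _ hN hZ).2, sum_insert (by decide), sum_pair (show (9 : ℤ) ≠ 10 by decide),
      P0, P9, P10,
      show ({0, 9, 10} : Finset ℤ).erase 0 = {9, 10} by decide,
      show ({0, 9, 10} : Finset ℤ).erase 9 = {0, 10} by decide,
      show ({0, 9, 10} : Finset ℤ).erase 10 = {0, 9} by decide]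
    generalize ind 0 (t₀ + p * 4) = β
    norm_num [ind]
    field_simp
    ring
  have hZ := hZ4 (by omega) (by omega)
  by_cases c3 : t₀ + 9 * p < 80 * n
  · have hN := hN3 c3
    refine fin _ _ hN hZ 2 19 15 (by simp) (by decide) (by simp) (by simp) (by simp) (by simp)
      (Or.inl ?_)
    rw [(img_sum _ _ hN hZ).2, sum_insert (by decide), sum_pair (show (9 : ℤ) ≠ 10 by decide),
      P0, P9, P10,
      show ({0, 9, 10} : Finset ℤ).erase 0 = {9, 10} by decide,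
      show ({0, 9, 10} : Finset ℤ).erase 9 = {0, 10} by decide,
      show ({0, 9, 10} : Finset ℤ).erase 10 = {0, 9} by decide]
    generalize ind 0 (t₀ + p * 4) = β
    norm_num [ind]
    field_simp
    ring
  · have hN := himg _ (nodes_sub n) {0, 10} (fun S b1 b2 => by
      rw [mem_nodes]
      simp only [mem_insert, mem_singleton]
      interval_cases S <;> omega) (by decide)
    refine fin _ _ hN hZ 1 (-14) 5 (by simp) (by decide) (by simp) (by simp) (by simp) (by simp)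
      (Or.inr ?_)
    rw [(img_sum _ _ hN hZ).2, sum_pair (by decide), P0, P10,
      show ({0, 10} : Finset ℤ).erase 0 = {10} by decide,
      show ({0, 10} : Finset ℤ).erase 10 = {0} by decide]
    generalize ind 0 (t₀ + p * 4) = β
    norm_num [ind]
    field_simp
    ring

end

end Pool.Agent.B10.NV
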