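import Pool.Agent.Lib.MP_5e2fbc_nt.B10.NonVan2

/-!
Base ten: the determinant does not vanish.
-/

set_option autoImplicit false

namespace Pool.Agent.B10.NV

open Finset Polynomial Pool.Agent.NW

noncomputable section

variable {p : ℕ} [hp : Fact p.Prime] {n : ℕ}

variable (p) in
/-- the disc of `t` -/
def res (t : ℤ) : ℕ := ((t : ZMod p) / 10).val

lemma res_lt (t : ℤ) : res p t < p := ZMod.val_lt _

lemma res_eq_iff (h3 : p % 10 = 3) {t : ℤ} {r : ℕ} (hr : r < p) :
    res p t = r ↔ (p : ℤ) ∣ t - 10 * r := by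
  have h10 : (10 : ZMod p) ≠ 0 := fun h => by
    have h1 : p ∣ 10 := (ZMod.natCast_eq_zero_iff 10 p).1 (by exact_mod_cast h)
    have := Nat.le_of_dvd (by norm_num) h1
    interval_cases p <;> omega
  rw [← ZMod.intCast_zmod_eq_zero_iff_dvd, res]
  push_cast
  rw [sub_eq_zero, mul_comm, ← div_eq_iff h10]
  refine ⟨fun h => by rw [← h, ZMod.natCast_zmod_val], fun h => by rw [h, ZMod.val_cast_of_lt hr]⟩

lemma Lf_split (h3 : p % 10 = 3) (c : ℚ_[p]) (e : ℤ → ℚ_[p]) (P : ℚ_[p][X])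
    (hP : P.natDegree + 2 ≤ 26 * n) : Lf ℚ_[p] n P = ∑ r ∈ range p, LL p n c e r P := by
  rw [Lf_eq n P hP c e, ← sum_fiberwise_of_maps_to (t := range p) (g := res p)
    fun t _ => mem_range.2 (res_lt t)]
  exact sum_congr rfl fun r hr => sum_congr
    (filter_congr fun t _ => res_eq_iff h3 (mem_range.1 hr)) fun _ _ => rfl

theorem hank_ne_zero_of (h3 : p % 10 = 3) (h1 : p ≤ 24 * n) (h2 : 95 * n ≤ 4 * p) (c : ℚ_[p])
    (e : ℤ → ℚ_[p]) (hc : ‖c‖ ≤ 1) (he : ∀ y, ‖e y‖ ≤ 1)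
    (hg : ∀ (r : ℤ) (Q : ℤ[X]), Good n p r → ‖LL p n c e r (Q.map (Int.castRingHom ℚ_[p]))‖ ≤ 1) :
    hank ℚ n (34 * n - p) ≠ 0 := by
  set d := 34 * n - p with hd
  have hn : 340 * n ≤ p ^ 2 := by nlinarith [show 24 ≤ p by omega]
  have hp1 : (1 : ℝ) < p := by exact_mod_cast hp.out.one_lt
  have hp0 : (0 : ℝ) < p := by linarith
  set x : Fin d → ℤ := fun i => 5 - 170 * n + 10 * (i : ℕ) with hx
  have hx1 : ∀ i, x i % 10 = 5 ∧ -(170 * n : ℤ) ≤ x i ∧ x i + 10 * p < 170 * n := fun i => by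
    have := i.2
    simp only [hx]
    omega
  have hx2 : ∀ i, (p : ℤ) ∣ x i - 10 * (res p (x i) : ℕ) := fun i =>
    (res_eq_iff h3 (res_lt _)).1 rfl
  have hx3 : ∀ i j, (p : ℤ) ∣ x i - x j → i = j := fun i j h => by
    have a1 := i.2
    have a2 := j.2
    have a3 : (p : ℤ) ∣ ((i : ℕ) : ℤ) - (j : ℕ) := by
      obtain ⟨S, hS⟩ := h
      have b1 : (10 : ℤ) ∣ S := by
        have b2 : (p : ℤ) = 10 * (p / 10 : ℕ) + 3 := by omega
        rw [b2, add_mul, mul_assoc] at hS
        simp only [hx] at hS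
        omega
      obtain ⟨S, rfl⟩ := b1
      rw [mul_left_comm] at hS
      exact ⟨S, by simp only [hx] at hS; omega⟩
    have a4 := Int.eq_zero_of_abs_lt_dvd a3 (abs_lt.2 ⟨by omega, by omega⟩)
    exact Fin.ext (by omega)
  set B : Fin d → ℤ[X] := fun i => ∏ j ∈ univ.erase i, (X - C (x j)) with hB
  have hB1 : ∀ i, (B i).natDegree < d := fun i => by
    have := i.pos
    simp only [hB]
    rw [natDegree_finsetProd_X_sub_C_eq_card, card_erase_of_mem (mem_univ i), card_univ,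
      Fintype.card_fin]
    omega
  have hB2 : ∀ i j t, i ≠ j → (p : ℤ) ∣ t - x j → (p : ℤ) ∣ (B i).eval t := fun i j t h h' => by
    simp only [hB, eval_prod, eval_sub, eval_X, eval_C]
    exact h'.trans (dvd_prod_of_mem (fun j => t - x j) (mem_erase.2 ⟨h.symm, mem_univ j⟩))
  have hB3 : ∀ i, ¬ (p : ℤ) ∣ (B i * B i).eval (x i) := fun i h => by
    have a1 := Nat.prime_iff_prime_int.1 hp.out
    rw [eval_mul, a1.dvd_mul, or_self] at h
    simp only [hB, eval_prod, eval_sub, eval_X, eval_C] at h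
    obtain ⟨j, a2, a3⟩ := (a1.dvd_finsetProd_iff _).1 h
    exact ne_of_mem_erase a2 (hx3 _ _ a3).symm
  set a : Fin d → ℝ := fun i => (p : ℝ) ^ gg n p (res p (x i) : ℕ) with ha
  have hdb := fun i => double (e := e) h3 h1 h2 (hx2 i) (hx1 i).1 (hx1 i).2.1 (hx1 i).2.2
  have ha1 : ∀ i, a i = p ∨ a i = p ^ 2 := fun i => by
    rcases (hdb i).1 with h | h <;> simp only [ha, h]
    · exact Or.inl (zpow_one _)
    · exact Or.inr (zpow_ofNat _ 2)
  have ha2 : ∀ i, p ≤ a i ∧ a i ≤ p ^ 2 := fun i => by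
    rcases ha1 i with h | h <;> rw [h] <;> constructor <;> nlinarith
  set f := Int.castRingHom ℚ_[p] with hf
  have hev : ∀ (Q : ℤ[X]) (t : ℤ), (Q.map f).eval (t : ℚ_[p]) = (Q.eval t : ℤ) := fun Q t => by
    rw [eval_intCast_map]; simp [hf]
  have key : ∀ i j, ∀ r ∈ range p, ¬ (i = j ∧ r = res p (x i)) →
      ‖LL p n c e r ((B i * B j).map f)‖ ≤ max (a i) (a j) / p := fun i j r hr h => by
    have a0 : 1 ≤ max (a i) (a j) / p := (one_le_div hp0).2 (le_max_of_le_left (ha2 i).1)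
    by_cases a1 : ∃ k, r = res p (x k)
    · obtain ⟨k, rfl⟩ := a1
      have b1 : ∀ l (t : ℤ), l ≠ k → (p : ℤ) ∣ t - 10 * (res p (x k) : ℕ) →
          ‖(((B l).eval t : ℤ) : ℚ_[p])‖ ≤ (p : ℝ)⁻¹ := fun l t c1 c2 =>
        norm_of_dvd (hB2 l k t c1 (dvd_sub_of c2 (hx2 k)))
      have b2 : ∀ {u v : ℝ}, 0 ≤ u → 0 ≤ v →
          (∀ t : ℤ, (p : ℤ) ∣ t - 10 * (res p (x k) : ℕ) → ‖(((B i).eval t : ℤ) : ℚ_[p])‖ ≤ u) →
          (∀ t : ℤ, (p : ℤ) ∣ t - 10 * (res p (x k) : ℕ) → ‖(((B j).eval t : ℤ) : ℚ_[p])‖ ≤ v) →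
          ‖LL p n c e (res p (x k) : ℕ) ((B i * B j).map f)‖ ≤ a k * (u * v) :=
        fun hu hv c1 c2 => LL_triv hn hc he _ (mul_nonneg hu hv) fun t ht => by
          rw [hev, eval_mul, Int.cast_mul, norm_mul]
          exact mul_le_mul (c1 t ht) (c2 t ht) (norm_nonneg _) hu
      have b3 : (0 : ℝ) ≤ (p : ℝ)⁻¹ := by positivity
      by_cases c1 : i = k
      · subst c1
        have c2 : j ≠ i := fun c2 => h ⟨c2.symm, rfl⟩
        refine (b2 zero_le_one b3 (fun _ _ => Padic.norm_int_le_one _)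
          fun t => b1 j t c2).trans ?_
        rw [one_mul, ← div_eq_mul_inv]
        gcongr
        exact le_max_left _ _
      by_cases c2 : j = k
      · subst c2
        refine (b2 b3 zero_le_one (fun t => b1 i t c1)
          fun _ _ => Padic.norm_int_le_one _).trans ?_
        rw [mul_one, ← div_eq_mul_inv]
        gcongr
        exact le_max_right _ _
      refine (b2 b3 b3 (fun t => b1 i t c1) fun t => b1 j t c2).trans (le_trans ?_ a0)
      calc a k * ((p : ℝ)⁻¹ * (p : ℝ)⁻¹) ≤ p ^ 2 * ((p : ℝ)⁻¹ * (p : ℝ)⁻¹) := by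
            gcongr
            exact (ha2 k).2
        _ = 1 := by field_simp
    refine le_trans ?_ a0
    have b0 : (0 : ℤ) < 10 * p := by omega
    have b1 := Int.emod_add_mul_ediv (10 * r + 5 * p + 170 * n) (10 * p)
    have b2 := Int.emod_nonneg (10 * r + 5 * p + 170 * n) b0.ne'
    have b3 := Int.emod_lt_of_pos (10 * r + 5 * p + 170 * n) b0
    set q := (10 * r + 5 * p + 170 * n : ℤ) / (10 * p)
    set m := (10 * r + 5 * p + 170 * n : ℤ) % (10 * p)
    rw [mul_assoc] at b1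
    have b4 : (p : ℤ) ∣ m - 170 * n - 10 * r := ⟨5 - 10 * q, by linarith⟩
    have b5 : 170 * n ≤ m - 170 * n + 10 * p := by
      by_contra b6
      refine a1 ⟨⟨(m / 10).toNat, by omega⟩, ((res_eq_iff h3 (mem_range.1 hr)).2 ?_).symm⟩
      convert b4 using 2
      simp only [hx]
      omega
    rcases single h3 h1 h2 b4 (by omega) b5 (by omega) with b6 | b6
    · exact hg r _ b6
    · refine (LL_triv hn hc he _ zero_le_one fun t _ => ?_).trans ?_
      · rw [hev]
        exact Padic.norm_int_le_one _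
      · rw [mul_one]
        exact zpow_le_one_of_nonpos₀ hp1.le b6
  have hsp : ∀ i j, Lf ℚ_[p] n ((B i).map f * (B j).map f) =
      ∑ r ∈ range p, LL p n c e r ((B i * B j).map f) := fun i j => by
    rw [← Polynomial.map_mul]
    refine Lf_split h3 c e _ ?_
    have a1 := natDegree_map_le (p := B i * B j) (f := f)
    have a2 := natDegree_mul_le (p := B i) (q := B j)
    have a3 := hB1 i
    have a4 := hB1 j
    omega
  have hdiag : ∀ i, ‖Lf ℚ_[p] n ((B i).map f * (B i).map f)‖ = a i := fun i => by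
    have a1 := LL_lead hn hc he (B i * B i) (hx2 i) (hB3 i) (hdb i).2
    have a2 : 0 < a i := hp0.trans_le (ha2 i).1
    rw [hsp, ← add_sum_erase _ _ (mem_range.2 (res_lt (x i)))]
    refine (Padic.norm_eq_of_norm_sub_lt_right ?_).trans a1
    rw [add_sub_cancel_left, a1]
    refine nsum_lt _ _ a2 fun r hr => (key i i r (mem_of_mem_erase hr)
      fun h => ne_of_mem_erase hr h.2).trans_lt ?_
    rw [max_self]
    exact div_lt_self a2 hp1
  have hdet := det_ne_zero_of_dom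
    (Matrix.of fun i j => Lf ℚ_[p] n ((B i).map f * (B j).map f))
    (fun i => norm_pos_iff.1 (by
      rw [Matrix.of_apply, hdiag]
      exact hp0.trans_le (ha2 i).1)) fun i j hij => by
      rw [Matrix.of_apply, Matrix.of_apply, Matrix.of_apply, hdiag, hdiag, hsp]
      have a1 : ‖∑ r ∈ range p, LL p n c e r ((B i * B j).map f)‖ ≤ max (a i) (a j) / p :=
        IsUltrametricDist.norm_sum_le_of_forall_le_of_nonneg
          (div_nonneg (le_max_of_le_left (hp0.le.trans (ha2 i).1)) hp0.le)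
          fun r hr => key i j r hr fun h => hij h.1
      refine (pow_le_pow_left₀ (norm_nonneg _) a1 2).trans_lt ?_
      rw [div_pow, div_lt_iff₀ (by positivity)]
      have a2 : (p : ℝ) ≤ p ^ 2 := by nlinarith
      have a3 : (1 : ℝ) < p ^ 2 := by nlinarith
      have a4 : (0 : ℝ) < p ^ 2 := by positivity
      have a5 : (0 : ℝ) < p ^ 4 := by positivity
      rcases ha1 i with h | h <;> rcases ha1 j with h' | h' <;> rw [h, h'] <;>
        simp only [max_self, max_eq_left a2, max_eq_right a2] <;> nlinarith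
  rw [gram_eq n d _ fun i => natDegree_map_le.trans_lt (hB1 i), ← hank_cast] at hdet
  exact fun h => hdet (by rw [h, Rat.cast_zero, mul_zero])

end

end Pool.Agent.B10.NV
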