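import Pool.Agent.Lib.MP_5e2fbc_nt.B10.RealPt

/-!
Base ten, real place: the size of the Hankel determinant.
-/

set_option autoImplicit false

namespace Pool.Agent.B10

open Finset Real Polynomial Filter
open Complex (I)

noncomputable section

lemma det_le_exp {ι : Type*} [Fintype ι] [DecidableEq ι] (G : Matrix ι ι ℝ) (γ : ι → ℝ)
    (h : ∀ i j, |G i j| ≤ exp (γ i + γ j)) :
    |G.det| ≤ (Fintype.card ι).factorial * exp (∑ i, 2 * γ i) := by
  rw [Matrix.det_apply]
  refine (abs_sum_le_sum_abs _ _).trans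
    ((sum_le_card_nsmul _ _ (exp (∑ i, 2 * γ i)) fun σ _ => ?_).trans (le_of_eq ?_))
  · have : |Equiv.Perm.sign σ • ∏ i, G (σ i) i| = ∏ i, |G (σ i) i| := by
      rcases Int.units_eq_one_or (Equiv.Perm.sign σ) with e | e <;> simp [e, abs_prod]
    rw [this]
    refine (prod_le_prod (fun _ _ => abs_nonneg _) fun i _ => h (σ i) i).trans (le_of_eq ?_)
    rw [← exp_sum, sum_add_distrib, Equiv.sum_comp σ γ, ← sum_add_distrib]
    simp only [two_mul]
  · rw [card_univ, Fintype.card_perm, nsmul_eq_mul]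

/-- monic polynomial with the given integer roots -/
def rt (S : Finset ℤ) : ℝ[X] := ∏ t ∈ S, (X - C (t : ℝ))

lemma rt_monic (S : Finset ℤ) : (rt S).Monic := monic_prod_of_monic _ _ fun _ _ => monic_X_sub_C _

lemma rt_deg (S : Finset ℤ) : (rt S).natDegree = #S := natDegree_finsetProd_X_sub_C_eq_card _ _

lemma rt_eval (S : Finset ℤ) (x : ℤ) : (rt S).eval (x : ℝ) = ∏ t ∈ S, ((x - t : ℤ) : ℝ) := by
  simp [rt, eval_prod]

lemma rt_zero {S : Finset ℤ} {x : ℤ} (h : x ∈ S) : (rt S).eval (x : ℝ) = 0 := by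
  rw [rt_eval]; exact prod_eq_zero h (by simp)

lemma rt_norm (S : Finset ℤ) (z : ℂ) : ‖aeval z (rt S)‖ ≤ exp (LG z S) := by
  have : aeval z (rt S) = ∏ t ∈ S, (z - t) := by simp [rt, map_prod]
  rw [this]; exact norm_prod_le_LG z S

/-- the basis -/
def bas (S : Finset ℤ) {k : ℕ} (a : Fin k → ℤ) (l : ℕ) : Fin k ⊕ Fin l → ℝ[X] :=
  Sum.elim (fun i => rt (S.erase (a i))) fun j => rt S * X ^ (j : ℕ)

/-- the power of the variable in a basis element -/
def dg {k l : ℕ} : Fin k ⊕ Fin l → ℕ := Sum.elim (fun _ => 0) fun j => j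

section basis

variable {S : Finset ℤ} {k : ℕ} {a : Fin k → ℤ} (hS : #S = k) (ha : Function.Injective a)
  (hi : image a univ = S) (l : ℕ)

lemma bas_norm (z : ℂ) (i : Fin k ⊕ Fin l) :
    ‖aeval z (bas S a l i)‖ ≤ exp (LG z S) * max 1 ‖z‖ ^ dg i := by
  rcases i with i | j
  · simpa [bas, dg] using (rt_norm _ z).trans (exp_le_exp.2 (LG_mono z (erase_subset _ _)))
  · simp only [bas, dg, Sum.elim_inr, map_mul, map_pow, aeval_X, norm_mul, norm_pow]
    gcongr
    · exact rt_norm _ z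
    · exact le_max_right _ _

include hi in
lemma mem_of_im (i : Fin k) : a i ∈ S := hi ▸ mem_image_of_mem _ (mem_univ i)

include hS hi in
lemma deg_erase (i : Fin k) : (rt (S.erase (a i))).natDegree < k := by
  have := i.pos
  rw [rt_deg, card_erase_of_mem (mem_of_im hi i)]; omega

include hS in
lemma deg_mul (j : ℕ) : (rt S * X ^ j).natDegree = k + j := by
  rw [(rt_monic S).natDegree_mul (monic_X_pow j), rt_deg, natDegree_X_pow, hS]

include hS hi in
lemma bas_deg (i : Fin k ⊕ Fin l) : (bas S a l i).natDegree < k + l := by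
  rcases i with i | j
  · exact (deg_erase hS hi i).trans_le (by omega)
  · simp only [bas, Sum.elim_inr, deg_mul hS]; omega

include hS ha hi in
lemma det_coeff : (Matrix.of fun i j : Fin k ⊕ Fin l =>
    (bas S a l i).coeff (finSumFinEquiv j)).det ^ 2 = exp (∑ t ∈ S, LG t S) := by
  set C1 : Matrix (Fin k) (Fin k) ℝ := Matrix.of fun i j => (rt (S.erase (a i))).coeff j with hC1
  set C2 : Matrix (Fin l) (Fin l) ℝ := Matrix.of fun i j => (rt S * X ^ (i : ℕ)).coeff (k + j)
    with hC2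
  have h1 : (Matrix.of fun i j : Fin k ⊕ Fin l => (bas S a l i).coeff (finSumFinEquiv j)) =
      Matrix.fromBlocks C1 0 (Matrix.of fun i j => (rt S * X ^ (i : ℕ)).coeff j) C2 := by
    ext (i | i) (j | j) <;> simp [bas, hC1, hC2]
    exact coeff_eq_zero_of_natDegree_lt ((deg_erase hS hi i).trans_le (by omega))
  have h2 : C2.det = 1 := by
    rw [Matrix.det_of_isLowerTriangular]
    · refine prod_eq_one fun i _ => ?_
      simp only [hC2, Matrix.of_apply, ← deg_mul hS]
      exact ((rt_monic S).mul (monic_X_pow _)).coeff_natDegree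
    · intro i j hij
      exact coeff_eq_zero_of_natDegree_lt
        ((deg_mul hS i).trans_lt (Nat.add_lt_add_left hij k))
  have h3 : C1 * (Matrix.vandermonde fun i => (a i : ℝ)).transpose =
      Matrix.diagonal fun i => (rt (S.erase (a i))).eval (a i : ℝ) := by
    ext i j
    have : (C1 * (Matrix.vandermonde fun i => (a i : ℝ)).transpose) i j =
        (rt (S.erase (a i))).eval (a j : ℝ) := by
      rw [eval_eq_sum_range' (deg_erase hS hi i), sum_range]; simp [Matrix.mul_apply, hC1]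
    rw [this, Matrix.diagonal_apply]
    split_ifs with e
    · rw [e]
    · exact rt_zero (mem_erase.2 ⟨fun h => e (ha h).symm, mem_of_im hi j⟩)
  have h4 : ∀ i, |(rt (S.erase (a i))).eval (a i : ℝ)| = exp (LG (a i) S) := fun i => by
    rw [rt_eval, abs_prod_erase]
  have h5 : exp (∑ t ∈ S, LG t S) = ∏ i, exp (LG (a i) S) := by
    rw [← exp_sum, ← sum_image (f := fun t : ℤ => LG t S) ha.injOn, hi]
  have h6 : (Matrix.vandermonde fun i => (a i : ℝ)).det ^ 2 = exp (∑ t ∈ S, LG t S) := by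
    rw [h5, ← sq_abs, Matrix.det_vandermonde, abs_prod, ← prod_pow]
    have := prod_prod_Ioi_mul_eq_prod_prod_off_diag fun i j : Fin k => |(a j : ℝ) - a i|
    refine Eq.trans (prod_congr rfl fun i _ => ?_) (this.trans (prod_congr rfl fun i _ => ?_))
    · rw [abs_prod, ← prod_pow]
      exact prod_congr rfl fun j _ => by rw [abs_sub_comm (a i : ℝ), sq]
    · rw [← abs_prod_erase, ← hi, ← image_erase ha, prod_image ha.injOn, abs_prod,
        compl_singleton]
      simp
  have h7 := congrArg (fun M => M.det ^ 2) h3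
  simp only [Matrix.det_mul, Matrix.det_transpose, Matrix.det_diagonal, mul_pow] at h7
  rw [h6, ← sq_abs (∏ i, _), abs_prod, prod_congr rfl fun i _ => h4 i, ← h5, sq (exp _)] at h7
  rw [h1, Matrix.det_fromBlocks_zero₁₂, h2, mul_one]
  exact mul_right_cancel₀ (exp_pos _).ne' h7

include hS ha hi in
lemma gram_sum (n : ℕ) : (Matrix.of fun i j => Lf ℝ n (bas S a l i * bas S a l j)).det =
    exp (∑ t ∈ S, LG t S) * hank ℝ n (k + l) := by
  have h := gram_eq n (k + l) (fun i => bas S a l (finSumFinEquiv.symm i))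
    fun i => bas_deg hS hi l _
  rw [← Matrix.det_submatrix_equiv_self finSumFinEquiv,
    ← Matrix.det_submatrix_equiv_self finSumFinEquiv (Matrix.of fun i j => coeff _ _)] at h
  rw [← det_coeff hS ha hi l]
  simpa only [Matrix.submatrix, Matrix.of_apply, Equiv.symm_apply_apply] using h

end basis

lemma norm_wc (n : ℕ) (τ : ℝ) :
    ‖wc n (τ * I)‖ ≤ exp (LG (τ * I) (zeros n) - LG (τ * I) (nodes n)) := by
  rw [wc, norm_div, exp_sub, norm_prod_eq_LG (S := nodes n) fun t ht => ?_]
  · gcongr; exact norm_prod_le_LG _ _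
  · refine le_trans ?_ (by simpa using le_norm_axis t τ)
    rw [mem_nodes] at ht
    exact_mod_cast Int.one_le_abs (by omega : t ≠ 0)

lemma abs_wt (n : ℕ) (x : ℤ) : |wt ℝ n x| ≤ exp (LG x (zeros n) - LG x (nodes n)) := by
  rw [wt, abs_div, exp_sub, abs_prod_erase]
  gcongr
  refine le_trans (le_of_eq ?_) (norm_prod_le_LG x _)
  rw [← Real.norm_eq_abs, ← Complex.norm_real]; push_cast; rfl

lemma abs_eval (P : ℝ[X]) (x : ℤ) : |P.eval (x : ℝ)| = ‖aeval (x : ℂ) P‖ := by
  have h3 : aeval (x : ℂ) P = ((P.eval (x : ℝ) : ℝ) : ℂ) := by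
    rw [← Complex.ofReal_intCast]; exact aeval_algebraMap_apply_eq_algebraMap_eval _ _
  rw [h3, Complex.norm_real, Real.norm_eq_abs]

lemma card_sat (n : ℕ) : #(sat n) = 6 * n := by
  rw [sat, card_sdiff_of_subset (ap_sub 2 (by omega)), card_ap, card_ap] <;> omega

variable {m C : ℕ}

lemma entry (hm : 1 ≤ m) (hC : 2 * C + 17 ≤ 120 * m) {k l : ℕ} {a : Fin k → ℤ}
    (hS : #(sat (20 * m)) = k) (ha : Function.Injective a) (hi : image a univ = sat (20 * m))
    (hl : l ≤ 80 * m + C) (i j : Fin k ⊕ Fin l) {E : ℝ} (h1 : Gam m C (dg i + dg j) ≤ E)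
    (h2 : ∀ s, i = .inl s → j = .inl s → VV m (a s) ≤ E) :
    |Lf ℝ (20 * m) (bas (sat (20 * m)) a l i * bas (sat (20 * m)) a l j)| ≤ exp (E + err m C) := by
  set B := bas (sat (20 * m)) a l with hB
  have hk : k = 120 * m := by rw [← hS, card_sat]; ring
  have hd : ∀ i : Fin k ⊕ Fin l, dg i ≤ 80 * m + C := by
    rintro (i | i) <;> simp only [dg, Sum.elim_inl, Sum.elim_inr] <;> omega
  have hh : dg i + dg j ≤ 160 * m + 2 * C := by have := hd i; have := hd j; omega
  have hn : ∀ (z : ℂ) (w : ℝ), 0 ≤ w → w ≤ exp (LG z (zeros (20 * m)) - LG z (nodes (20 * m))) →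
      w * ‖aeval z (B i * B j)‖ ≤ exp (VV m z) * max 1 ‖z‖ ^ (dg i + dg j) := fun z w h0 hw => by
    rw [map_mul, norm_mul, VV, exp_add, two_mul, exp_add, pow_add]
    calc _ ≤ exp (LG z (zeros (20 * m)) - LG z (nodes (20 * m))) *
          (exp (LG z (sat (20 * m))) * max 1 ‖z‖ ^ dg i *
            (exp (LG z (sat (20 * m))) * max 1 ‖z‖ ^ dg j)) := by
          gcongr <;> exact bas_norm l z _
      _ = _ := by ring
  have h3 := rep (20 * m) (B i * B j) (M := exp E) (by
      have := natDegree_mul_le (p := B i) (q := B j)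
      have : (B i).natDegree < _ := bas_deg hS hi l i
      have : (B j).natDegree < _ := bas_deg hS hi l j
      omega) fun τ => by
    rw [le_div_iff₀ (by positivity), norm_mul, mul_assoc]
    exact le_trans (mul_le_mul_of_nonneg_right (hn _ _ (norm_nonneg _) (norm_wc _ τ))
      (by positivity)) ((free_imag hm hC hh τ).trans (exp_le_exp.2 h1))
  have h4 : ∀ x ∈ ap 2 (8 * (20 * m)), |wt ℝ (20 * m) x * (B i * B j).eval (x : ℝ)| ≤ exp E := by
    intro x hx
    have h5 := hn x _ (abs_nonneg _) (abs_wt _ x)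
    rw [← abs_eval, ← abs_mul] at h5
    by_cases hx5 : x ∈ ap 2 (5 * (20 * m))
    · exact h5.trans ((free_real hm hC hh hx5).trans (exp_le_exp.2 h1))
    · have hs : x ∈ sat (20 * m) := mem_sdiff.2 ⟨hx, hx5⟩
      have h6 : ∀ i, (B i).eval (x : ℝ) = 0 ∨ ∃ s, i = .inl s ∧ a s = x := by
        rintro (s | s)
        · by_cases e : a s = x
          · exact .inr ⟨s, rfl, e⟩
          · exact .inl (rt_zero (mem_erase.2 ⟨Ne.symm e, hs⟩))
        · exact .inl (by simp [hB, bas, rt_zero hs])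
      rcases h6 i with e | ⟨s, rfl, e⟩
      · simp [e, (exp_pos E).le]
      rcases h6 j with e' | ⟨s', rfl, e'⟩
      · simp [e', (exp_pos E).le]
      obtain rfl : s = s' := ha (e.trans e'.symm)
      refine h5.trans ?_
      simpa [dg, ← e] using h2 s rfl rfl
  have h7 := sum_le_card_nsmul _ _ _ h4
  rw [card_ap (by norm_num) (by norm_num), nsmul_eq_mul] at h7
  have hm' : (1 : ℝ) ≤ m := by exact_mod_cast hm
  have h8 : (10 * m : ℝ) ^ 8 ≤ exp (err m C) := by
    rw [← exp_log (show (0 : ℝ) < (10 * m) ^ 8 by positivity), Real.log_pow, exp_le_exp, err]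
    have : 0 ≤ Real.log (10 * m) := Real.log_nonneg (by linarith)
    have : (0 : ℝ) ≤ C := C.cast_nonneg
    push_cast; linarith
  have h9 : (m : ℝ) ^ 2 ≤ m ^ 8 := pow_le_pow_right₀ hm' (by norm_num)
  rw [exp_add]
  push_cast at h3 h7
  calc _ ≤ 60 * exp E + (6800 * (20 * m) + 200) * (2 * (8 * (20 * m)) * exp E) :=
        h3.trans (by gcongr)
    _ = exp E * (60 + (6800 * (20 * m) + 200) * (2 * (8 * (20 * m)))) := by ring
    _ ≤ _ := by gcongr; nlinarith

lemma sum_Gam (l : ℕ) : ∑ j ∈ range l, Gam m C (2 * j) =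
    (l * (l - 1) - 280 * m * l) * Real.log (10 * m) -
      Real.log 2 * (2270 * m * l - 115 * (l * (l - 1)) / 16) + l * err m C := by
  induction l with
  | zero => simp
  | succ l ih => rw [sum_range_succ, ih, Gam]; push_cast; ring

lemma ev_err (C : ℕ) : ∀ᶠ m : ℕ in atTop, err m C ≤ m / 2 := by
  have h := ((tendsto_natCast_atTop_atTop (R := ℝ)).const_mul_atTop
    (show 0 < (10 : ℝ) by norm_num)).eventually
    (isLittleO_log_id_atTop.bound (show (0 : ℝ) < 1 / 20000 by norm_num))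
  filter_upwards [h, eventually_ge_atTop (56 * C + 800)] with m h1 h2
  have h3 : (56 * C + 800 : ℝ) ≤ m := by exact_mod_cast h2
  rw [id, Real.norm_of_nonneg (by positivity : (0 : ℝ) ≤ 10 * m), Real.norm_eq_abs] at h1
  rw [err]; linarith [le_abs_self (Real.log (10 * m))]

/-- the size of the Hankel determinant -/
theorem real_bound (C : ℕ) : ∀ᶠ m : ℕ in atTop, ∀ d, 10 * (20 * m) ≤ d → d ≤ 10 * (20 * m) + C →
    |hank ℝ (20 * m) d| ≤
      exp ((-160 * Real.log ((20 * m : ℕ) : ℝ) - 720) * ((20 * m : ℕ) : ℝ) ^ 2) := by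
  filter_upwards [ev_err C, eventually_ge_atTop (C ^ 2 + C + 1)] with m he hm2 d hd1 hd2
  have hm : 1 ≤ m := by omega
  have hC : 2 * C + 17 ≤ 120 * m := by omega
  obtain ⟨c, rfl⟩ : ∃ c, d = 120 * m + (80 * m + c) := ⟨d - 200 * m, by omega⟩
  have hc : c ≤ C := by omega
  have hS : #(sat (20 * m)) = 120 * m := by rw [card_sat]; ring
  obtain ⟨a, ha, hi⟩ : ∃ a : Fin (120 * m) → ℤ, Function.Injective a ∧
      image a univ = sat (20 * m) :=
    ⟨_, ((sat (20 * m)).orderEmbOfFin hS).injective, image_orderEmbOfFin_univ _ hS⟩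
  set δ : Fin (120 * m) ⊕ Fin (80 * m + c) → ℝ := Sum.elim
    (fun s => LG (a s) (sat (20 * m)) + gain m (a s) + 2 * err m C) fun j => Gam m C (2 * j) with hδ
  have hm' : (1 : ℝ) ≤ m := by exact_mod_cast hm
  have hL : 0 ≤ Real.log (10 * m) := Real.log_nonneg (by linarith)
  have c0 : (0 : ℝ) ≤ C := C.cast_nonneg
  have e0 : 0 ≤ err m C := by rw [err]; positivity
  have h1 : ∀ i, Gam m C (2 * dg i) ≤ δ i := by
    rintro (s | j)
    · have := (sat_bound (C := C) hm (mem_of_im hi s)).1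
      simp only [hδ, dg, Sum.elim_inl, mul_zero]; linarith
    · exact le_rfl
  have h2 := det_le_exp (Matrix.of fun i j => Lf ℝ (20 * m) (bas (sat (20 * m)) a _ i *
      bas (sat (20 * m)) a _ j)) (fun i => (δ i + err m C) / 2) fun i j => by
    rw [show (δ i + err m C) / 2 + (δ j + err m C) / 2 = (δ i + δ j) / 2 + err m C by ring]
    refine entry hm hC hS ha hi (by omega) i j ?_ ?_
    · have a1 := h1 i
      have a2 := h1 j
      simp only [Gam] at a1 a2 ⊢
      push_cast at a1 a2 ⊢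
      linarith
    · rintro s rfl rfl
      have := (sat_bound (C := C) hm (mem_of_im hi s)).2
      simp only [hδ, Sum.elim_inl]; linarith
  have h3 : ∑ i, 2 * ((δ i + err m C) / 2) = ∑ t ∈ sat (20 * m), LG t (sat (20 * m)) +
      (∑ t ∈ sat (20 * m), gain m t + ∑ j ∈ range (80 * m + c), Gam m C (2 * j) +
        (440 * m + c) * err m C) := by
    rw [← hi, sum_image ha.injOn, sum_image ha.injOn, hi, sum_range, Fintype.sum_sum_type]
    simp only [hδ, Sum.elim_inl, Sum.elim_inr, mul_div_cancel₀ _ (two_ne_zero' ℝ), sum_add_distrib,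
      sum_const, card_univ, Fintype.card_fin, nsmul_eq_mul]
    push_cast; ring
  rw [gram_sum hS ha hi, h3, exp_add, abs_mul, abs_of_pos (exp_pos _), mul_left_comm,
    mul_le_mul_iff_right₀ (exp_pos _), sum_gain hm, sum_Gam, Fintype.card_sum, Fintype.card_fin,
    Fintype.card_fin] at h2
  refine h2.trans ?_
  set d := 120 * m + (80 * m + c) with hd
  have hc' : (c : ℝ) ≤ C := by exact_mod_cast hc
  have c1 : (0 : ℝ) ≤ c := c.cast_nonneg
  have hm3 : (C ^ 2 + C + 1 : ℝ) ≤ m := by exact_mod_cast hm2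
  have hd' : (d : ℝ) ≤ 201 * m := by rw [hd]; push_cast; nlinarith
  have h4 : (d.factorial : ℝ) ≤ exp (201 * m * err m C) := by
    have a1 : (d.factorial : ℝ) ≤ (d : ℝ) ^ d := by exact_mod_cast Nat.factorial_le_pow d
    have a2 : (d : ℝ) ≤ exp (err m C) := by
      refine hd'.trans (le_trans (by nlinarith : _ ≤ (10 * m : ℝ) ^ 3) ?_)
      rw [← exp_log (show (0 : ℝ) < (10 * m) ^ 3 by positivity), Real.log_pow, exp_le_exp, err]
      push_cast; linarith
    refine a1.trans ((pow_le_pow_left₀ d.cast_nonneg a2 d).trans ?_)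
    rw [← exp_nat_mul, exp_le_exp]; gcongr
  refine (mul_le_mul_of_nonneg_right h4 (exp_pos _).le).trans ?_
  rw [← exp_add, exp_le_exp]
  push_cast
  rw [show (20 * m : ℝ) = 2 * (10 * m) by ring,
    Real.log_mul (x := 2) (by norm_num) (by positivity)]
  have l2 := Real.log_two_gt_d9
  have b1 : (80 * m + c : ℝ) * (80 * m + c - 1) - 280 * m * (80 * m + c) ≤ -(16000 * m ^ 2) + m := by
    nlinarith
  have b2 : 135600 * (m : ℝ) ^ 2 ≤
      2270 * m * (80 * m + c) - 115 * ((80 * m + c) * (80 * m + c - 1)) / 16 := by nlinarith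
  have b3 := mul_le_mul_of_nonneg_right b1 hL
  have b4 := mul_le_mul_of_nonneg_left b2 (show 0 ≤ Real.log 2 by linarith)
  have b5 : m * Real.log (10 * m) ≤ m * err m C := by
    gcongr; rw [err]; linarith
  have b6 : c * err m C ≤ m * err m C := by gcongr; nlinarith
  have b7 := mul_le_mul_of_nonneg_left he (show (0 : ℝ) ≤ m by linarith)
  have b8 := mul_le_mul_of_nonneg_left l2.le (sq_nonneg (m : ℝ))
  linarith [sq_nonneg (m : ℝ)]

end

end Pool.Agent.B10
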