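import Mathlib

/-!
Base ten, real place: the finite inequalities between products of natural numbers.
-/

set_option autoImplicit false

namespace Pool.Agent.B10

open Finset

/-- distance of two indices -/
def dd (i k : ℕ) : ℕ := (i - k) + (k - i)

/-- upper bound for a pair of blocks seen from the real cell `k` -/
def upR (k i : ℕ) : ℕ := (dd i k + 1) * (i + k + 2)

/-- thirty-six times a lower bound for a pair of blocks seen from the real cell `k` -/
def loS (k i : ℕ) : ℕ := max 1 (6 * (dd i k - 1)) * (6 * (i + k))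

/-- the two inequalities of a free cell -/
def okF (u l : ℕ → ℕ) (Q : ℕ) : Prop :=
  (∏ i ∈ range 40, u i) * 36 ^ 180 * 2 ^ 2270 ≤ ∏ i ∈ range 180, l (160 + i) ∧
    (∏ i ∈ range 40, u i) * 36 ^ 180 * Q ^ 80 * 2 ^ 1120 ≤ ∏ i ∈ range 180, l (160 + i)

instance (u l : ℕ → ℕ) (Q : ℕ) : Decidable (okF u l Q) := by unfold okF; infer_instance

/-- exponents of the saturated cells -/
def es (k : ℕ) : ℕ :=
  [2993, 2983, 2975, 2968, 2962, 2956, 2950, 2945, 2940, 2935, 2930, 2926, 2922, 2917, 2913, 2909,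
    2905, 2902, 2898, 2895, 2891, 2888, 2884, 2881, 2878, 2875, 2872, 2869, 2866, 2864, 2861, 2858,
    2856, 2853, 2850, 2848, 2846, 2843, 2841, 2839, 2837, 2834, 2832, 2830, 2828, 2826, 2824, 2823,
    2821, 2819, 2817, 2815, 2814, 2812, 2810, 2809, 2807, 2806, 2804, 2803].getD k 0

lemma chk_real : ∀ k ∈ range 100, okF (upR k) (loS k) ((k + 1) ^ 2) := by decide +kernel

lemma chk_imag : ∀ y ∈ range 700, okF (fun i => (y + 1) ^ 2 + (i + 1) ^ 2)
    (fun i => 36 * (y ^ 2 + i ^ 2)) ((y + 1) ^ 2) := by decide +kernel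

lemma chk_tail : okF (fun i => 700 ^ 2 + (i + 1) ^ 2) (fun _ => 36 * 700 ^ 2) (700 ^ 2) := by
  decide +kernel

lemma chk_sat : ∀ k ∈ range 60,
    (∏ i ∈ range 40, upR (100 + k) i) * 36 ^ 240 * 2 ^ es k ≤
        ∏ i ∈ range 240, loS (100 + k) (100 + i) ∧
      36 ^ 60 * 2 ^ es k ≤ (∏ i ∈ range 60, loS (100 + k) (100 + i)) * 2 ^ 2270 := by
  decide +kernel

lemma sum_es : ∑ k ∈ range 60, es k = 172358 := by decide +kernel

end Pool.Agent.B10
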