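import Pool.Agent.Lib.MP_5e2fbc_nt.B10.RealLog
import Pool.Agent.Lib.MP_5e2fbc_nt.B10.RealChk

/-!
Base ten, real place: pointwise bounds on the support, cell by cell.
-/

set_option autoImplicit false

namespace Pool.Agent.B10

open Finset Real Complex

noncomputable section

/-- the two blocks at distance `i` from the origin -/
def pr (z : ℂ) (m i : ℕ) : ℝ :=
  bs (fun j => ph z (0 + 10 * j)) m i + bs (fun j => ph z (0 + 10 * j)) m (-1 - i)

lemma LG_zero (z : ℂ) (m c : ℕ) : LG z (ap 0 (c * m)) = ∑ i ∈ range c, pr z m i := by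
  rw [LG, sum_ap le_rfl (by norm_num), sum_blocks]; rfl

lemma blk_pos {m i : ℕ} {j : ℤ} (h1 : (i : ℤ) * m ≤ j) (h2 : j < i * m + m) :
    10 * (m : ℝ) * i ≤ 10 * j ∧ (10 * j : ℝ) ≤ 10 * m * (i + 1) := by
  have a : ((i : ℤ) * m : ℝ) ≤ j := by exact_mod_cast h1
  have b : (j : ℝ) ≤ (i : ℤ) * m + m := by exact_mod_cast h2.le
  push_cast at a b
  constructor <;> linarith

lemma blk_neg {m i : ℕ} {j : ℤ} (h1 : (-1 - i : ℤ) * m ≤ j) (h2 : j < (-1 - i) * m + m) :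
    10 * (m : ℝ) * i ≤ -(10 * j) ∧ (-(10 * j) : ℝ) ≤ 10 * m * (i + 1) := by
  have a : ((-1 - i : ℤ) * m : ℝ) ≤ j := by exact_mod_cast h1
  have b : (j : ℝ) ≤ (-1 - i : ℤ) * m + m := by exact_mod_cast h2.le
  push_cast at a b
  constructor <;> linarith

lemma cast_pos' (z : ℂ) (j : ℤ) : z - ((0 + 10 * j : ℤ) : ℂ) = z - ((10 * j : ℝ) : ℂ) := by
  push_cast; ring

lemma cast_neg' (z : ℂ) (j : ℤ) : z - ((0 + 10 * j : ℤ) : ℂ) = z + ((-(10 * j) : ℝ) : ℂ) := by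
  push_cast; ring

lemma pr_le {z : ℂ} {m i : ℕ} {β γ : ℝ} (hβ : 1 ≤ β) (hγ : 1 ≤ γ)
    (h : ∀ b : ℝ, 10 * m * i ≤ b → b ≤ 10 * m * (i + 1) → ‖z - b‖ ≤ β ∧ ‖z + b‖ ≤ γ) :
    pr z m i ≤ m * Real.log (β * γ) := by
  rw [Real.log_mul (by positivity) (by positivity), mul_add]
  refine add_le_add (bs_le fun j h1 h2 => ph_le hβ ?_) (bs_le fun j h1 h2 => ph_le hγ ?_)
  · rw [cast_pos']; exact (h _ (blk_pos h1 h2).1 (blk_pos h1 h2).2).1
  · rw [cast_neg']; exact (h _ (blk_neg h1 h2).1 (blk_neg h1 h2).2).2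

lemma le_bs_pos {z : ℂ} {m i : ℕ} {β : ℝ} (hβ : 0 < β)
    (h : ∀ b : ℝ, 10 * m * i ≤ b → b ≤ 10 * m * (i + 1) → β ≤ ‖z - b‖) :
    m * Real.log β ≤ bs (fun j => ph z (0 + 10 * j)) m i :=
  le_bs fun j h1 h2 => le_ph hβ (by
    rw [cast_pos']; exact h _ (blk_pos h1 h2).1 (blk_pos h1 h2).2)

lemma le_bs_neg {z : ℂ} {m i : ℕ} {β : ℝ} (hβ : 0 < β)
    (h : ∀ b : ℝ, 10 * m * i ≤ b → b ≤ 10 * m * (i + 1) → β ≤ ‖z + b‖) :
    m * Real.log β ≤ bs (fun j => ph z (0 + 10 * j)) m (-1 - i) :=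
  le_bs fun j h1 h2 => le_ph hβ (by
    rw [cast_neg']; exact h _ (blk_neg h1 h2).1 (blk_neg h1 h2).2)

lemma near {ρ a b : ℝ} {i k : ℕ} (a0 : ρ * k ≤ a) (a1 : a ≤ ρ * (k + 1)) (b0 : ρ * i ≤ b)
    (b1 : b ≤ ρ * (i + 1)) :
    |a - b| ≤ ρ * (dd i k + 1) ∧ ρ * (dd i k - 1) ≤ |a - b| := by
  rcases le_total i k with h | h
  · have : (dd i k : ℝ) = k - i := by rw [dd, Nat.sub_eq_zero_of_le h, zero_add, Nat.cast_sub h]
    have h' : (i : ℝ) ≤ k := by exact_mod_cast h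
    have : 0 ≤ ρ := by linarith
    rw [‹(dd i k : ℝ) = _›]
    exact ⟨abs_le.2 ⟨by nlinarith, by linarith⟩, le_trans (by linarith) (le_abs_self _)⟩
  · have : (dd i k : ℝ) = i - k := by rw [dd, Nat.sub_eq_zero_of_le h, add_zero, Nat.cast_sub h]
    have h' : (k : ℝ) ≤ i := by exact_mod_cast h
    have : 0 ≤ ρ := by linarith
    rw [‹(dd i k : ℝ) = _›]
    exact ⟨abs_le.2 ⟨by linarith, by nlinarith⟩, le_trans (by linarith) (neg_le_abs _)⟩

/-- bounds for all pairs of blocks at scale `ρ` -/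
structure Cell (z : ℂ) (m : ℕ) (ρ : ℝ) (u l : ℕ → ℕ) (Q : ℕ) : Prop where
  hρ : 10 * (m : ℝ) ≤ ρ
  hu : ∀ i, 0 < u i
  hl : ∀ i, 0 < i → 0 < l i
  hQ : 0 < Q
  up : ∀ i, pr z m i ≤ m * Real.log (ρ ^ 2 * u i)
  lo : ∀ i, 0 < i → m * Real.log (ρ ^ 2 * l i / 36) - 2 * Real.log (10 * m) ≤ pr z m i
  nm : ‖z‖ ^ 2 ≤ ρ ^ 2 * Q

lemma cell_real {m k : ℕ} (hm : 1 ≤ m) {x : ℝ} (h0 : 10 * m * k ≤ |x|)
    (h1 : |x| ≤ 10 * m * (k + 1)) : Cell x m (10 * m) (upR k) (loS k) ((k + 1) ^ 2) := by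
  have hm' : (1 : ℝ) ≤ m := by exact_mod_cast hm
  have n1 : ∀ b : ℝ, ‖(x : ℂ) - b‖ = |x - b| := fun b => by
    rw [← ofReal_sub, Complex.norm_real, Real.norm_eq_abs]
  have n2 : ∀ b : ℝ, ‖(x : ℂ) + b‖ = |x + b| := fun b => by
    rw [← ofReal_add, Complex.norm_real, Real.norm_eq_abs]
  have hL : 0 ≤ Real.log (10 * m) := Real.log_nonneg (by linarith)
  refine ⟨le_rfl, fun i => by unfold upR; positivity, fun i hi => by unfold loS; positivity,
    by positivity, fun i => ?_, fun i hi => ?_, ?_⟩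
  · have p1 : (1 : ℝ) ≤ 10 * m * (dd i k + 1) := by
      nlinarith [show (0 : ℝ) ≤ dd i k from Nat.cast_nonneg _]
    have p2 : (1 : ℝ) ≤ 10 * m * (i + k + 2) := by
      nlinarith [show (0 : ℝ) ≤ i from Nat.cast_nonneg _, show (0 : ℝ) ≤ k from Nat.cast_nonneg _]
    have e : (10 * m : ℝ) ^ 2 * upR k i = 10 * m * (dd i k + 1) * (10 * m * (i + k + 2)) := by
      rw [upR]; push_cast; ring
    rcases le_total 0 x with hx | hx
    · rw [abs_of_nonneg hx] at h0 h1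
      rw [e]
      refine pr_le p1 p2 fun b b0 b1 => ?_
      have : 0 ≤ b := le_trans (by positivity) b0
      rw [n1, n2, abs_of_nonneg (by linarith : 0 ≤ x + b)]
      exact ⟨(near h0 h1 b0 b1).1, by linarith⟩
    · rw [abs_of_nonpos hx] at h0 h1
      rw [e, mul_comm (10 * (m : ℝ) * (dd i k + 1))]
      refine pr_le p2 p1 fun b b0 b1 => ?_
      have : 0 ≤ b := le_trans (by positivity) b0
      rw [n1, n2, abs_of_nonpos (by linarith : x - b ≤ 0), ← abs_neg,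
        show -(x + b) = -x - b by ring]
      exact ⟨by linarith, (near h0 h1 b0 b1).1⟩
  · have hi' : (1 : ℝ) ≤ i := by exact_mod_cast hi
    have p2 : (0 : ℝ) < 10 * m * (i + k) := by positivity
    have key : ∀ κ : ℤ, (2 ≤ dd i k → m * Real.log (10 * m * (dd i k - 1)) ≤
        bs (fun j => ph x (0 + 10 * j)) m κ) →
        m * Real.log (10 * m * (max 1 (6 * (dd i k - 1)) : ℕ) / 6) - 2 * Real.log (10 * m) ≤
          bs (fun j => ph x (0 + 10 * j)) m κ := fun κ h => by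
      rcases le_or_gt 2 (dd i k) with h2 | h2
      · rw [max_eq_right (by omega), Nat.cast_mul, Nat.cast_sub (by omega)]
        have := h h2
        push_cast
        rw [show 10 * (m : ℝ) * (6 * (dd i k - 1)) / 6 = 10 * m * (dd i k - 1) by ring]
        linarith
      · rw [max_eq_left (by omega), Nat.cast_one, mul_one]; exact bs_sing _ hm κ
    have p3 : 2 ≤ dd i k → (0 : ℝ) < 10 * m * (dd i k - 1) := fun h => by
      have : (2 : ℝ) ≤ dd i k := by exact_mod_cast h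
      have : (0 : ℝ) < dd i k - 1 := by linarith
      positivity
    have e : (10 * m : ℝ) ^ 2 * loS k i / 36 =
        10 * m * (max 1 (6 * (dd i k - 1)) : ℕ) / 6 * (10 * m * (i + k)) := by
      rw [loS, Nat.cast_mul]; push_cast; ring
    rw [e, Real.log_mul (by positivity) p2.ne', pr]
    rcases le_total 0 x with hx | hx
    · rw [abs_of_nonneg hx] at h0 h1
      have a := key i fun h => le_bs_pos (p3 h) fun b b0 b1 => by
        rw [n1]; exact (near h0 h1 b0 b1).2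
      have b := le_bs_neg (z := x) (m := m) (i := i) p2 fun b b0 b1 => by
        rw [n2]; exact le_trans (by linarith) (le_abs_self _)
      linarith
    · rw [abs_of_nonpos hx] at h0 h1
      have a := key (-1 - i) fun h => le_bs_neg (p3 h) fun b b0 b1 => by
        rw [n2, ← abs_neg, show -(x + b) = -x - b by ring]; exact (near h0 h1 b0 b1).2
      have b := le_bs_pos (z := x) (m := m) (i := i) p2 fun b b0 b1 => by
        rw [n1]; exact le_trans (by linarith) (neg_le_abs _)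
      linarith
  · rw [Complex.norm_real, Real.norm_eq_abs]
    push_cast
    rw [← mul_pow]
    exact pow_le_pow_left₀ (abs_nonneg _) h1 2

lemma cell_imag {m y : ℕ} (hm : 1 ≤ m) (hy : 0 < y) {τ ρ : ℝ} (hρ : 10 * (m : ℝ) ≤ ρ)
    (h1 : τ ^ 2 ≤ ρ ^ 2 * y ^ 2) {l : ℕ → ℕ} (hl : ∀ i, 0 < i → 0 < l i)
    (h0 : ∀ i, ρ ^ 2 * l i / 36 ≤ τ ^ 2 + (10 * m * i) ^ 2) :
    Cell (τ * I) m ρ (fun i => y ^ 2 + (i + 1) ^ 2) l (y ^ 2) := by
  have hm' : (1 : ℝ) ≤ m := by exact_mod_cast hm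
  have hy' : (1 : ℝ) ≤ y := by exact_mod_cast hy
  have hρ1 : 1 ≤ ρ := by linarith
  have n1 : ∀ b : ℝ, ‖(τ : ℂ) * I - b‖ = √(τ ^ 2 + b ^ 2) := fun b => by
    rw [Complex.norm_def, Complex.normSq_apply]; congr 1; simp; ring
  have n2 : ∀ b : ℝ, ‖(τ : ℂ) * I + b‖ = √(τ ^ 2 + b ^ 2) := fun b => by
    rw [Complex.norm_def, Complex.normSq_apply]; congr 1; simp; ring
  have hL : 0 ≤ Real.log (10 * m) := Real.log_nonneg (by linarith)
  refine ⟨hρ, fun i => by positivity, hl, by positivity, fun i => ?_, fun i hi => ?_, ?_⟩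
  · set v : ℝ := ρ ^ 2 * (y ^ 2 + (i + 1) ^ 2 : ℕ) with hv
    have p : 1 ≤ v := one_le_mul_of_one_le_of_one_le (one_le_pow₀ hρ1)
      (by exact_mod_cast (by positivity : 0 < y ^ 2 + (i + 1) ^ 2))
    rw [← Real.mul_self_sqrt (show 0 ≤ v by linarith)]
    refine pr_le (one_le_sqrt.2 p) (one_le_sqrt.2 p) fun b b0 b1 => ?_
    have : 0 ≤ b := le_trans (by positivity) b0
    have : b ^ 2 ≤ (ρ * (i + 1)) ^ 2 := pow_le_pow_left₀ this (b1.trans (by gcongr)) 2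
    rw [n1, n2, and_self]
    refine sqrt_le_sqrt ?_
    rw [hv]; push_cast; nlinarith
  · have p : 0 < ρ ^ 2 * l i / 36 := by have := hl i hi; positivity
    have q : ∀ b : ℝ, 10 * m * i ≤ b → √(ρ ^ 2 * l i / 36) ≤ √(τ ^ 2 + b ^ 2) := fun b b0 =>
      sqrt_le_sqrt ((h0 i).trans (by gcongr))
    have a := le_bs_pos (z := τ * I) (m := m) (i := i) (sqrt_pos.2 p) fun b b0 _ => by
      rw [n1]; exact q b b0
    have b := le_bs_neg (z := τ * I) (m := m) (i := i) (sqrt_pos.2 p) fun b b0 _ => by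
      rw [n2]; exact q b b0
    rw [Real.log_sqrt p.le] at a b
    rw [pr]; linarith
  · simp only [norm_mul, Complex.norm_real, norm_I, mul_one, Real.norm_eq_abs, sq_abs]
    exact_mod_cast h1

variable {z : ℂ} {m : ℕ} {ρ : ℝ} {u l : ℕ → ℕ} {Q : ℕ}

lemma Cell.sum_up (h : Cell z m ρ u l Q) (hm : 1 ≤ m) (c : ℕ) : LG z (ap 0 (c * m)) ≤
    m * (2 * c * Real.log ρ + Real.log (∏ i ∈ range c, u i : ℕ)) := by
  have hρ : 0 < ρ := lt_of_lt_of_le (by positivity) h.hρ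
  rw [LG_zero, Nat.cast_prod, Real.log_prod fun i _ => by exact_mod_cast (h.hu i).ne']
  refine (sum_le_sum fun i _ => h.up i).trans (le_of_eq ?_)
  rw [← mul_sum, sum_congr rfl fun i _ =>
    Real.log_mul (by positivity) (by exact_mod_cast (h.hu i).ne'), sum_add_distrib]
  simp only [Real.log_pow, sum_const, card_range, nsmul_eq_mul]
  push_cast; ring

lemma Cell.sum_lo (h : Cell z m ρ u l Q) (hm : 1 ≤ m) {a : ℕ} (ha : 0 < a) (c : ℕ) :
    m * (2 * c * Real.log ρ + Real.log (∏ i ∈ range c, l (a + i) : ℕ) - c * Real.log 36) -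
      2 * c * Real.log (10 * m) ≤ LG z (ap 0 ((a + c) * m)) - LG z (ap 0 (a * m)) := by
  have hρ : 0 < ρ := lt_of_lt_of_le (by positivity) h.hρ
  have hl : ∀ i, (l (a + i) : ℝ) ≠ 0 := fun i => by exact_mod_cast (h.hl _ (by omega)).ne'
  rw [LG_zero, LG_zero, sum_range_add, add_sub_cancel_left, Nat.cast_prod,
    Real.log_prod fun i _ => hl i]
  refine le_of_eq_of_le ?_ (sum_le_sum fun i _ => h.lo (a + i) (by omega))
  rw [sum_sub_distrib, ← mul_sum, sum_congr rfl fun i _ =>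
    Real.log_div (mul_ne_zero (by positivity) (hl i)) (by norm_num), sum_sub_distrib,
    sum_congr rfl fun i _ => Real.log_mul (by positivity) (hl i), sum_add_distrib]
  simp only [Real.log_pow, sum_const, card_range, nsmul_eq_mul]
  push_cast; ring

lemma log_nat_le {a b : ℕ} (ha : 0 < a) (h : a ≤ b) : Real.log a ≤ Real.log b :=
  Real.log_le_log (by exact_mod_cast ha) (by exact_mod_cast h)

/-- the saturated nodes -/
def sat (n : ℕ) : Finset ℤ := ap 2 (8 * n) \ ap 2 (5 * n)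

lemma ap_sub (a : ℤ) {L M : ℕ} (h : L ≤ M) : ap a L ⊆ ap a M := fun t ht => by
  rw [mem_ap] at ht ⊢; omega

lemma LG_sat (z : ℂ) (n : ℕ) : LG z (sat n) = LG z (ap 2 (8 * n)) - LG z (ap 2 (5 * n)) :=
  sum_sdiff_eq_sub (ap_sub 2 (by omega))

lemma LG_zeros (z : ℂ) (n : ℕ) :
    LG z (zeros n) = LG z (ap 1 (2 * n)) + LG z (ap 9 (5 * n)) + LG z (ap 7 (5 * n)) := by
  rw [zeros, LG, sum_union (zeros_disj n), sum_union (ap_disj (by norm_num) _ _)]; rfl

lemma LG_nodes (z : ℂ) (n : ℕ) : LG z (nodes n) = LG z (ap 2 (8 * n)) + LG z (ap 5 (17 * n)) := by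
  rw [nodes, LG, sum_union (ap_disj (by norm_num) _ _)]; rfl

/-- all progressions compared with the multiples of ten -/
lemma cmp_all (z : ℂ) (m : ℕ) {R : ℝ} (hR : ‖z‖ + 3400 * m + 10 ≤ R) :
    LG z (zeros (20 * m)) - LG z (nodes (20 * m)) + 2 * LG z (sat (20 * m)) ≤
      LG z (ap 0 (40 * m)) - (LG z (ap 0 ((160 + 180) * m)) - LG z (ap 0 (160 * m))) +
        14 * Real.log R ∧
    LG z (zeros (20 * m)) - LG z (nodes (20 * m)) + LG z (sat (20 * m)) ≤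
      LG z (ap 0 (40 * m)) - (LG z (ap 0 ((100 + 240) * m)) - LG z (ap 0 (100 * m))) +
        10 * Real.log R ∧
    LG z (ap 0 ((100 + 60) * m)) - LG z (ap 0 (100 * m)) - 4 * Real.log R ≤
      LG z (sat (20 * m)) := by
  have c : ∀ (a b : ℤ) (k : ℕ), 0 ≤ a ∧ a < 10 ∧ 0 ≤ b ∧ b < 10 ∧ k ≤ 340 →
      LG z (ap a (k * m)) ≤ LG z (ap b (k * m)) + 2 * Real.log R := fun a b k h =>
    LG_cmp z h.1 h.2.1 h.2.2.1 h.2.2.2.1 _ (by
      have : ((k * m : ℕ) : ℝ) ≤ 340 * m := by exact_mod_cast Nat.mul_le_mul_right m h.2.2.2.2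
      linarith)
  simp only [LG_sat, LG_zeros, LG_nodes, ← mul_assoc]
  norm_num
  have := c 1 0 40 (by norm_num)
  have := c 9 2 100 (by norm_num)
  have := c 7 2 100 (by norm_num)
  have := c 2 0 100 (by norm_num)
  have := c 2 0 160 (by norm_num)
  have := c 0 2 160 (by norm_num)
  have := c 0 5 340 (by norm_num)
  have : 0 ≤ Real.log R := Real.log_nonneg (by
    have := norm_nonneg z; have : (0 : ℝ) ≤ m := m.cast_nonneg; linarith)
  refine ⟨?_, ?_, ?_⟩ <;> linarith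

end

end Pool.Agent.B10
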