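import Pool.Agent.Lib.MP_5e2fbc_nt.B10.Defs

/-!
Base ten, real place: logarithms of products over arithmetic progressions, by blocks.
-/

set_option autoImplicit false

namespace Pool.Agent.B10

open Finset Real

noncomputable section

/-- truncated logarithm of a distance -/
def ph (z : ℂ) (t : ℤ) : ℝ := log (max 1 ‖z - t‖)

/-- its sum over a finite set -/
def LG (z : ℂ) (S : Finset ℤ) : ℝ := ∑ t ∈ S, ph z t

lemma ph_nonneg (z : ℂ) (t : ℤ) : 0 ≤ ph z t := log_nonneg (le_max_left _ _)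

lemma ph_le {z : ℂ} {t : ℤ} {β : ℝ} (h1 : 1 ≤ β) (h : ‖z - t‖ ≤ β) : ph z t ≤ log β :=
  log_le_log (by positivity) (max_le h1 h)

lemma le_ph {z : ℂ} {t : ℤ} {β : ℝ} (h0 : 0 < β) (h : β ≤ ‖z - t‖) : log β ≤ ph z t :=
  log_le_log h0 (h.trans (le_max_right _ _))

lemma ph_mono {z : ℂ} {s t : ℤ} (h : |z.re - s| ≤ |z.re - t|) : ph z s ≤ ph z t := by
  refine log_le_log (by positivity) (max_le_max le_rfl ?_)
  rw [Complex.norm_def, Complex.norm_def]
  refine sqrt_le_sqrt ?_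
  simp only [Complex.normSq_apply, Complex.sub_re, Complex.intCast_re, Complex.sub_im,
    Complex.intCast_im]
  nlinarith [sq_le_sq.2 h]

lemma norm_prod_le_LG (z : ℂ) (S : Finset ℤ) : ‖∏ t ∈ S, (z - t)‖ ≤ exp (LG z S) := by
  rw [norm_prod, LG, exp_sum]
  refine prod_le_prod (fun _ _ => norm_nonneg _) fun t _ => ?_
  rw [ph, exp_log (by positivity)]; exact le_max_right _ _

lemma norm_prod_eq_LG {z : ℂ} {S : Finset ℤ} (h : ∀ t ∈ S, 1 ≤ ‖z - t‖) :
    ‖∏ t ∈ S, (z - t)‖ = exp (LG z S) := by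
  rw [norm_prod, LG, exp_sum]
  refine prod_congr rfl fun t ht => ?_
  rw [ph, exp_log (by positivity), max_eq_right (h t ht)]

lemma LG_erase (x : ℤ) (S : Finset ℤ) : LG x (S.erase x) = LG x S :=
  sum_erase _ (by simp [ph])

lemma LG_mono (z : ℂ) {S T : Finset ℤ} (h : S ⊆ T) : LG z S ≤ LG z T :=
  sum_le_sum_of_subset_of_nonneg h fun _ _ _ => ph_nonneg _ _

lemma abs_prod_erase (x : ℤ) (S : Finset ℤ) :
    |∏ t ∈ S.erase x, ((x - t : ℤ) : ℝ)| = exp (LG x S) := by
  rw [← LG_erase, ← norm_prod_eq_LG, ← Real.norm_eq_abs, ← Complex.norm_real]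
  · push_cast; rfl
  · intro t ht
    rw [← Int.cast_sub, Complex.norm_intCast]
    exact_mod_cast Int.one_le_abs (sub_ne_zero.2 (ne_of_mem_erase ht).symm)

lemma sum_ap {a : ℤ} (h0 : 0 ≤ a) (h1 : a < 10) (L : ℕ) (f : ℤ → ℝ) :
    ∑ t ∈ ap a L, f t = ∑ j ∈ Ico (-(L : ℤ)) L, f (a + 10 * j) := by
  rw [ap_eq_image h0 h1, sum_image fun i _ j _ h => by simpa using h]

/-- interlacing of two progressions -/
lemma LG_cmp (z : ℂ) {a b : ℤ} (a0 : 0 ≤ a) (a1 : a < 10) (b0 : 0 ≤ b) (b1 : b < 10) (L : ℕ)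
    {R : ℝ} (hR : ‖z‖ + 10 * L + 10 ≤ R) : LG z (ap a L) ≤ LG z (ap b L) + 2 * log R := by
  have hR1 : 1 ≤ R := le_trans (by have := norm_nonneg z; have : (0 : ℝ) ≤ L := L.cast_nonneg
                                   linarith) hR
  set ψ : ℤ → ℤ := fun j => if z.re ≤ (a + 10 * j : ℤ) then j + 1 else j - 1 with hψ
  have hinj : Function.Injective ψ := fun i j h => by
    simp only [hψ] at h
    split_ifs at h with h1 h2 h2
    · omega
    · have : ((a + 10 * j : ℤ) : ℝ) < (a + 10 * i : ℤ) := (not_le.1 h2).trans_le h1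
      have := Int.cast_lt.1 this
      omega
    · have : ((a + 10 * i : ℤ) : ℝ) < (a + 10 * j : ℤ) := (not_le.1 h1).trans_le h2
      have := Int.cast_lt.1 this
      omega
    · omega
  have h1 : ∀ j, ph z (a + 10 * j) ≤ ph z (b + 10 * ψ j) := fun j => by
    refine ph_mono ?_
    have : (0 : ℝ) ≤ a ∧ (a : ℝ) < 10 ∧ (0 : ℝ) ≤ b ∧ (b : ℝ) < 10 := by
      exact_mod_cast And.intro a0 (And.intro a1 (And.intro b0 b1))
    simp only [hψ]
    split_ifs with h
    · push_cast at h ⊢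
      rw [abs_of_nonpos (by linarith), abs_of_nonpos (by linarith)]; linarith
    · push_cast at h ⊢
      rw [abs_of_nonneg (by linarith), abs_of_nonneg (by linarith)]; linarith
  have h2 : ∀ j : ℤ, |b + 10 * j| ≤ 10 * L + 10 → ph z (b + 10 * j) ≤ log R := fun j hj => by
    refine ph_le hR1 ((norm_sub_le _ _).trans ?_)
    rw [Complex.norm_intCast]
    have : |((b + 10 * j : ℤ) : ℝ)| ≤ 10 * L + 10 := by exact_mod_cast hj
    linarith
  rw [LG, LG, sum_ap a0 a1, sum_ap b0 b1]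
  calc _ ≤ ∑ j ∈ Ico (-(L : ℤ)) L, ph z (b + 10 * ψ j) := sum_le_sum fun j _ => h1 j
    _ = ∑ j ∈ (Ico (-(L : ℤ)) L).image ψ, ph z (b + 10 * j) :=
        (sum_image (f := fun j => ph z (b + 10 * j)) hinj.injOn).symm
    _ ≤ ∑ j ∈ insert (-(L : ℤ) - 1) (insert (L : ℤ) (Ico (-(L : ℤ)) L)), ph z (b + 10 * j) := by
        refine sum_le_sum_of_subset_of_nonneg (fun j hj => ?_) fun _ _ _ => ph_nonneg _ _
        obtain ⟨i, hi, rfl⟩ := mem_image.1 hj
        simp only [mem_insert, mem_Ico, hψ] at hi ⊢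
        split_ifs <;> omega
    _ ≤ _ := by
        rw [sum_insert (by simp), sum_insert (by simp)]
        have := h2 (-(L : ℤ) - 1) (abs_le.2 (by omega))
        have := h2 L (abs_le.2 (by omega))
        linarith

/-- sum over a block of `m` indices -/
def bs (f : ℤ → ℝ) (m : ℕ) (k : ℤ) : ℝ := ∑ j ∈ Ico (k * m) (k * m + m), f j

lemma sum_blocks (f : ℤ → ℝ) (m c : ℕ) : ∑ j ∈ Ico (-((c * m : ℕ) : ℤ)) (c * m : ℕ), f j =
    ∑ i ∈ range c, (bs f m i + bs f m (-1 - i)) := by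
  induction c with
  | zero => simp
  | succ c ih =>
    have h0 : (0 : ℤ) ≤ c * m := by positivity
    have h1 : (0 : ℤ) ≤ m := by positivity
    rw [sum_range_succ, ← ih, bs, bs, ← add_assoc, add_comm _ (∑ j ∈ Ico ((-1 - c : ℤ) * m) _, _),
      ← add_assoc]
    push_cast
    rw [show (-1 - c : ℤ) * m + m = -(c * m) by ring, show (-1 - c : ℤ) * m = -((c + 1) * m) by ring,
      show (c * m + m : ℤ) = (c + 1) * m by ring,
      ← sum_union (Ico_disjoint_Ico_consecutive _ _ _), Ico_union_Ico_eq_Ico (by linarith) (by linarith),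
      ← sum_union (Ico_disjoint_Ico_consecutive _ _ _),
      Ico_union_Ico_eq_Ico (by linarith) (by linarith)]

lemma bs_le {f : ℤ → ℝ} {m : ℕ} {k : ℤ} {b : ℝ} (h : ∀ j, k * m ≤ j → j < k * m + m → f j ≤ b) :
    bs f m k ≤ m * b := by
  have := sum_le_card_nsmul (Ico (k * m) (k * m + m)) f b fun j hj =>
    h j (mem_Ico.1 hj).1 (mem_Ico.1 hj).2
  simpa [bs] using this

lemma le_bs {f : ℤ → ℝ} {m : ℕ} {k : ℤ} {b : ℝ} (h : ∀ j, k * m ≤ j → j < k * m + m → b ≤ f j) :
    m * b ≤ bs f m k := by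
  have := card_nsmul_le_sum (Ico (k * m) (k * m + m)) f b fun j hj =>
    h j (mem_Ico.1 hj).1 (mem_Ico.1 hj).2
  simpa [bs] using this

lemma sum_logmax (l : ℕ) :
    ∑ i ∈ range (l + 1), log (max 1 (10 * (i : ℝ))) = log (10 ^ l * l.factorial) := by
  induction l with
  | zero => simp
  | succ l ih =>
    have : (0 : ℝ) ≤ l := l.cast_nonneg
    rw [sum_range_succ, ih, max_eq_right (by push_cast; linarith),
      ← log_mul (by positivity) (by positivity), Nat.factorial_succ]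
    congr 1; push_cast; ring

lemma sum_logmax_ge {l m : ℕ} (h : l ≤ m) (hm : 1 ≤ m) :
    log (10 ^ l * l.factorial) - log (10 * m) ≤ ∑ i ∈ range l, log (max 1 (10 * (i : ℝ))) := by
  have h1 : (1 : ℝ) ≤ m := by exact_mod_cast hm
  have h2 : (l : ℝ) ≤ m := by exact_mod_cast h
  rw [← sum_logmax, sum_range_succ]
  have := log_le_log (by positivity) (max_le (by linarith) (by linarith) :
    max 1 (10 * (l : ℝ)) ≤ 10 * m)
  linarith

lemma fact_pair (l r : ℕ) : (10 * ((l + r : ℕ) : ℝ) / 6) ^ (l + r) ≤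
    10 ^ l * l.factorial * (10 ^ r * r.factorial) := by
  set m := l + r with hm
  have h1 : (m : ℝ) ^ m ≤ 3 ^ m * m.factorial := by
    have := Real.pow_div_factorial_le_exp (m : ℝ) m.cast_nonneg m
    rw [div_le_iff₀ (by positivity), ← exp_one_pow] at this
    exact this.trans (by gcongr; linarith [exp_one_lt_d9])
  have h2 : (m.factorial : ℝ) ≤ 2 ^ m * (l.factorial * r.factorial) := by
    have a := Nat.add_choose_mul_factorial_mul_factorial l r
    have b := Nat.choose_le_two_pow (l + r) r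
    have : m.factorial ≤ 2 ^ m * (l.factorial * r.factorial) := by
      rw [hm, ← a, mul_assoc]; exact Nat.mul_le_mul_right _ b
    exact_mod_cast this
  rw [div_pow, mul_pow, div_le_iff₀ (by positivity)]
  calc _ ≤ 10 ^ m * (3 ^ m * (2 ^ m * (l.factorial * r.factorial)) : ℝ) := by
        gcongr; exact h1.trans (by gcongr)
    _ = _ := by rw [show (6 : ℝ) = 3 * 2 by norm_num, mul_pow, hm, pow_add 10]; ring

/-- a block near the point -/
lemma bs_sing (z : ℂ) {m : ℕ} (hm : 1 ≤ m) (k : ℤ) :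
    m * log (10 * m / 6) - 2 * log (10 * m) ≤ bs (fun j => ph z (0 + 10 * j)) m k := by
  obtain ⟨l, r, hlr, h1, h2⟩ : ∃ l r : ℕ, l + r = m ∧
      (∀ i < l, 10 * (i : ℝ) ≤ z.re - (10 * (k * m + l - 1 - i) : ℤ)) ∧
      ∀ i < r, 10 * (i : ℝ) ≤ (10 * (k * m + l + i) : ℤ) - z.re := by
    have c1 := Int.le_ceil (z.re / 10)
    have c2 := Int.ceil_lt_add_one (z.re / 10)
    refine ⟨min m (⌈z.re / 10⌉ - k * m).toNat, m - min m (⌈z.re / 10⌉ - k * m).toNat, by omega,
      fun i hi => ?_, fun i hi => ?_⟩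
    · have : k * m + (min m (⌈z.re / 10⌉ - k * m).toNat : ℕ) ≤ ⌈z.re / 10⌉ := by omega
      have : ((k * m + (min m (⌈z.re / 10⌉ - k * m).toNat : ℕ) : ℤ) : ℝ) ≤ ⌈z.re / 10⌉ := by
        exact_mod_cast this
      push_cast at this ⊢; linarith
    · have : ⌈z.re / 10⌉ ≤ k * m + (min m (⌈z.re / 10⌉ - k * m).toNat : ℕ) := by omega
      have : (⌈z.re / 10⌉ : ℝ) ≤ ((k * m + (min m (⌈z.re / 10⌉ - k * m).toNat : ℕ) : ℤ) : ℝ) := by
        exact_mod_cast this
      push_cast at this ⊢; linarith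
  have h3 : ∀ (t : ℤ) (u : ℝ), u ≤ |z.re - t| → log (max 1 u) ≤ ph z t := fun t u h =>
    log_le_log (by positivity) (max_le_max le_rfl (h.trans (by
      simpa using Complex.abs_re_le_norm (z - t))))
  have e : bs (fun j => ph z (0 + 10 * j)) m k =
      ∑ i ∈ range l, ph z (10 * (k * m + l - 1 - i)) + ∑ i ∈ range r, ph z (10 * (k * m + l + i)) := by
    rw [bs, ← Ico_union_Ico_eq_Ico (b := k * m + l) (by omega) (by omega),
      sum_union (Ico_disjoint_Ico_consecutive _ _ _)]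
    congr 1
    · refine sum_nbij' (fun j => (k * m + l - 1 - j).toNat) (fun i => k * m + l - 1 - i)
        ?_ ?_ ?_ ?_ ?_ <;> intro j hj <;> simp only [mem_Ico, mem_range] at hj ⊢
      any_goals omega
      congr 1; omega
    · refine sum_nbij' (fun j => (j - (k * m + l)).toNat) (fun i => k * m + l + i)
        ?_ ?_ ?_ ?_ ?_ <;> intro j hj <;> simp only [mem_Ico, mem_range] at hj ⊢
      any_goals omega
      congr 1; omega
  have a1 := (sum_logmax_ge (by omega : l ≤ m) hm).trans (sum_le_sum fun i hi =>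
    h3 _ _ ((h1 i (mem_range.1 hi)).trans (le_abs_self _)))
  have a2 := (sum_logmax_ge (by omega : r ≤ m) hm).trans (sum_le_sum fun i hi =>
    h3 _ _ ((h2 i (mem_range.1 hi)).trans (by rw [abs_sub_comm]; exact le_abs_self _)))
  have a3 := log_le_log (by rw [hlr]; positivity) (fact_pair l r)
  rw [hlr, log_pow, log_mul (by positivity) (by positivity)] at a3
  rw [e]; linarith

end

end Pool.Agent.B10
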