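import Pool.Agent.Lib.MP_5e2fbc_nt.B10.Defs

/-!
Base ten, real place: the functional is bounded by the size of the rational function on the
imaginary axis and by the residues at the nodes of the short progression.
-/

set_option autoImplicit false

namespace Pool.Agent.B10

open Finset Polynomial MeasureTheory Real Complex

noncomputable section

lemma ker_eq {a : ℝ} (ha : a ≠ 0) (τ : ℝ) :
    a / (a ^ 2 + τ ^ 2) = a⁻¹ * (1 + (τ / a) ^ 2)⁻¹ := by
  have : a ^ 2 + τ ^ 2 ≠ 0 := by positivity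
  field_simp

lemma ker_int {a : ℝ} (ha : a ≠ 0) : Integrable fun τ : ℝ => a / (a ^ 2 + τ ^ 2) := by
  simp only [ker_eq ha]
  exact (integrable_inv_one_add_sq.comp_div ha).const_mul _

lemma ker_val {a : ℝ} (ha : a ≠ 0) :
    ∫ τ : ℝ, a / (a ^ 2 + τ ^ 2) = if 0 < a then π else -π := by
  simp only [ker_eq ha]
  rw [integral_const_mul, Measure.integral_comp_div (fun x : ℝ => (1 + x ^ 2)⁻¹),
    integral_univ_inv_one_add_sq, smul_eq_mul]
  split_ifs with h
  · rw [abs_of_pos h]; field_simp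
  · rw [abs_of_neg (lt_of_le_of_ne (not_lt.1 h) ha)]; field_simp

lemma re_inv (a τ : ℝ) : (((τ : ℂ) * I - a)⁻¹).re = -(a / (a ^ 2 + τ ^ 2)) := by
  rw [Complex.inv_re, Complex.normSq_apply]
  simp
  ring

lemma axis_ne {a : ℝ} (ha : a ≠ 0) (τ : ℝ) : (τ : ℂ) * I - a ≠ 0 := fun h => by
  have := congrArg Complex.re h
  simp at this
  exact ha this

lemma le_norm_axis (a τ : ℝ) : |a| ≤ ‖(τ : ℂ) * I - a‖ := by
  simpa using Complex.abs_re_le_norm ((τ : ℂ) * I - a)

/-- the sum of the residues in the right half plane -/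
lemma half_pole {ι : Type*} (s : Finset ι) (r a : ι → ℝ) (ha : ∀ i ∈ s, a i ≠ 0)
    (h0 : ∑ i ∈ s, r i = 0) {y μ κ M : ℝ} (hy : y < 0) (hay : ∀ i ∈ s, a i ≠ y)
    (hM : ∀ τ : ℝ, ‖∑ i ∈ s, (r i : ℂ) / (τ * I - a i)‖ * ‖(μ : ℂ) * (τ * I) + κ‖ ≤
      M / (1 + τ ^ 2)) :
    |∑ i ∈ s with 0 < a i, r i * ((μ * a i + κ) / (a i - y))| ≤ M / (2 * |y|) := by
  set α : ι → ℝ := fun i => r i * ((μ * a i + κ) / (a i - y)) with hα
  set G : ℝ → ℝ := fun τ => ∑ i ∈ s, α i * (a i / (a i ^ 2 + τ ^ 2)) -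
    (∑ i ∈ s, α i) * (y / (y ^ 2 + τ ^ 2)) with hG
  have hy0 : 0 < |y| := abs_pos.2 hy.ne
  have h1 : ∀ τ : ℝ, G τ = -((∑ i ∈ s, (r i : ℂ) / (τ * I - a i)) * ((μ : ℂ) * (τ * I) + κ) /
      (τ * I - y)).re := fun τ => by
    have h2 : (∑ i ∈ s, (r i : ℂ) / (τ * I - a i)) * ((μ : ℂ) * (τ * I) + κ) / (τ * I - y) =
        ∑ i ∈ s, (α i : ℂ) * (τ * I - a i)⁻¹ - (∑ i ∈ s, (α i : ℂ)) * (τ * I - y)⁻¹ +
          (∑ i ∈ s, (r i : ℂ)) * (μ * (τ * I - y)⁻¹) := by
      rw [sum_mul, sum_div, sum_mul, sum_mul, ← sum_sub_distrib, ← sum_add_distrib]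
      refine sum_congr rfl fun i hi => ?_
      have e1 := axis_ne (ha i hi) τ
      have e2 := axis_ne hy.ne τ
      have e3 : (a i : ℂ) - y ≠ 0 := by exact_mod_cast sub_ne_zero.2 (hay i hi)
      simp only [hα]
      push_cast
      field_simp
      ring
    have h3 : (∑ i ∈ s, (r i : ℂ)) = 0 := by exact_mod_cast h0
    rw [h2, h3, zero_mul, add_zero, ← ofReal_sum, sub_re, re_sum]
    simp only [re_ofReal_mul, re_inv, hG, mul_neg, sum_neg_distrib]
    ring
  have h4 : ∀ τ : ℝ, ‖G τ‖ ≤ M / |y| * (1 + τ ^ 2)⁻¹ := fun τ => by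
    rw [h1, norm_neg, Real.norm_eq_abs]
    refine (Complex.abs_re_le_norm _).trans ?_
    rw [norm_div, norm_mul]
    calc _ ≤ M / (1 + τ ^ 2) / |y| :=
          div_le_div₀ (le_trans (by positivity) (hM τ)) (hM τ) hy0 (le_norm_axis y τ)
      _ = _ := by field_simp
  have h5 : ∫ τ, G τ = 2 * π * ∑ i ∈ s with 0 < a i, α i := by
    rw [hG, integral_sub (integrable_finsetSum _ fun i hi => (ker_int (ha i hi)).const_mul _)
      ((ker_int hy.ne).const_mul _), integral_finsetSum _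
        fun i hi => (ker_int (ha i hi)).const_mul _, integral_const_mul, ker_val hy.ne,
      if_neg hy.not_gt, sum_filter, mul_sum, sum_mul, ← sum_sub_distrib]
    refine sum_congr rfl fun i hi => ?_
    rw [integral_const_mul, ker_val (ha i hi)]
    split_ifs <;> ring
  have h6 := norm_integral_le_of_norm_le (integrable_inv_one_add_sq.const_mul (M / |y|))
    (Filter.Eventually.of_forall h4)
  rw [h5, integral_const_mul, integral_univ_inv_one_add_sq, Real.norm_eq_abs, abs_mul,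
    abs_of_pos (by positivity : 0 < 2 * π)] at h6
  rw [le_div_iff₀ (by positivity)]
  have h7 := mul_le_mul_of_nonneg_right h6 (show 0 ≤ |y| / π by positivity)
  calc _ = 2 * π * |∑ i ∈ s with 0 < a i, α i| * (|y| / π) := by field_simp
    _ ≤ _ := h7
    _ = M := by field_simp

lemma sum_tel (L : ℕ) : ∑ s ∈ range L, (1 / (((s : ℝ) + 1) * (s + 2))) ≤ 1 := by
  have : ∑ s ∈ range L, (1 / (((s : ℝ) + 1) * (s + 2))) = 1 - 1 / (L + 1) := by
    induction L with
    | zero => simp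
    | succ L ih => rw [sum_range_succ, ih]; push_cast; field_simp; ring
  rw [this]; exact sub_le_self _ (by positivity)

/-- harmonic sum with periodic weights up to a positive node -/
def Php (w : ℤ → ℝ) (t : ℤ) : ℝ := ∑ y ∈ Ico 1 t, w y / (t - y)

/-- the rational approximation with poles on the negative axis -/
def Psi (w : ℤ → ℝ) (L : ℕ) (t : ℝ) : ℝ :=
  ∑ s ∈ range L, w (-6 - s) / (s + 1) * ((1 * t + 5) / (t - (-6 - s))) -
    ∑ s ∈ range 5, w (-1 - s) * ((0 * t + 1) / (t - (-1 - s)))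

lemma Php_abs {w : ℤ → ℝ} (hw : ∀ y, |w y| ≤ 10) {t : ℤ} (ht : 0 < t) : |Php w t| ≤ 10 * t := by
  refine (abs_sum_le_sum_abs _ _).trans ?_
  refine (sum_le_card_nsmul _ _ 10 fun y hy => ?_).trans ?_
  · have : (1 : ℝ) ≤ t - y := by
      rw [mem_Ico] at hy; exact_mod_cast (by omega : (1 : ℤ) ≤ t - y)
    rw [abs_div, abs_of_pos (by linarith : (0 : ℝ) < t - y)]
    exact (div_le_self (abs_nonneg _) this).trans (hw y)
  · rw [Int.card_Ico, nsmul_eq_mul, mul_comm]
    gcongr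
    exact_mod_cast (by omega : ((t - 1).toNat : ℤ) ≤ t)

lemma Psi_abs {w : ℤ → ℝ} (hw : ∀ y, |w y| ≤ 10) (L : ℕ) {t : ℝ} (ht : 0 < t) :
    |Psi w L t| ≤ 10 * t + 100 := by
  have h1 : |∑ s ∈ range L, w (-6 - s) / (s + 1) * ((1 * t + 5) / (t - (-6 - s)))| ≤
      10 * (t + 5) := by
    refine (abs_sum_le_sum_abs _ _).trans ?_
    refine le_trans (sum_le_sum fun s _ => ?_)
      (le_trans (le_of_eq (mul_sum _ _ (10 * (t + 5))).symm)
        (mul_le_of_le_one_right (by positivity) (sum_tel L)))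
    have h2 : (0 : ℝ) < t - (-6 - s) := by have : (0 : ℝ) ≤ s := s.cast_nonneg; linarith
    rw [abs_mul, abs_div, abs_of_pos (by positivity : (0 : ℝ) < s + 1),
      abs_of_pos (by positivity : (0 : ℝ) < (1 * t + 5) / (t - (-6 - s)))]
    calc _ ≤ 10 / (s + 1) * ((1 * t + 5) / (s + 2)) := by
          gcongr
          · exact hw _
          · linarith
      _ = _ := by field_simp
  have h3 : |∑ s ∈ range 5, w (-1 - s) * ((0 * t + 1) / (t - (-1 - s)))| ≤ 50 := by
    refine (abs_sum_le_sum_abs _ _).trans ?_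
    refine (sum_le_card_nsmul _ _ 10 fun s _ => ?_).trans (by norm_num)
    have h2 : (1 : ℝ) ≤ t - (-1 - s) := by have : (0 : ℝ) ≤ s := s.cast_nonneg; linarith
    rw [abs_mul, zero_mul, zero_add, abs_of_pos (by positivity : (0 : ℝ) < 1 / (t - (-1 - s))),
      mul_one_div]
    exact (div_le_self (abs_nonneg _) h2).trans (hw _)
  exact (abs_sub _ _).trans (by linarith)

lemma Php_sub_Psi {w : ℤ → ℝ} (hw : ∀ y, |w y| ≤ 10) (hp : ∀ y k : ℤ, w (y + 10 * k) = w y)
    (hw0 : w 0 = 0) (L : ℕ) {t : ℤ} (ht : 0 < t) (h5 : t % 10 = 5) :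
    |Php w t - Psi w L t| ≤ 10 * (t + 5) / (L + 1) := by
  obtain ⟨T, rfl⟩ := Int.eq_ofNat_of_zero_le ht.le
  set g : ℕ → ℝ := fun s => w (-6 - s) / (s + 1) with hg
  have hT : 1 ≤ T := by omega
  have e : ∀ y : ℤ, w (-5 - T + y) = w y := fun y => by
    rw [← hp y ((-5 - T) / 10)]; congr 1; omega
  have h1 : Php w T = ∑ s ∈ range (T - 1), g s := by
    rw [Php]
    refine sum_nbij' (fun y => ((T : ℤ) - 1 - y).toNat) (fun s => (T : ℤ) - 1 - s) ?_ ?_ ?_ ?_ ?_
    · intro y hy; rw [mem_Ico] at hy; rw [mem_range]; omega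
    · intro s hs; rw [mem_range] at hs; rw [mem_Ico]; omega
    · intro y hy; rw [mem_Ico] at hy; omega
    · intro s hs; rw [mem_range] at hs; omega
    · intro y hy
      rw [mem_Ico] at hy
      obtain ⟨s, hs⟩ := Int.eq_ofNat_of_zero_le (by omega : 0 ≤ (T : ℤ) - 1 - y)
      have h2 : ((T : ℤ) : ℝ) - y = s + 1 := by exact_mod_cast (by omega : (T : ℤ) - y = s + 1)
      simp only [hg, hs, Int.toNat_natCast, h2]
      rw [← e y]; congr 2; omega
  have h2 : Psi w L T = ∑ s ∈ range L, g s - ∑ s ∈ range L, g (T - 1 + 1 + 5 + s) -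
      ∑ s ∈ range 5, g (T - 1 + 1 + s) := by
    rw [Psi, ← sum_sub_distrib, Nat.sub_add_cancel hT]
    congr 1
    · refine sum_congr rfl fun s _ => ?_
      have h3 : w (-6 - (T + 5 + s : ℕ)) = w (-6 - s) := by
        rw [← e (-6 - s)]; congr 1; push_cast; ring
      have h4 : ((T : ℤ) : ℝ) - (-6 - s) ≠ 0 := by
        have : (0 : ℝ) ≤ s := s.cast_nonneg
        have : (0 : ℝ) ≤ T := T.cast_nonneg
        push_cast; linarith
      simp only [hg, h3]
      push_cast at h4 ⊢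
      have h6 : (T : ℝ) + 5 + s + 1 = T - (-6 - s) := by ring
      rw [h6]; field_simp; ring
    · refine sum_congr rfl fun s _ => ?_
      have h3 : w (-6 - (T + s : ℕ)) = w (-1 - s) := by
        rw [← e (-1 - s)]; congr 1; push_cast; ring
      simp only [hg, h3]
      push_cast
      have h6 : (T : ℝ) + s + 1 = T - (-1 - s) := by ring
      rw [h6]; ring
  have h3 : g (T - 1) = 0 := by
    have : w (-6 - (T - 1 : ℕ)) = 0 := by rw [← hw0, ← e 0]; congr 1; omega
    simp only [hg, this, zero_div]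
  have h4 : Php w T - Psi w L T = ∑ s ∈ range (T + 5), g (L + s) := by
    have a1 := sum_range_add g (T - 1 + 1 + 5) L
    have a2 := sum_range_add g (T - 1 + 1) 5
    have a3 := sum_range_succ g (T - 1)
    have a4 := sum_range_add g L (T + 5)
    rw [show L + (T + 5) = T - 1 + 1 + 5 + L by omega] at a4
    rw [h1, h2]; linarith
  rw [Int.cast_natCast, h4]
  refine (abs_sum_le_sum_abs _ _).trans ?_
  refine (sum_le_card_nsmul _ _ (10 / ((L : ℝ) + 1)) fun s _ => ?_).trans (le_of_eq ?_)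
  · simp only [hg]
    rw [abs_div, abs_of_pos (by positivity : (0 : ℝ) < (L + s : ℕ) + 1)]
    gcongr
    · exact hw _
    · omega
  · rw [card_range, nsmul_eq_mul]; push_cast; ring

lemma norm_lin (τ : ℝ) : ‖((1 : ℝ) : ℂ) * (τ * I) + (5 : ℝ)‖ ≤ |τ| + 5 :=
  (norm_add_le _ _).trans (by simp)

/-- one side of the functional -/
lemma side {ι : Type*} (s : Finset ι) (r : ι → ℝ) (a : ι → ℤ) (ha : ∀ i ∈ s, a i ≠ 0)
    (h0 : ∑ i ∈ s, r i = 0) {w : ℤ → ℝ} (hw : ∀ y, |w y| ≤ 10)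
    (hp : ∀ y k : ℤ, w (y + 10 * k) = w y) (hw0 : w 0 = 0) (hwa : ∀ i ∈ s, w (a i) = 0) {M T : ℝ}
    (hT0 : 0 ≤ T) (hT : ∀ i ∈ s, (a i : ℝ) ≤ T)
    (hM : ∀ τ : ℝ, ‖∑ i ∈ s, (r i : ℂ) / (τ * I - ((a i : ℝ) : ℂ))‖ * (|τ| + 5) ≤
      M / (1 + τ ^ 2)) :
    |∑ i ∈ s with 0 < a i, r i * Php w (a i)| ≤
      30 * M + (20 * T + 100) * ∑ i ∈ s with a i % 10 ≠ 5, |r i| := by
  have hM0 : 0 ≤ M := by simpa using le_trans (by positivity) (hM 0)
  have ha' : ∀ i ∈ s, (a i : ℝ) ≠ 0 := fun i hi => by exact_mod_cast ha i hi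
  have hf : s.filter (fun i => 0 < (a i : ℝ)) = s.filter fun i => 0 < a i := by simp
  have key : ∀ (y : ℤ) (μ κ : ℝ), y < 0 → (∀ τ : ℝ, ‖(μ : ℂ) * (τ * I) + κ‖ ≤ |τ| + 5) →
      |w y| * |∑ i ∈ s with 0 < a i, r i * ((μ * a i + κ) / (a i - y))| ≤
        10 * (M / (2 * |(y : ℝ)|)) := fun y μ κ hy hb => by
    by_cases h : w y = 0
    · rw [h, abs_zero, zero_mul]; positivity
    · rw [← hf]
      refine mul_le_mul (hw y) (half_pole s r (fun i => (a i : ℝ)) ha' h0 (by exact_mod_cast hy)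
        (fun i hi e => h ?_) fun τ => le_trans ?_ (hM τ)) (abs_nonneg _) (by norm_num)
      · rw [← hwa i hi]; congr 1; exact_mod_cast e.symm
      · exact mul_le_mul_of_nonneg_left (hb τ) (norm_nonneg _)
  have hPsi : ∀ L, |∑ i ∈ s with 0 < a i, r i * Psi w L (a i)| ≤ 30 * M := fun L => by
    have e : ∑ i ∈ s with 0 < a i, r i * Psi w L (a i) =
        ∑ k ∈ range L, w (-6 - k) / (k + 1) *
          ∑ i ∈ s with 0 < a i, r i * ((1 * a i + 5) / (a i - ((-6 - k : ℤ) : ℝ))) -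
        ∑ k ∈ range 5, w (-1 - k) *
          ∑ i ∈ s with 0 < a i, r i * ((0 * a i + 1) / (a i - ((-1 - k : ℤ) : ℝ))) := by
      simp only [Psi, mul_sub, sum_sub_distrib, mul_sum]
      rw [sum_comm, sum_comm (s := range 5)]
      push_cast
      congr 1 <;> exact sum_congr rfl fun _ _ => sum_congr rfl fun _ _ => by ring
    rw [e]
    refine (abs_sub _ _).trans ((add_le_add (b := 5 * M) (d := 25 * M) ?_ ?_).trans (by linarith))
    · refine (abs_sum_le_sum_abs _ _).trans (le_trans (sum_le_sum fun k _ => ?_)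
        (le_trans (le_of_eq (mul_sum _ _ (5 * M)).symm)
          (mul_le_of_le_one_right (by positivity) (sum_tel L))))
      have h1 := key (-6 - k) 1 5 (by omega) norm_lin
      have h2 : |((-6 - k : ℤ) : ℝ)| = k + 6 := by
        push_cast; rw [abs_of_neg (by have : (0 : ℝ) ≤ k := k.cast_nonneg; linarith)]; ring
      rw [h2] at h1
      rw [abs_mul, abs_div, abs_of_pos (by positivity : (0 : ℝ) < k + 1), div_mul_eq_mul_div]
      calc _ ≤ 10 * (M / (2 * (k + 2))) / (k + 1) := by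
            exact div_le_div_of_nonneg_right (h1.trans (by gcongr; norm_num)) (by positivity)
        _ = _ := by field_simp; ring
    · refine (abs_sum_le_sum_abs _ _).trans
        ((sum_le_card_nsmul _ _ (5 * M) fun k _ => ?_).trans (by simp; linarith))
      have h1 := key (-1 - k) 0 1 (by omega) fun τ => by
        simp; linarith [abs_nonneg τ]
      have h2 : (1 : ℝ) ≤ |((-1 - k : ℤ) : ℝ)| := by
        exact_mod_cast (by rw [abs_of_neg (by omega)]; omega : (1 : ℤ) ≤ |(-1 - k : ℤ)|)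
      rw [abs_mul]
      calc _ ≤ 10 * (M / (2 * 1)) := h1.trans (by gcongr)
        _ = _ := by ring
  set S := ∑ i ∈ s with a i % 10 ≠ 5, |r i| with hS
  have hL : ∀ L : ℕ, |∑ i ∈ s with 0 < a i, r i * Php w (a i)| ≤
      30 * M + (20 * T + 100) * S + (10 * (T + 5) * ∑ i ∈ s, |r i|) / (L + 1) := fun L => by
    have e : ∑ i ∈ s with 0 < a i, r i * Php w (a i) = ∑ i ∈ s with 0 < a i, r i * Psi w L (a i) +
        ∑ i ∈ s with 0 < a i, r i * (Php w (a i) - Psi w L (a i)) := by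
      rw [← sum_add_distrib]; exact sum_congr rfl fun _ _ => by ring
    rw [e, add_assoc]
    refine (abs_add_le _ _).trans (add_le_add (hPsi L) ((abs_sum_le_sum_abs _ _).trans ?_))
    rw [hS, sum_filter, sum_filter, mul_sum, mul_sum, sum_div, ← sum_add_distrib]
    refine sum_le_sum fun i hi => ?_
    have hTi := hT i hi
    have p1 : 0 ≤ 10 * (T + 5) * |r i| / (L + 1) := by positivity
    have p2 : 0 ≤ (20 * T + 100) * if a i % 10 ≠ 5 then |r i| else 0 := by
      split_ifs <;> positivity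
    split_ifs with h1 h2 h2
    · have h3 := Php_abs hw h1
      have h4 := Psi_abs hw L (show (0 : ℝ) < a i by exact_mod_cast h1)
      have h5 := abs_sub (Php w (a i)) (Psi w L (a i))
      rw [abs_mul, mul_comm]
      refine le_add_of_le_of_nonneg ?_ p1
      gcongr; linarith
    · rw [abs_mul, mul_zero, zero_add, mul_comm, mul_div_right_comm]
      gcongr
      exact (Php_sub_Psi hw hp hw0 L h1 (not_not.1 h2)).trans (by gcongr)
    · positivity
    · positivity
  have hlim := ((tendsto_one_div_add_atTop_nhds_zero_nat (𝕜 := ℝ)).const_mul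
    (10 * (T + 5) * ∑ i ∈ s, |r i|)).const_add (30 * M + (20 * T + 100) * S)
  rw [mul_zero, add_zero] at hlim
  exact ge_of_tendsto' hlim fun L => by rw [mul_one_div]; exact hL L

lemma uu_abs (y : ℤ) : |(uu y : ℝ)| ≤ 10 := by
  unfold uu; split_ifs <;> norm_num

lemma uu_per (y k : ℤ) : uu (y + 10 * k) = uu y := by
  simp only [uu, Int.add_mul_emod_self_left]

lemma uu_node {n : ℕ} {t : ℤ} (ht : t ∈ nodes n) : uu t = 0 := by
  rw [mem_nodes] at ht
  rw [uu, if_neg (by omega), if_neg (by omega), if_neg (by omega)]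

lemma Phi_pos {n : ℕ} {t : ℤ} (ht : t ∈ nodes n) (h : 0 < t) :
    Phi ℝ n t = Php (fun y => uu y) t := by
  have h0 := uu_node ht
  rw [mem_nodes] at ht
  rw [Phi, Php]
  refine (sum_subset (s₁ := Ico 1 t) (fun y hy => ?_) fun y _ hy => ?_).symm.trans
    (sum_congr rfl fun y hy => ?_)
  · rw [mem_Ico] at hy; rw [mem_rng]; omega
  · rw [mem_Ico] at hy
    by_cases e : y = t
    · simp [e, h0]
    · have : ind 0 y - ind t y = 0 := by unfold ind; split_ifs <;> omega
      simp [this]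
  · rw [mem_Ico] at hy
    have : ind 0 y - ind t y = 1 := by unfold ind; split_ifs <;> omega
    simp [this]

lemma Phi_neg {n : ℕ} {t : ℤ} (ht : t ∈ nodes n) (h : t < 0) :
    Phi ℝ n t = Php (fun y => uu (-y)) (-t) := by
  rw [mem_nodes] at ht
  rw [Phi, Php]
  refine (sum_subset (s₁ := Ioo t 0) (fun y hy => ?_) fun y _ hy => ?_).symm.trans ?_
  · rw [mem_Ioo] at hy; rw [mem_rng]; omega
  · rw [mem_Ioo] at hy
    by_cases e : y = 0
    · simp [e, uu]
    · have : ind 0 y - ind t y = 0 := by unfold ind; split_ifs <;> omega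
      simp [this]
  · refine sum_nbij' (fun y => -y) (fun y => -y) ?_ ?_ (by simp) (by simp) fun y hy => ?_
    · intro y hy; rw [mem_Ioo] at hy; rw [mem_Ico]; omega
    · intro y hy; rw [mem_Ico] at hy; rw [mem_Ioo]; omega
    · rw [mem_Ioo] at hy
      have : ind 0 y - ind t y = -1 := by unfold ind; split_ifs <;> omega
      rw [this, neg_neg]
      push_cast
      rw [show -(t : ℝ) - -y = -(t - y) by ring, div_neg]; ring

lemma Phi_abs {n : ℕ} {t : ℤ} (ht : t ∈ nodes n) : |Phi ℝ n t| ≤ 1700 * n := by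
  have h := mem_nodes.1 ht
  rcases lt_trichotomy t 0 with h1 | h1 | h1
  · rw [Phi_neg ht h1]
    refine (Php_abs (fun y => uu_abs _) (by omega)).trans ?_
    exact_mod_cast (by omega : 10 * (-t) ≤ 1700 * (n : ℤ))
  · omega
  · rw [Phi_pos ht h1]
    refine (Php_abs (fun y => uu_abs _) h1).trans ?_
    exact_mod_cast (by omega : 10 * t ≤ 1700 * (n : ℤ))

/-- the weight as a function of a complex variable -/
def wc (n : ℕ) (z : ℂ) : ℂ := (∏ y ∈ zeros n, (z - y)) / ∏ t ∈ nodes n, (z - t)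

lemma part_frac (n : ℕ) (P : ℝ[X]) (hP : P.natDegree + 2 ≤ 26 * n) {z : ℂ}
    (hz : ∀ t ∈ nodes n, z ≠ t) :
    ∑ t ∈ nodes n, ((wt ℝ n t * P.eval (t : ℝ) : ℝ) : ℂ) / (z - t) = wc n z * aeval z P := by
  set G : ℂ[X] := (∏ y ∈ zeros n, (X - C (y : ℂ))) * P.map (algebraMap ℝ ℂ) with hG
  have hdeg : G.degree < #(nodes n) := by
    have h1 := natDegree_mul_le (p := ∏ y ∈ zeros n, (X - C (y : ℂ)))
      (q := P.map (algebraMap ℝ ℂ))
    rw [natDegree_finsetProd_X_sub_C_eq_card, card_zeros] at h1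
    have h2 := natDegree_map_le (p := P) (f := algebraMap ℝ ℂ)
    refine degree_le_natDegree.trans_lt ?_
    rw [card_nodes]
    exact_mod_cast (by rw [hG]; omega : G.natDegree < 50 * n)
  have h1 := congrArg (eval z) (Lagrange.eq_interpolate (s := nodes n) (v := fun t : ℤ => (t : ℂ))
    Int.cast_injective.injOn hdeg)
  rw [Lagrange.eval_interpolate_not_at_node _ hz, Lagrange.eval_nodal] at h1
  have hQ : ∏ t ∈ nodes n, (z - t) ≠ 0 := prod_ne_zero_iff.2 fun t ht => sub_ne_zero.2 (hz t ht)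
  have h2 : ∀ x : ℂ, eval x G = (∏ y ∈ zeros n, (x - y)) * aeval x P := fun x => by
    simp [hG, eval_prod, eval_map, aeval_def]
  rw [wc, div_mul_eq_mul_div, ← h2, h1, mul_div_cancel_left₀ _ hQ]
  refine sum_congr rfl fun t _ => ?_
  have h3 : aeval (t : ℂ) P = ((P.eval (t : ℝ) : ℝ) : ℂ) := by
    rw [← Complex.ofReal_intCast]; exact aeval_algebraMap_apply_eq_algebraMap_eval _ _
  rw [h2, h3, Lagrange.nodalWeight, prod_inv_distrib, wt]
  push_cast
  ring

/-- representation bound -/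
theorem rep (n : ℕ) (P : ℝ[X]) (hP : P.natDegree + 2 ≤ 26 * n) {M : ℝ}
    (hM : ∀ τ : ℝ, ‖wc n (τ * I) * aeval (τ * I) P‖ * (|τ| + 5) ≤ M / (1 + τ ^ 2)) :
    |Lf ℝ n P| ≤ 60 * M + (6800 * n + 200) * ∑ x ∈ ap 2 (8 * n), |wt ℝ n x * P.eval (x : ℝ)| := by
  set r : ℤ → ℝ := fun t => wt ℝ n t * P.eval (t : ℝ) with hr
  have ha : ∀ t ∈ nodes n, t ≠ 0 := fun t ht => by rw [mem_nodes] at ht; omega
  have hF : ∀ τ : ℝ, ‖∑ t ∈ nodes n, (r t : ℂ) / (τ * I - ((t : ℝ) : ℂ))‖ * (|τ| + 5) ≤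
      M / (1 + τ ^ 2) := fun τ => by
    have := part_frac n P hP (z := τ * I) fun t ht => by
      have := axis_ne (a := t) (by exact_mod_cast ha t ht) τ
      rwa [Complex.ofReal_intCast, sub_ne_zero] at this
    simp only [Complex.ofReal_intCast, hr]
    rw [this]; exact hM τ
  have h0 : ∑ t ∈ nodes n, r t = 0 := by
    have h1 := Lf_eq n P hP (1 : ℝ) 0
    simp only [Pi.zero_apply, zero_div, sum_const_zero, add_zero, add_mul, sum_add_distrib,
      one_mul, Lf] at h1
    simpa using h1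
  have hT : ∀ t ∈ nodes n, |(t : ℝ)| ≤ 170 * n := fun t ht => by
    rw [mem_nodes] at ht
    exact_mod_cast (abs_le.2 (by omega) : |t| ≤ 170 * (n : ℤ))
  have h1 := side (nodes n) r (fun t => t) ha h0 (w := fun y => uu y) (fun y => uu_abs _)
    (fun y k => by rw [uu_per]) (by simp [uu]) (fun t ht => by simp [uu_node ht])
    (T := 170 * n) (by positivity) (fun t ht => (le_abs_self _).trans (hT t ht)) hF
  have h2 := side (nodes n) r (fun t => -t) (fun t ht => neg_ne_zero.2 (ha t ht)) h0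
    (w := fun y => uu (-y)) (fun y => uu_abs _)
    (fun y k => by rw [← uu_per (-y) (-k)]; congr 2; ring) (by simp [uu])
    (fun t ht => by simp [uu_node ht]) (M := M) (T := 170 * n) (by positivity)
    (fun t ht => by push_cast; exact (neg_le_abs _).trans (hT t ht)) fun τ => by
      have := hF (-τ)
      rw [abs_neg, neg_sq, ← norm_neg, ← sum_neg_distrib] at this
      refine le_of_eq_of_le ?_ this
      congr 2
      refine sum_congr rfl fun t _ => ?_
      push_cast
      rw [← div_neg]; congr 1; ring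
  have e1 : (nodes n).filter (fun t => t % 10 ≠ 5) = ap 2 (8 * n) := by
    ext t; rw [mem_filter, mem_nodes, mem_ap]; push_cast; omega
  have e2 : (nodes n).filter (fun t => -t % 10 ≠ 5) = ap 2 (8 * n) := by
    ext t; rw [mem_filter, mem_nodes, mem_ap]; push_cast; omega
  have e3 : Lf ℝ n P = ∑ t ∈ nodes n with 0 < t, r t * Php (fun y => uu y) t +
      ∑ t ∈ nodes n with 0 < -t, r t * Php (fun y => uu (-y)) (-t) := by
    rw [Lf, sum_filter, sum_filter, ← sum_add_distrib]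
    refine sum_congr rfl fun t ht => ?_
    have := ha t ht
    split_ifs with a b b
    · omega
    · rw [Phi_pos ht a, hr]; ring
    · rw [Phi_neg ht (by omega), hr]; ring
    · omega
  rw [e1] at h1
  rw [e2] at h2
  rw [e3]
  refine (abs_add_le _ _).trans ?_
  linarith

end

end Pool.Agent.B10
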