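import Pool.Agent.Lib.MP_5e2fbc_nt.B10.RealCell
import Pool.Agent.Lib.MP_5e2fbc_nt.B10.RealRep

/-!
Base ten, real place: the weight on the imaginary axis, at the free nodes and at the saturated
nodes.
-/

set_option autoImplicit false

namespace Pool.Agent.B10

open Finset Real
open Complex (I ofReal_intCast)

noncomputable section

/-- error term -/
def err (m C : ℕ) : ℝ := 500 * Real.log (10 * m) + 14 * C + 200

/-- logarithmic bound on the free support -/
def Gam (m C h : ℕ) : ℝ :=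
  (h - 280 * m) * Real.log (10 * m) - Real.log 2 * (2270 * m - 115 * h / 16) + err m C

/-- logarithm of the weight times the square of the saturated polynomial -/
def VV (m : ℕ) (z : ℂ) : ℝ :=
  LG z (zeros (20 * m)) - LG z (nodes (20 * m)) + 2 * LG z (sat (20 * m))

lemma log_1041 : Real.log 1041 ≤ 8 := by
  have := log_nat_le (by norm_num) (show 1041 ≤ 2 ^ 11 by norm_num)
  push_cast at this
  rw [show (2048 : ℝ) = 2 ^ 11 by norm_num, Real.log_pow] at this
  push_cast at this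
  linarith [Real.log_two_lt_d9]

lemma log_mul_pow {U a : ℕ} (e : ℕ) (hU : 0 < U) (ha : 0 < a) :
    0 < U * a ^ e ∧ Real.log (U * a ^ e : ℕ) = Real.log U + e * Real.log a := by
  refine ⟨by positivity, ?_⟩
  rw [Nat.cast_mul, Nat.cast_pow, Real.log_mul (by positivity) (by positivity), Real.log_pow]

lemma log3 {U L a b e f : ℕ} (hU : 0 < U) (ha : 0 < a) (hb : 0 < b) (h : U * a ^ e * b ^ f ≤ L) :
    Real.log U + e * Real.log a + f * Real.log b ≤ Real.log L := by
  rw [← (log_mul_pow e hU ha).2, ← (log_mul_pow f (log_mul_pow e hU ha).1 hb).2]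
  exact log_nat_le (by positivity) h

lemma log4 {U L a b c e f g : ℕ} (hU : 0 < U) (ha : 0 < a) (hb : 0 < b) (hc : 0 < c)
    (h : U * a ^ e * b ^ f * c ^ g ≤ L) :
    Real.log U + e * Real.log a + f * Real.log b + g * Real.log c ≤ Real.log L := by
  rw [← (log_mul_pow e hU ha).2]
  exact log3 (by positivity) hb hc h

lemma log3' {L a b e f g : ℕ} (hL : 0 < L) (ha : 0 < a) (hb : 0 < b)
    (h : a ^ e * b ^ f ≤ L * b ^ g) :
    e * Real.log a + f * Real.log b ≤ Real.log L + g * Real.log b := by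
  rw [← (log_mul_pow g hL hb).2]
  simpa using log3 one_pos ha hb (le_of_eq_of_le (by rw [one_mul]) h)

variable {z : ℂ} {m C : ℕ} {ρ : ℝ} {u l : ℕ → ℕ} {Q : ℕ}

lemma Cell.norm_le (hc : Cell z m ρ u l Q) (hm : 1 ≤ m) (hQ : Q ≤ 700 ^ 2) :
    ‖z‖ + 3400 * m + 10 ≤ 1041 * ρ := by
  have hm' : (1 : ℝ) ≤ m := by exact_mod_cast hm
  have h1 := hc.hρ
  have h2 : (Q : ℝ) ≤ 700 ^ 2 := by exact_mod_cast hQ
  have h3 : ‖z‖ ≤ ρ * 700 := by
    refine le_of_sq_le_sq (hc.nm.trans ?_) (by linarith)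
    rw [mul_pow]; gcongr
  linarith

lemma Cell.free (hc : Cell z m ρ u l Q) (ok : okF u l Q) (hQ : Q ≤ 700 ^ 2) (hm : 1 ≤ m)
    (hC : 2 * C + 17 ≤ 120 * m) {h : ℕ} (hh : h ≤ 160 * m + 2 * C) :
    VV m z + h * Real.log (max 1 ‖z‖) + 3 * Real.log (1041 * ρ) ≤ Gam m C h := by
  have hm' : (1 : ℝ) ≤ m := by exact_mod_cast hm
  have hρ := hc.hρ
  have hρ1 : 1 ≤ ρ := by linarith
  have hQ1 : (1 : ℝ) ≤ Q := by exact_mod_cast hc.hQ
  have h1 := (cmp_all z m (hc.norm_le hm hQ)).1
  have h2 := hc.sum_up hm 40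
  have h3 := hc.sum_lo hm (a := 160) (by norm_num) 180
  have hU : 0 < ∏ i ∈ range 40, u i := prod_pos fun i _ => hc.hu i
  have o1 := log3 (b := 2) (f := 2270) hU (by norm_num) two_pos ok.1
  have o2 := log4 (c := 2) (g := 1120) hU (by norm_num) hc.hQ two_pos ok.2
  clear ok hU
  generalize ∏ i ∈ range 40, u i = U at o1 o2 h2
  generalize ∏ i ∈ range 180, l (160 + i) = L at o1 o2 h3
  have q0 : 0 ≤ Real.log Q := Real.log_nonneg hQ1
  have q1 : Real.log Q ≤ 14 := by
    have := log_nat_le hc.hQ (hQ.trans (show 700 ^ 2 ≤ 2 ^ 20 by norm_num))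
    rw [Nat.cast_pow, Real.log_pow] at this
    push_cast at this
    linarith [Real.log_two_lt_d9]
  have h4 : 2 * Real.log (max 1 ‖z‖) ≤ 2 * Real.log ρ + Real.log Q := by
    have : (max 1 ‖z‖) ^ 2 ≤ ρ ^ 2 * Q := by
      rcases le_total 1 ‖z‖ with a | a
      · rw [max_eq_right a]; exact hc.nm
      · rw [max_eq_left a, one_pow]
        exact one_le_mul_of_one_le_of_one_le (one_le_pow₀ hρ1) hQ1
    have := Real.log_le_log (by positivity) this
    rwa [Real.log_mul (by positivity) (by positivity), Real.log_pow, Real.log_pow] at this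
  have h5 : Real.log (10 * m) ≤ Real.log ρ := Real.log_le_log (by positivity) hρ
  have h6 : 0 ≤ Real.log (10 * m) := Real.log_nonneg (by linarith)
  have hh' : (h : ℝ) ≤ 160 * m + 2 * C := by exact_mod_cast hh
  have hC' : (2 * C + 17 : ℝ) ≤ 120 * m := by exact_mod_cast hC
  have h0 : (0 : ℝ) ≤ h := h.cast_nonneg
  have l2 : 0 < Real.log 2 := Real.log_pos one_lt_two
  set A := Real.log U + 180 * Real.log 36 - Real.log L with hA
  push_cast at o1 o2 h2 h3
  have h7 : m * A + h / 2 * Real.log Q ≤ -(Real.log 2 * (2270 * m - 115 * h / 16)) + 14 * C := by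
    have a1 : A ≤ -(2270 * Real.log 2) := by linarith
    have a2 : A + 80 * Real.log Q ≤ -(1120 * Real.log 2) := by linarith
    have c0 : (0 : ℝ) ≤ C := C.cast_nonneg
    rcases le_total (h : ℝ) (160 * m) with b | b
    · have b1 := mul_le_mul_of_nonneg_left a1 (sub_nonneg.2 b)
      have b2 := mul_le_mul_of_nonneg_left a2 h0
      linarith
    · have b1 := mul_le_mul_of_nonneg_left a2 (show (0 : ℝ) ≤ m by linarith)
      have b2 := mul_le_mul (show (h : ℝ) / 2 - 80 * m ≤ C by linarith) q1 q0 c0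
      have b3 := mul_le_mul_of_nonneg_left b l2.le
      linarith
  have h8 := mul_le_mul_of_nonpos_left h5 (show (h : ℝ) - 280 * m + 17 ≤ 0 by linarith)
  have h9 := mul_le_mul_of_nonneg_left h4 h0
  rw [Real.log_mul (by norm_num) (by positivity)] at h1 ⊢
  rw [VV, Gam, err]
  linarith [log_1041]

lemma free_imag (hm : 1 ≤ m) (hC : 2 * C + 17 ≤ 120 * m) {h : ℕ} (hh : h ≤ 160 * m + 2 * C)
    (τ : ℝ) : exp (VV m (τ * I)) * max 1 ‖(τ : ℂ) * I‖ ^ h * ((|τ| + 5) * (1 + τ ^ 2)) ≤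
      exp (Gam m C h) := by
  have hm' : (1 : ℝ) ≤ m := by exact_mod_cast hm
  have hρ : (0 : ℝ) < 10 * m := by positivity
  obtain ⟨ρ, u, l, Q, hc, ok, hQ⟩ : ∃ ρ u l Q, Cell (τ * I) m ρ u l Q ∧ okF u l Q ∧
      Q ≤ 700 ^ 2 := by
    rcases lt_or_ge (|τ| / (10 * m)) 700 with a | a
    · set y := ⌊|τ| / (10 * m)⌋₊ with hy
      have y1 : y < 700 := (Nat.floor_lt (by positivity)).2 (by exact_mod_cast a)
      have y2 : (y : ℝ) * (10 * m) ≤ |τ| := (le_div_iff₀ hρ).1 (Nat.floor_le (by positivity))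
      have y3 : |τ| ≤ (y + 1) * (10 * m) := (div_le_iff₀ hρ).1 (Nat.lt_floor_add_one _).le
      have y4 := pow_le_pow_left₀ (by positivity) y2 2
      have y5 := pow_le_pow_left₀ (by positivity) y3 2
      rw [sq_abs] at y4 y5
      refine ⟨_, _, _, _, cell_imag (y := y + 1) hm (by omega) le_rfl (by push_cast; linarith)
        (fun i hi => by positivity) fun i => ?_, chk_imag y (mem_range.2 y1),
        Nat.pow_le_pow_left y1 2⟩
      push_cast; linarith
    · rw [le_div_iff₀ hρ] at a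
      refine ⟨|τ| / 700, _, _, _, cell_imag (y := 700) hm (by norm_num) (by linarith)
        (by rw [div_pow, sq_abs]; push_cast; linarith) (fun i hi => by positivity) fun i => ?_,
        chk_tail, le_rfl⟩
      rw [div_pow, sq_abs]; push_cast; nlinarith [sq_nonneg (10 * (m : ℝ) * i)]
  have h1 := hc.norm_le hm hQ
  have h2 := exp_le_exp.2 (hc.free ok hQ hm hC hh)
  have h3 : ‖(τ : ℂ) * I‖ = |τ| := by simp
  have h4 := abs_nonneg τ
  rw [h3] at h1
  rw [exp_add, exp_add, ← Real.log_pow, exp_log (by positivity),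
    show (3 : ℝ) = (3 : ℕ) by norm_num, ← Real.log_pow, exp_log (pow_pos (by linarith) 3)] at h2
  refine le_trans (mul_le_mul_of_nonneg_left ?_ (by positivity)) h2
  rw [← sq_abs τ]
  calc _ ≤ (|τ| + 10) ^ 3 := by nlinarith [mul_nonneg h4 h4]
    _ ≤ _ := pow_le_pow_left₀ (by linarith) (by linarith) 3

lemma cell_int (hm : 1 ≤ m) (x : ℤ) {k : ℕ} (hk : x.natAbs / (10 * m) = k) :
    Cell x m (10 * m) (upR k) (loS k) ((k + 1) ^ 2) := by
  have h1 := Nat.div_mul_le_self x.natAbs (10 * m)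
  have h2 := Nat.lt_div_mul_add (a := x.natAbs) (show 0 < 10 * m by omega)
  rw [hk] at h1 h2
  have e : |(x : ℝ)| = x.natAbs := by rw [Nat.cast_natAbs, Int.cast_abs]
  have := cell_real (k := k) hm (x := x) (by rw [e]; exact_mod_cast (by linarith))
    (by rw [e]; exact_mod_cast (by linarith))
  rwa [ofReal_intCast] at this

lemma free_real (hm : 1 ≤ m) (hC : 2 * C + 17 ≤ 120 * m) {h : ℕ} (hh : h ≤ 160 * m + 2 * C)
    {x : ℤ} (hx : x ∈ ap 2 (5 * (20 * m))) :
    exp (VV m x) * max 1 ‖(x : ℂ)‖ ^ h ≤ exp (Gam m C h) := by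
  have hk : x.natAbs / (10 * m) < 100 := by
    rw [mem_ap] at hx
    rw [Nat.div_lt_iff_lt_mul (by omega)]; omega
  have hc := cell_int hm x rfl
  have h2 := hc.free (chk_real _ (mem_range.2 hk))
    (Nat.pow_le_pow_left (by omega) 2) hm hC hh
  have hm' : (1 : ℝ) ≤ m := by exact_mod_cast hm
  have h3 : 0 ≤ Real.log (1041 * (10 * m)) := Real.log_nonneg (by linarith)
  rw [← exp_log (show 0 < max 1 ‖(x : ℂ)‖ ^ h by positivity), ← exp_add, Real.log_pow]
  exact exp_le_exp.2 (by linarith)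

/-- gain at a saturated node -/
def gain (m : ℕ) (a : ℤ) : ℝ :=
  -(400 * m * Real.log (10 * m)) - m * es (a.natAbs / (10 * m) - 100) * Real.log 2

lemma sat_bound (hm : 1 ≤ m) {a : ℤ} (ha : a ∈ sat (20 * m)) :
    Gam m C 0 - LG a (sat (20 * m)) ≤ gain m a + 2 * err m C ∧
      VV m a - LG a (sat (20 * m)) ≤ gain m a + err m C := by
  obtain ⟨k, hk, hk'⟩ : ∃ k < 60, a.natAbs / (10 * m) = 100 + k := by
    rw [sat, mem_sdiff, mem_ap, mem_ap] at ha
    have h1 : 100 ≤ a.natAbs / (10 * m) := by rw [Nat.le_div_iff_mul_le (by omega)]; omega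
    have h2 : a.natAbs / (10 * m) < 160 := by rw [Nat.div_lt_iff_lt_mul (by omega)]; omega
    exact ⟨a.natAbs / (10 * m) - 100, by omega, by omega⟩
  have hc := cell_int hm a hk'
  have hm' : (1 : ℝ) ≤ m := by exact_mod_cast hm
  obtain ⟨-, h1, h2⟩ := cmp_all a m (hc.norm_le hm (Nat.pow_le_pow_left (by omega) 2))
  have h3 := hc.sum_up hm 40
  have h4 := hc.sum_lo hm (a := 100) (by norm_num) 240
  have h5 := hc.sum_lo hm (a := 100) (by norm_num) 60
  have hU : 0 < ∏ i ∈ range 40, upR (100 + k) i := prod_pos fun i _ => hc.hu i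
  have hL : 0 < ∏ i ∈ range 60, loS (100 + k) (100 + i) :=
    prod_pos fun i _ => hc.hl _ (by omega)
  have o1 := log3 hU (by norm_num) two_pos (chk_sat k (mem_range.2 hk)).1
  have o2 := log3' (b := 2) (g := 2270) hL (by norm_num) two_pos (chk_sat k (mem_range.2 hk)).2
  generalize ∏ i ∈ range 40, upR (100 + k) i = U at o1 h3
  generalize ∏ i ∈ range 240, loS (100 + k) (100 + i) = L at o1 h4
  generalize ∏ i ∈ range 60, loS (100 + k) (100 + i) = L' at o2 h5
  have h6 : 0 ≤ Real.log (10 * m) := Real.log_nonneg (by linarith)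
  have c0 : (0 : ℝ) ≤ C := C.cast_nonneg
  have p1 := mul_le_mul_of_nonneg_left o1 (show (0 : ℝ) ≤ m by linarith)
  have p2 := mul_le_mul_of_nonneg_left o2 (show (0 : ℝ) ≤ m by linarith)
  rw [Real.log_mul (by norm_num) (by positivity)] at h1 h2
  rw [VV, Gam, gain, err, hk', Nat.add_sub_cancel_left]
  push_cast at p1 p2 h3 h4 h5 ⊢
  constructor <;> linarith [log_1041]

lemma sum_gain (hm : 1 ≤ m) : ∑ a ∈ sat (20 * m), gain m a =
    -(48000 * m ^ 2 * Real.log (10 * m)) - 344716 * m ^ 2 * Real.log 2 := by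
  have key : ∀ c, ∑ a ∈ ap 2 (c * m), gain m a = ∑ i ∈ range c,
      2 * m * (-(400 * m * Real.log (10 * m)) - m * es (i - 100) * Real.log 2) := fun c => by
    rw [sum_ap (by norm_num) (by norm_num), sum_blocks]
    refine sum_congr rfl fun i _ => ?_
    have e : ∀ j : ℤ, i * (10 * m) ≤ (2 + 10 * j).natAbs → (2 + 10 * j).natAbs < (i + 1) * (10 * m) →
        gain m (2 + 10 * j) = -(400 * m * Real.log (10 * m)) - m * es (i - 100) * Real.log 2 :=
      fun j h1 h2 => by rw [gain, Nat.div_eq_of_lt_le h1 h2]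
    have e1 : ∀ j : ℤ, (i : ℤ) * m ≤ j → j < i * m + m → gain m (2 + 10 * j) = _ :=
      fun j h1 h2 => e j (by zify; rw [abs_of_nonneg (by nlinarith)]; nlinarith)
        (by zify; rw [abs_of_nonneg (by nlinarith)]; nlinarith)
    have e2 : ∀ j : ℤ, (-1 - i : ℤ) * m ≤ j → j < (-1 - i) * m + m → gain m (2 + 10 * j) = _ :=
      fun j h1 h2 => e j (by zify; rw [abs_of_nonpos (by nlinarith)]; nlinarith)
        (by zify; rw [abs_of_nonpos (by nlinarith)]; nlinarith)
    rw [le_antisymm (bs_le fun j a b => (e1 j a b).le) (le_bs fun j a b => (e1 j a b).ge),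
      le_antisymm (bs_le fun j a b => (e2 j a b).le) (le_bs fun j a b => (e2 j a b).ge)]
    ring
  rw [sat, sum_sdiff_eq_sub (ap_sub 2 (by omega)), ← mul_assoc, ← mul_assoc, key, key,
    show 8 * 20 = 5 * 20 + 60 by norm_num, sum_range_add, add_sub_cancel_left, ← mul_sum,
    sum_sub_distrib, ← sum_mul, ← mul_sum]
  simp only [show 5 * 20 = 100 by norm_num, Nat.add_sub_cancel_left, ← Nat.cast_sum, sum_es,
    sum_const, card_range, nsmul_eq_mul]
  push_cast; ring

end

end Pool.Agent.B10
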