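import Pool.Agent.Lib.MP_5e2fbc_nt.B10.Local

/-!
Base ten: products over arithmetic progressions, and the bound at small primes.
-/

set_option autoImplicit false
set_option linter.unusedSectionVars false

namespace Pool.Agent.B10

open Finset Polynomial Pool.Agent.NW

noncomputable section

lemma count_ap_lt {q : ℕ} (hq : 0 < q) {c : ℤ} (hc : IsCoprime (q:ℤ) c) (x : ℤ) (M : ℕ) :
    (M:ℝ) / q - 1 < #{l ∈ range M | (q:ℤ) ∣ x - c * (l:ℕ)} ∧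
      (#{l ∈ range M | (q:ℤ) ∣ x - c * (l:ℕ)} : ℝ) < (M:ℝ) / q + 1 := by
  obtain ⟨a, b, hab⟩ := hc
  have hq0 : (0:ℤ) < q := by exact_mod_cast hq
  obtain ⟨v, hv⟩ : ∃ v : ℕ, (v:ℤ) = b * x % q :=
    ⟨(b * x % q).toNat, Int.toNat_of_nonneg (Int.emod_nonneg _ hq0.ne')⟩
  have h1 : {l ∈ range M | (q:ℤ) ∣ x - c * (l:ℕ)} = {l ∈ Ico 0 M | l ≡ v [MOD q]} := by
    rw [range_eq_Ico]
    refine filter_congr fun l _ => ?_
    rw [Nat.modEq_iff_dvd, hv, Int.emod_def]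
    exact ⟨fun ⟨k, hk⟩ => ⟨b * k - a * l - b * x / q, by linear_combination b * hk + l * hab⟩,
      fun ⟨k, hk⟩ => ⟨c * k + a * x + c * (b * x / q), by linear_combination c * hk - x * hab⟩⟩
  have h2 := Nat.Ico_filter_modEq_card 0 M hq v
  rw [h1]
  set A : ℚ := ((M:ℚ) - v) / q
  set B : ℚ := (((0:ℕ):ℚ) - v) / q
  have h3 : A - B = M / q := by simp only [A, B]; push_cast; ring
  have h4 : (0:ℚ) ≤ M / q := by positivity
  have a1 := Int.le_ceil A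
  have a2 := Int.ceil_lt_add_one A
  have a3 := Int.le_ceil B
  have a4 := Int.ceil_lt_add_one B
  have h5 : ((#{l ∈ Ico 0 M | l ≡ v [MOD q]} : ℕ) : ℚ) = max ((⌈A⌉ : ℚ) - ⌈B⌉) 0 := by
    exact_mod_cast h2
  have h6 : (M:ℚ) / q - 1 < (#{l ∈ Ico 0 M | l ≡ v [MOD q]} : ℕ) :=
    h5 ▸ lt_max_of_lt_left (by linarith)
  have h7 : ((#{l ∈ Ico 0 M | l ≡ v [MOD q]} : ℕ) : ℚ) < (M:ℚ) / q + 1 :=
    h5 ▸ max_lt (by linarith) (by linarith)
  exact ⟨by simpa using (Rat.cast_lt (K := ℝ)).2 h6, by simpa using (Rat.cast_lt (K := ℝ)).2 h7⟩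

lemma count_ap {q : ℕ} (hq : 0 < q) {c : ℤ} (hc : IsCoprime (q:ℤ) c) (x : ℤ) (M : ℕ) :
    (M:ℝ) / q - 1 ≤ #{l ∈ range M | (q:ℤ) ∣ x - c * (l:ℕ)} ∧
      (#{l ∈ range M | (q:ℤ) ∣ x - c * (l:ℕ)} : ℝ) ≤ (M:ℝ) / q + 1 :=
  ⟨(count_ap_lt hq hc x M).1.le, (count_ap_lt hq hc x M).2.le⟩

variable {p : ℕ} [hp : Fact p.Prime]

lemma p_pos : (0:ℝ) < p := by exact_mod_cast hp.out.pos

lemma p_sub_pos : (1:ℝ) ≤ p - 1 := by
  have : (2:ℝ) ≤ p := by exact_mod_cast hp.out.two_le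
  linarith

lemma norm_eq_card {z : ℤ} (h0 : z ≠ 0) {J : ℕ} (h : z.natAbs < p ^ J) :
    ‖(z : ℚ_[p])‖ = (p:ℝ) ^ (-∑ i ∈ Ico 1 (J + 1), if ((p ^ i : ℕ) : ℤ) ∣ z then (1:ℝ) else 0) := by
  have h1 := Nat.factorization_eq_card_pow_dvd_of_lt hp.out (Int.natAbs_pos.2 h0)
    (h.trans_le (Nat.pow_le_pow_right hp.out.pos (Nat.le_succ J)))
  rw [Nat.factorization_def _ hp.out] at h1
  rw [Padic.norm_eq_zpow_neg_valuation (Int.cast_ne_zero.2 h0), Padic.valuation_intCast,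
    padicValInt, h1, sum_boole, ← Real.rpow_intCast]
  simp only [Int.natCast_dvd, Int.cast_neg, Int.cast_natCast]

lemma norm_prod_card (s : Finset ℕ) (f : ℕ → ℤ) (h0 : ∀ l ∈ s, f l ≠ 0) {J : ℕ}
    (h : ∀ l ∈ s, (f l).natAbs < p ^ J) : ‖∏ l ∈ s, (f l : ℚ_[p])‖ =
      (p:ℝ) ^ (-∑ i ∈ Ico 1 (J + 1), (#{l ∈ s | ((p ^ i : ℕ) : ℤ) ∣ f l} : ℝ)) := by
  rw [norm_prod, prod_congr rfl fun l hl => norm_eq_card (h0 l hl) (h l hl),
    ← Real.rpow_sum_of_pos p_pos, sum_neg_distrib, sum_comm]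
  simp only [sum_boole]

lemma geom (J : ℕ) :
    ∑ i ∈ Ico 1 (J + 1), (((p ^ i : ℕ) : ℝ))⁻¹ = (1 - ((p:ℝ) ^ J)⁻¹) / (p - 1) := by
  have h1 := p_pos (p := p)
  have h2 := p_sub_pos (p := p)
  induction J with
  | zero => simp
  | succ J ih =>
    have : (p:ℝ) - 1 ≠ 0 := by linarith
    rw [sum_Ico_succ_top (by omega), ih]; push_cast; field_simp; ring

lemma cop_pow {c : ℤ} (hc : ¬ (p:ℤ) ∣ c) (i : ℕ) : IsCoprime ((p ^ i : ℕ) : ℤ) c := by
  push_cast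
  exact ((Nat.prime_iff_prime_int.1 hp.out).coprime_iff_not_dvd.2 hc).pow_left

/-- a product over a progression is divisible by a high power of `p` -/
lemma prog_low {c : ℤ} (hc : ¬ (p:ℤ) ∣ c) (x : ℤ) {M J : ℕ} (hM : M ≤ p ^ J)
    (h : ∀ l < M, (x - c * l).natAbs < p ^ J) :
    ‖∏ l ∈ range M, ((x - c * l : ℤ) : ℚ_[p])‖ ≤ (p:ℝ) ^ (J + 1 - M / ((p:ℝ) - 1)) := by
  have h1 := p_pos (p := p)
  have h2 := p_sub_pos (p := p)
  by_cases h0 : ∀ l ∈ range M, x - c * l ≠ 0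
  swap
  · push Not at h0
    obtain ⟨l, hl, h0⟩ := h0
    rw [prod_eq_zero hl (by simp [h0]), norm_zero]; positivity
  rw [norm_prod_card _ _ h0 fun l hl => h l (mem_range.1 hl)]
  refine Real.rpow_le_rpow_of_exponent_le one_le_p ?_
  have h3 := sum_le_sum (s := Ico 1 (J + 1)) fun i _ =>
    (count_ap (pow_pos hp.out.pos i) (cop_pow hc i) x M).1
  simp only [sum_sub_distrib, div_eq_mul_inv (M:ℝ), ← mul_sum, geom, sum_const, Nat.card_Ico,
    Nat.add_sub_cancel, nsmul_eq_mul, mul_one] at h3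
  have h4 : (M:ℝ) * ((p:ℝ) ^ J)⁻¹ ≤ 1 := by
    rw [← div_eq_mul_inv, div_le_one (by positivity)]; exact_mod_cast hM
  have h5 : (M:ℝ) * ((p:ℝ) ^ J)⁻¹ / (p - 1) ≤ 1 := (div_le_one (by linarith)).2 (by linarith)
  have h6 : (M:ℝ) * ((1 - ((p:ℝ) ^ J)⁻¹) / (p - 1)) =
      M / (p - 1) - (M:ℝ) * ((p:ℝ) ^ J)⁻¹ / (p - 1) := by ring
  linarith

/-- a product over a progression is not divisible by too high a power of `p` -/
lemma prog_up {c : ℤ} (hc : ¬ (p:ℤ) ∣ c) (x : ℤ) {M J : ℕ} {s : Finset ℕ} (hs : s ⊆ range M)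
    (h0 : ∀ l ∈ s, x - c * l ≠ 0) (h : ∀ l < M, (x - c * l).natAbs < p ^ J) :
    ‖(∏ l ∈ s, ((x - c * l : ℤ) : ℚ_[p]))⁻¹‖ ≤ (p:ℝ) ^ (J + M / ((p:ℝ) - 1)) := by
  have h1 := p_pos (p := p)
  have h2 := p_sub_pos (p := p)
  rw [norm_inv, norm_prod_card _ _ h0 fun l hl => h l (mem_range.1 (hs hl)),
    ← Real.rpow_neg h1.le, neg_neg]
  refine Real.rpow_le_rpow_of_exponent_le one_le_p ?_
  have h3 := sum_le_sum (s := Ico 1 (J + 1)) fun i _ =>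
    (Nat.cast_le.2 (card_le_card (filter_subset_filter _ hs))).trans
      (count_ap (pow_pos hp.out.pos i) (cop_pow hc i) x M).2
  simp only [sum_add_distrib, div_eq_mul_inv (M:ℝ), ← mul_sum, geom, sum_const, Nat.card_Ico,
    Nat.add_sub_cancel, nsmul_eq_mul, mul_one] at h3
  have h5 : 0 ≤ (M:ℝ) * ((p:ℝ) ^ J)⁻¹ / (p - 1) := by positivity
  have h6 : (M:ℝ) * ((1 - ((p:ℝ) ^ J)⁻¹) / (p - 1)) =
      M / (p - 1) - (M:ℝ) * ((p:ℝ) ^ J)⁻¹ / (p - 1) := by ring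
  linarith

/-- data for the step `10 = m c` with `c` prime to `p` -/
structure St (p : ℕ) [Fact p.Prime] (m c : ℤ) (v : ℝ) : Prop where
  mul : m * c = 10
  cop : ¬ (p:ℤ) ∣ c
  nm : ‖(m : ℚ_[p])‖ = (p:ℝ) ^ (-v)
  pos : 0 ≤ v

variable {m c : ℤ} {v : ℝ}

lemma St.le (S : St p m c v) (z : ℤ) : z.natAbs ≤ (m * z).natAbs := by
  rw [Int.natAbs_mul]
  exact Nat.le_mul_of_pos_left _ (Int.natAbs_pos.2 fun h => by simpa [h] using S.mul)

lemma St.low (S : St p m c v) {x : ℤ} (hx : m ∣ x) {M J : ℕ} (hM : M ≤ p ^ J)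
    (h : ∀ l < M, (x - 10 * l).natAbs < p ^ J) :
    ‖∏ l ∈ range M, ((x - 10 * l : ℤ) : ℚ_[p])‖ ≤
      (p:ℝ) ^ (J + 1 - M * (v + ((p:ℝ) - 1)⁻¹)) := by
  obtain ⟨x, rfl⟩ := hx
  have e : ∀ l : ℕ, m * x - 10 * l = m * (x - c * l) := fun l => by rw [← S.mul]; ring
  simp only [e] at h ⊢
  have := prog_low S.cop x hM fun l hl => (S.le _).trans_lt (h l hl)
  simp only [Int.cast_mul m, prod_mul_distrib, prod_const, card_range, norm_mul, norm_pow, S.nm]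
  refine (mul_le_mul_of_nonneg_left this (by positivity)).trans_eq ?_
  rw [← Real.rpow_mul_natCast p_pos.le, ← Real.rpow_add p_pos]
  congr 1; ring

lemma St.up (S : St p m c v) {x : ℤ} (hx : m ∣ x) {M J : ℕ} {s : Finset ℕ} (hs : s ⊆ range M)
    (h0 : ∀ l ∈ s, x - 10 * l ≠ 0) (h : ∀ l < M, (x - 10 * l).natAbs < p ^ J) :
    ‖(∏ l ∈ s, ((x - 10 * l : ℤ) : ℚ_[p]))⁻¹‖ ≤ (p:ℝ) ^ (J + M * (v + ((p:ℝ) - 1)⁻¹)) := by
  obtain ⟨x, rfl⟩ := hx
  have e : ∀ l : ℕ, m * x - 10 * l = m * (x - c * l) := fun l => by rw [← S.mul]; ring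
  simp only [e] at h h0 ⊢
  have := prog_up S.cop x hs (fun l hl => right_ne_zero_of_mul (h0 l hl))
    fun l hl => (S.le _).trans_lt (h l hl)
  simp only [Int.cast_mul m, prod_mul_distrib, prod_const, norm_mul, norm_pow, S.nm, mul_inv,
    norm_inv (_ ^ _)]
  refine (mul_le_mul_of_nonneg_left this (by positivity)).trans ?_
  rw [← Real.rpow_mul_natCast p_pos.le, ← Real.rpow_neg p_pos.le, ← Real.rpow_add p_pos]
  refine Real.rpow_le_rpow_of_exponent_le one_le_p ?_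
  have h1 : (#s : ℝ) ≤ M := by exact_mod_cast (card_le_card hs).trans_eq (card_range M)
  have := mul_le_mul_of_nonneg_right h1 S.pos
  rw [div_eq_mul_inv]
  linarith

lemma ap_eq_range {a : ℤ} (h0 : 0 ≤ a) (h1 : a < 10) (L : ℕ) :
    ap a L = (range (2 * L)).image fun l : ℕ => a - 10 * L + 10 * l := by
  ext t
  simp only [mem_ap, mem_image, mem_range]
  exact ⟨fun h => ⟨(t / 10 + L).toNat, by omega, by omega⟩, fun ⟨j, hj, h⟩ => by omega⟩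

variable {n : ℕ}

/-- the number of levels -/
def lv (p n : ℕ) : ℕ := Nat.log p (340 * n) + 1

lemma lt_lv (n : ℕ) : 340 * n < p ^ lv p n := Nat.lt_pow_succ_log_self hp.out.one_lt _

lemma St.apW (S : St p m c v) {a t : ℤ} (h0 : 0 ≤ a) (h1 : a < 10) (hx : m ∣ t - a) {L : ℕ}
    (hL : L ≤ 17 * n) (ht : t ∈ rng n) : ‖∏ y ∈ ap a L, ((t - y : ℤ) : ℚ_[p])‖ ≤
      (p:ℝ) ^ (lv p n + 1 - 2 * L * (v + ((p:ℝ) - 1)⁻¹)) := by
  have := lt_lv (p := p) n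
  rw [mem_rng] at ht
  have h := S.low (x := t - a + 10 * L) (dvd_add hx ((Dvd.intro _ S.mul).mul_right _))
    (M := 2 * L) (J := lv p n) (by omega) fun l hl => by omega
  rw [ap_eq_range h0 h1, prod_image fun i _ j _ h => by simpa using h]
  simp only [show ∀ l : ℕ, t - (a - 10 * L + 10 * l) = t - a + 10 * L - 10 * l from fun l => by ring]
  simpa using h

lemma St.apQ (S : St p m c v) {a t : ℤ} (h0 : 0 ≤ a) (h1 : a < 10) (hx : m ∣ t - a) {L : ℕ}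
    (hL : L ≤ 17 * n) (ht : t ∈ rng n) : ‖(∏ y ∈ (ap a L).erase t, ((t - y : ℤ) : ℚ_[p]))⁻¹‖ ≤
      (p:ℝ) ^ (lv p n + 2 * L * (v + ((p:ℝ) - 1)⁻¹)) := by
  have := lt_lv (p := p) n
  rw [mem_rng] at ht
  have h := S.up (x := t - a + 10 * L) (dvd_add hx ((Dvd.intro _ S.mul).mul_right _))
    (M := 2 * L) (J := lv p n) (s := {l ∈ range (2 * L) | a - 10 * L + 10 * (l:ℕ) ≠ t})
    (filter_subset _ _) (fun l hl => by have := (mem_filter.1 hl).2; omega) fun l hl => by omega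
  rw [ap_eq_range h0 h1, ← filter_ne', filter_image, prod_image fun i _ j _ h => by simpa using h]
  simp only [show ∀ l : ℕ, t - (a - 10 * L + 10 * l) = t - a + 10 * L - 10 * l from fun l => by ring]
  simpa using h

lemma St.nw (S : St p m c v) {a t : ℤ} (h0 : 0 ≤ a) (h1 : a < 10) (hx : m ∣ t - a) {i : ℕ}
    (hi : i ≤ 13 * n) (ht : t ∈ rng n) : ‖(nw (fun l => a + 10 * l) i t : ℚ_[p])‖ ≤
      (p:ℝ) ^ (lv p n + 1 - i * (v + ((p:ℝ) - 1)⁻¹)) := by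
  have := lt_lv (p := p) n
  rw [mem_rng] at ht
  have h := S.low hx (M := i) (J := lv p n) (by omega) fun l hl => by omega
  rw [B10.nw, Int.cast_prod]
  simpa only [← sub_sub] using h

lemma norm_inv_lv {z : ℤ} (hz : z.natAbs ≤ 340 * n) : ‖(z : ℚ_[p])⁻¹‖ ≤ (p:ℝ) ^ (lv p n : ℝ) := by
  rw [norm_inv_int, Real.rpow_natCast]
  exact (norm_inv_nat_le hz).trans (pow_le_pow_right₀ one_le_p (Nat.le_succ _))

lemma norm_Phi {t : ℤ} (ht : t ∈ rng n) : ‖Phi ℚ_[p] n t‖ ≤ (p:ℝ) ^ (lv p n : ℝ) := by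
  refine IsUltrametricDist.norm_sum_le_of_forall_le_of_nonneg (by positivity) fun y hy => ?_
  rw [div_eq_mul_inv]
  rw [mem_rng] at ht hy
  exact nint _ (norm_inv_lv (by omega))

lemma wt_split (K : Type*) [Field K] (n : ℕ) (t : ℤ) : wt K n t =
    (∏ y ∈ ap 1 (2 * n), ((t - y : ℤ) : K)) * (∏ y ∈ ap 9 (5 * n), ((t - y : ℤ) : K)) *
      (∏ y ∈ ap 7 (5 * n), ((t - y : ℤ) : K)) *
      (∏ y ∈ (ap 2 (8 * n)).erase t, ((t - y : ℤ) : K))⁻¹ *
      (∏ y ∈ (ap 5 (17 * n)).erase t, ((t - y : ℤ) : K))⁻¹ := by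
  rw [wt, zeros, nodes, prod_union (zeros_disj n), prod_union (ap_disj (by norm_num) _ _),
    erase_union_distrib, prod_union ((ap_disj (by norm_num) _ _).mono (erase_subset _ _)
      (erase_subset _ _)), div_eq_mul_inv, mul_inv, mul_assoc _ _ (_)⁻¹]

lemma rmul {x y : ℚ_[p]} {a b : ℝ} (hx : ‖x‖ ≤ (p:ℝ) ^ a) (hy : ‖y‖ ≤ (p:ℝ) ^ b) :
    ‖x * y‖ ≤ (p:ℝ) ^ (a + b) := by
  rw [norm_mul, Real.rpow_add p_pos]
  exact mul_le_mul hx hy (norm_nonneg _) (by positivity)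

lemma hank_eq (K : Type*) [Field K] (n d : ℕ) : hank K n d = (Matrix.of fun i j : Fin d =>
    ∑ t ∈ nodes n, Phi K n t * wt K n t * (t : K) ^ ((i:ℕ) + j)).det := by
  simp [hank, Lf]

/-- the bound at small primes -/
theorem hank_small (h10 : ¬ p ∣ 10) {d : ℕ} (hd : d ≤ 13 * n) (hd0 : 0 < d) : ‖hank ℚ_[p] n d‖ ≤
    (p:ℝ) ^ (d * (26 * n - d) / ((p:ℝ) - 1) + (8 * lv p n + 8) * d) := by
  have S : St p 1 10 0 := ⟨one_mul _, by exact_mod_cast h10, by simp, le_rfl⟩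
  have h2 := p_sub_pos (p := p)
  set w : ℝ := ((p:ℝ) - 1)⁻¹ with hw
  have hw0 : 0 < w := by positivity
  have hw1 : w ≤ 1 := inv_le_one_of_one_le₀ h2
  have h := gen (β := Unit) d (fun _ => nodes n) (fun t => Phi ℚ_[p] n t * wt ℚ_[p] n t)
    (fun _ l => 0 + 10 * l) (fun _ i => 26 * n * w + (8 * lv p n + 5) - 2 * w * i)
    (26 * n * w + (8 * lv p n + 5) - 2 * w * d) fun _ i hi j hj => by
      refine IsUltrametricDist.norm_sum_le_of_forall_le_of_nonneg (by positivity) fun t ht => ?_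
      have ht := nodes_subset n ht
      rw [wt_split, Int.cast_mul]
      refine (rmul (rmul (norm_Phi ht) (rmul (rmul (rmul (rmul
        (S.apW (by norm_num) (by norm_num) (one_dvd _) (by omega) ht)
        (S.apW (by norm_num) (by norm_num) (one_dvd _) (by omega) ht))
        (S.apW (by norm_num) (by norm_num) (one_dvd _) (by omega) ht))
        (S.apQ (by norm_num) (by norm_num) (one_dvd _) (by omega) ht))
        (S.apQ (by norm_num) (by norm_num) (one_dvd _) (by omega) ht)))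
        (rmul (S.nw le_rfl (by norm_num) (one_dvd _) (by omega) ht)
          (S.nw le_rfl (by norm_num) (one_dvd _) (by omega) ht))).trans_eq ?_
      congr 1
      push_cast
      ring
  simp only [univ_unique, sum_singleton] at h
  rw [hank_eq]
  refine h.trans (Real.rpow_le_rpow_of_exponent_le one_le_p ?_)
  have h3 := sum_pos_part (β := 2 * w) (by positivity) (2 * w * d) d
  have h4 : 0 ≤ (max 0 (2 * w * d + 2 * w - 2 * w * d)) ^ 2 / (2 * (2 * w)) := by positivity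
  rw [max_eq_right (by positivity : 0 ≤ 2 * w * d + 2 * w),
    show (2 * w * d + 2 * w) ^ 2 / (2 * (2 * w)) = w * (d + 1) ^ 2 by field_simp] at h3
  rw [sum_congr rfl (g := fun i : ℕ => max 0 (2 * w * d - 2 * w * i)) fun i _ => by congr 1; ring,
    div_eq_mul_inv]
  have h5 : (1:ℝ) ≤ d := by exact_mod_cast hd0
  nlinarith

end

end Pool.Agent.B10
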